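import Pool.Agent.Lib.MP_d9bc60_nt.VA.HBDefs

section
/-! Row va-HB1 (about 120 lines): the identity. -/

set_option autoImplicit false

namespace Pool.Agent.Lib.MP_d9bc60_nt.VA

open Finset UV

/-- products of functions vanishing on initial segments -/
theorem hb1_van (f g : ArithmeticFunction ℝ) (a b : ℕ) (hf : ∀ n ≤ a, f n = 0)
    (hg : ∀ n ≤ b, g n = 0) : ∀ n ≤ a * b, (f * g) n = 0 := by
  intro n hn
  rw [ArithmeticFunction.mul_apply]
  refine Finset.sum_eq_zero fun p hp => ?_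
  rw [Nat.mem_divisorsAntidiagonal] at hp
  by_cases h1 : p.1 ≤ a
  · rw [hf _ h1, zero_mul]
  · by_cases h2 : p.2 ≤ b
    · rw [hg _ h2, mul_zero]
    · exfalso
      push Not at h1 h2
      have h3 : a * b < p.1 * p.2 := by
        calc a * b ≤ a * p.2 := Nat.mul_le_mul_left a h2.le
          _ < p.1 * p.2 := Nat.mul_lt_mul_of_pos_right h1 (by omega)
      rw [hp.1] at h3
      omega

theorem hb1_van2 (f g : ArithmeticFunction ℝ) (a : ℕ) (hg : ∀ n ≤ a, g n = 0) :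
    ∀ n ≤ a, (f * g) n = 0 := by
  intro n hn
  rw [ArithmeticFunction.mul_apply]
  refine Finset.sum_eq_zero fun p hp => ?_
  rw [Nat.mem_divisorsAntidiagonal] at hp
  have h1 : p.2 ∣ n := ⟨p.1, by rw [← hp.1, mul_comm]⟩
  have h2 : p.2 ≤ n := Nat.le_of_dvd (Nat.pos_of_ne_zero hp.2) h1
  rw [hg _ (h2.trans hn), mul_zero]

theorem hb1_Z (w : ℕ) : Zs w + Zl w = Zt := by
  ext n
  rw [ArithmeticFunction.add_apply]
  show (if 1 ≤ n ∧ n ≤ w then (1 : ℝ) else 0) + (if w < n then (1 : ℝ) else 0) =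
    ((ArithmeticFunction.zeta : ArithmeticFunction ℕ) : ArithmeticFunction ℝ) n
  rw [ArithmeticFunction.natCoe_apply, ArithmeticFunction.zeta_apply]
  rcases Nat.eq_zero_or_pos n with h0 | h0
  · subst h0; simp
  · by_cases h : n ≤ w
    · have h1 : ¬ w < n := not_lt.2 h
      have h2 : n ≠ 0 := by omega
      rw [if_pos ⟨h0, h⟩, if_neg h1, if_neg h2]; simp
    · have h1 : w < n := not_le.1 h
      have h2 : n ≠ 0 := by omega
      have h3 : ¬ (1 ≤ n ∧ n ≤ w) := fun hh => h hh.2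
      rw [if_neg h3, if_pos h1, if_neg h2]; simp

theorem hb1_L (w : ℕ) : Ls w + Ll w = Lg := by
  ext n
  rw [ArithmeticFunction.add_apply]
  show (if n ≤ w then Real.log n else 0) + (if w < n then Real.log n else 0) =
    (ArithmeticFunction.log : ArithmeticFunction ℝ) n
  rw [ArithmeticFunction.log_apply]
  by_cases h : n ≤ w
  · rw [if_pos h, if_neg (not_lt.2 h), add_zero]
  · rw [if_neg h, if_pos (not_le.1 h), zero_add]

theorem hb1_M (y z : ℕ) (hyz : y ≤ z) : Mu y + Nu y z = Mu z := by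
  ext n
  rw [ArithmeticFunction.add_apply]
  show (if n ≤ y then mu n else 0) + (if y < n ∧ n ≤ z then mu n else 0) =
    (if n ≤ z then mu n else 0)
  by_cases h : n ≤ y
  · have h1 : ¬ (y < n ∧ n ≤ z) := fun hh => absurd hh.1 (not_lt.2 h)
    rw [if_pos h, if_neg h1, if_pos (h.trans hyz), add_zero]
  · by_cases h2 : n ≤ z
    · rw [if_neg h, if_pos ⟨not_le.1 h, h2⟩, if_pos h2, zero_add]
    · have h1 : ¬ (y < n ∧ n ≤ z) := fun hh => h2 hh.2
      rw [if_neg h, if_neg h1, if_neg h2, zero_add]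

theorem hb1_E (z : ℕ) : ∀ n ≤ z ^ 3,
    ((ArithmeticFunction.vonMangoldt * (1 - Mu z * Zt) ^ 3 : ArithmeticFunction ℝ)) n = 0 := by
  have h1 : 1 - Mu z * Zt = Zt * u1_M2 z := by
    have h4 : ((ArithmeticFunction.moebius : ArithmeticFunction ℤ) : ArithmeticFunction ℝ) *
        Zt = 1 := ArithmeticFunction.coe_moebius_mul_coe_zeta
    have h5 := u1_M z
    have h6 : Mu z = ((ArithmeticFunction.moebius : ArithmeticFunction ℤ) :
      ArithmeticFunction ℝ) - u1_M2 z := by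
      show u1_M1 z = _
      rw [← h5]; ring
    rw [h6]
    linear_combination -h4
  have h2 : ∀ n ≤ z, (1 - Mu z * Zt) n = 0 := by
    rw [h1]
    refine hb1_van2 _ _ z fun n hn => ?_
    rw [u1_M2_apply, if_neg (not_lt.2 hn)]
  have h3 := hb1_van _ _ z z h2 h2
  have h4 := hb1_van _ _ (z * z) z h3 h2
  have h5 := hb1_van2 (ArithmeticFunction.vonMangoldt : ArithmeticFunction ℝ) _ (z * z * z) h4
  intro n hn
  have h6 : (1 - Mu z * Zt) ^ 3 = (1 - Mu z * Zt) * (1 - Mu z * Zt) * (1 - Mu z * Zt) := by ring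
  rw [h6]
  refine h5 n (le_of_le_of_eq hn ?_)
  ring

theorem hb1_ring (y z w : ℕ) (hyz : y ≤ z) :
    (ArithmeticFunction.vonMangoldt : ArithmeticFunction ℝ) =
      A1 y w * Zl w + A2 y w * Ll w + SS y w + Nu y z * GG y z
        + (ArithmeticFunction.vonMangoldt : ArithmeticFunction ℝ) * (1 - Mu z * Zt) ^ 3 := by
  have h3 : (ArithmeticFunction.vonMangoldt : ArithmeticFunction ℝ) * Zt = Lg :=
    ArithmeticFunction.vonMangoldt_mul_zeta
  have hZ := hb1_Z w
  have hL := hb1_L w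
  have hM := hb1_M y z hyz
  rw [A1, SS, A2, GG]
  have hZl : Zl w = Zt - Zs w := by rw [← hZ]; ring
  have hLl : Ll w = Lg - Ls w := by rw [← hL]; ring
  have hN : Nu y z = Mu z - Mu y := by rw [← hM]; ring
  rw [hZl, hLl, hN, ← h3]
  ring

/-- Proof. Put `M = Mu z`, `Y = Mu y`, `E = 1 - M * Zt`. By `u1_M` (`M = μ - u1_M2 z`) and `μ * ζ = 1`,
`E = u1_M2 z * Zt`, so `E` vanishes on `n ≤ z` and `E ^ 3` vanishes on `n ≤ z ^ 3` (a product of three
factors `> z` is `> z ^ 3`), so `(Λ * E ^ 3) n = 0` for `n ≤ z ^ 3`. As `Λ * Zt = Lg`,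
`Λ * E ^ 3 = Λ - 3 M Lg + 3 M² Zt Lg - M³ Zt² Lg`. Then `M = Y + Nu y z` (`y ≤ z`), `Zt = Zs w + Zl w`,
`Lg = Ls w + Ll w`, and a ring computation:
`3 M Lg - 3 M² Zt Lg + M³ Zt² Lg = A1 y w * Zl w + A2 y w * Ll w + SS y w + Nu y z * GG y z`. -/
theorem hb1_point (y z w n : ℕ) (hyz : y ≤ z) (hn : n ≤ z ^ 3) :
    vm n = (A1 y w * Zl w) n + (A2 y w * Ll w) n + SS y w n + (Nu y z * GG y z) n := by
  have h := congrArg (fun f : ArithmeticFunction ℝ => f n) (hb1_ring y z w hyz)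
  simp only [ArithmeticFunction.add_apply] at h
  rw [hb1_E z n hn, add_zero] at h
  exact h

end Pool.Agent.Lib.MP_d9bc60_nt.VA
end
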