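import Pool.Agent.Lib.MP_d9bc60_nt.VA.HBDefs

section
/-! Row va-HB2 (about 150 lines): bounds for the coefficients. -/

set_option autoImplicit false

namespace Pool.Agent.Lib.MP_d9bc60_nt.VA

open Finset UV

/-- The common bound `12 τ(n)^5 log n`. -/
noncomputable def TB (n : ℕ) : ℝ := 12 * (n.divisors.card : ℝ) ^ 5 * (1 + Real.log n)

/-- `f` is bounded by `A` on the divisors of `n` -/
private def hb2_P (n : ℕ) (f : ArithmeticFunction ℝ) (A : ℝ) : Prop := ∀ d, d ∣ n → |f d| ≤ A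

private theorem hb2_tau {n d : ℕ} (hn : 1 ≤ n) (hd : d ∣ n) :
    (d.divisors.card : ℝ) ≤ n.divisors.card := by
  exact_mod_cast Finset.card_le_card (Nat.divisors_subset_of_dvd (by omega) hd)

private theorem hb2_mul {n : ℕ} (hn : 1 ≤ n) {f g : ArithmeticFunction ℝ} {A B : ℝ}
    (hf : hb2_P n f A) (hg : hb2_P n g B) :
    hb2_P n (f * g) (n.divisors.card * (A * B)) := by
  intro d hd
  have hA : 0 ≤ A := (abs_nonneg _).trans (hf 1 (one_dvd n))
  have hB : 0 ≤ B := (abs_nonneg _).trans (hg 1 (one_dvd n))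
  rw [ArithmeticFunction.mul_apply]
  refine (Finset.abs_sum_le_sum_abs _ _).trans ?_
  have h1 : ∀ x ∈ d.divisorsAntidiagonal, |f x.1 * g x.2| ≤ A * B := by
    intro x hx
    rw [Nat.mem_divisorsAntidiagonal] at hx
    rw [abs_mul]
    exact mul_le_mul (hf x.1 ((Dvd.intro _ hx.1).trans hd)) (hg x.2 ((Dvd.intro_left _ hx.1).trans hd))
      (abs_nonneg _) hA
  refine (Finset.sum_le_sum h1).trans ?_
  rw [Finset.sum_const, nsmul_eq_mul]
  have h2 : d.divisorsAntidiagonal.card = d.divisors.card := by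
    rw [← Nat.map_div_right_divisors, Finset.card_map]
  rw [h2]
  exact mul_le_mul_of_nonneg_right (hb2_tau hn hd) (mul_nonneg hA hB)

private theorem hb2_add {n : ℕ} {f g : ArithmeticFunction ℝ} {A B : ℝ}
    (hf : hb2_P n f A) (hg : hb2_P n g B) : hb2_P n (f + g) (A + B) := by
  intro d hd
  rw [ArithmeticFunction.add_apply]
  exact (abs_add_le _ _).trans (add_le_add (hf d hd) (hg d hd))

private theorem hb2_sub {n : ℕ} {f g : ArithmeticFunction ℝ} {A B : ℝ}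
    (hf : hb2_P n f A) (hg : hb2_P n g B) : hb2_P n (f - g) (A + B) := by
  intro d hd
  have h1 : (f - g) d = f d - g d := by
    rw [sub_eq_add_neg, ArithmeticFunction.add_apply, ArithmeticFunction.neg_apply,
      ← sub_eq_add_neg]
  rw [h1]
  exact (abs_sub _ _).trans (add_le_add (hf d hd) (hg d hd))

private theorem hb2_three {n : ℕ} {f : ArithmeticFunction ℝ} {A : ℝ}
    (hf : hb2_P n f A) : hb2_P n (3 * f) (3 * A) := by
  have h1 : 3 * f = f + f + f := by ring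
  have h2 : 3 * A = A + A + A := by ring
  rw [h1, h2]
  exact hb2_add (hb2_add hf hf) hf

private theorem hb2_Mu (y n : ℕ) : hb2_P n (Mu y) 1 := by
  intro d _
  change |if d ≤ y then mu d else 0| ≤ 1
  split_ifs
  · unfold mu
    exact_mod_cast ArithmeticFunction.abs_moebius_le_one
  · simp

private theorem hb2_Zt (n : ℕ) : hb2_P n Zt 1 := by
  intro d _
  unfold Zt
  rw [ArithmeticFunction.natCoe_apply, ArithmeticFunction.zeta_apply]
  split_ifs <;> simp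

private theorem hb2_Zs (w n : ℕ) : hb2_P n (Zs w) 1 := by
  intro d _
  change |if 1 ≤ d ∧ d ≤ w then (1 : ℝ) else 0| ≤ 1
  split_ifs <;> simp

private theorem hb2_log {n d : ℕ} (hn : 1 ≤ n) (hd : d ∣ n) :
    |Real.log (d : ℝ)| ≤ 1 + Real.log n := by
  have h1 : 1 ≤ d := Nat.pos_of_dvd_of_pos hd hn
  have h2 : (1 : ℝ) ≤ d := by exact_mod_cast h1
  have h3 : (d : ℝ) ≤ n := by exact_mod_cast Nat.le_of_dvd hn hd
  rw [abs_of_nonneg (Real.log_nonneg h2)]
  have := Real.log_le_log (by linarith) h3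
  linarith

private theorem hb2_Lg {n : ℕ} (hn : 1 ≤ n) : hb2_P n Lg (1 + Real.log n) := by
  intro d hd
  unfold Lg
  rw [ArithmeticFunction.log_apply]
  exact hb2_log hn hd

private theorem hb2_Ls (w : ℕ) {n : ℕ} (hn : 1 ≤ n) : hb2_P n (Ls w) (1 + Real.log n) := by
  intro d hd
  change |if d ≤ w then Real.log d else 0| ≤ _
  have h1 := hb2_log hn hd
  split_ifs
  · exact h1
  · rw [abs_zero]
    exact (abs_nonneg _).trans h1

private theorem hb2_T {n : ℕ} (hn : 1 ≤ n) : (1 : ℝ) ≤ n.divisors.card := by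
  have : 0 < n.divisors.card := Finset.card_pos.mpr ⟨1, Nat.one_mem_divisors.mpr (by omega)⟩
  exact_mod_cast this

private theorem hb2_L {n : ℕ} (hn : 1 ≤ n) : (1 : ℝ) ≤ 1 + Real.log n := by
  have := Real.log_nonneg (show (1 : ℝ) ≤ n by exact_mod_cast hn)
  linarith

private theorem hb2_A2P (y w : ℕ) {n : ℕ} (hn : 1 ≤ n) :
    hb2_P n (A2 y w) (7 * (n.divisors.card : ℝ) ^ 4) := by
  have hM := hb2_Mu y n
  have hM2 := hb2_mul hn hM hM
  have hM3 := hb2_mul hn hM2 hM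
  have hZ := hb2_Zs w n
  have hZ2 := hb2_mul hn hZ hZ
  have h1 := hb2_add (hb2_sub (hb2_three hM) (hb2_mul hn (hb2_three hM2) hZ))
    (hb2_mul hn hM3 hZ2)
  have e : A2 y w = 3 * Mu y - 3 * (Mu y * Mu y) * Zs w +
      Mu y * Mu y * Mu y * (Zs w * Zs w) := by
    unfold A2
    ring
  rw [e]
  intro d hd
  refine (h1 d hd).trans ?_
  have hT1 := hb2_T hn
  generalize (n.divisors.card : ℝ) = T at hT1 ⊢
  have h2 : 1 ≤ T ^ 2 := one_le_pow₀ hT1
  have h3 : T ^ 2 ≤ T ^ 4 := pow_le_pow_right₀ hT1 (by norm_num)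
  nlinarith

/-- Proof. If `|f n| ≤ c τ(n)^i (1 + log n)^ε` and `|g n| ≤ 1` (all `n ≥ 1`) then
`|(f * g) n| ≤ ∑_{d ∣ n} |f d| ≤ c τ(n)^(i+1) (...)` (`τ(d) ≤ τ(n)`, `log d ≤ log n` for `d ∣ n`); all of
`Mu y, Mu z, Zt, Zs w` are bounded by `1`, `Lg n = log n`. So `Mu y ^ 3 * Zt * Lg` etc. are at most
`τ(n)^4 log n`: `|A1| ≤ (1 + 1 + 3) τ^4 log n`. -/
theorem hb2_A1 (y w n : ℕ) (hn : 1 ≤ n) : |A1 y w n| ≤ TB n := by
  have hM := hb2_Mu y n
  have hM2 := hb2_mul hn hM hM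
  have hM3 := hb2_mul hn hM2 hM
  have hL := hb2_Lg hn
  have h1 := hb2_sub (hb2_mul hn hM3 (hb2_add (hb2_mul hn (hb2_Zt n) hL)
    (hb2_mul hn (hb2_Zs w n) hL))) (hb2_mul hn (hb2_three hM2) hL)
  have e : A1 y w = Mu y * Mu y * Mu y * (Zt * Lg + Zs w * Lg) - 3 * (Mu y * Mu y) * Lg := by
    unfold A1
    ring
  rw [e]
  refine (h1 n dvd_rfl).trans ?_
  unfold TB
  have hT1 := hb2_T hn
  generalize (n.divisors.card : ℝ) = T at hT1 ⊢
  set L : ℝ := 1 + Real.log n with hLdef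
  have hL1 : 1 ≤ L := hb2_L hn
  have h2 : T ^ 4 ≤ T ^ 5 := pow_le_pow_right₀ hT1 (by norm_num)
  have h3 : T ^ 2 ≤ T ^ 5 := pow_le_pow_right₀ hT1 (by norm_num)
  have h4 : T ^ 4 * L ≤ T ^ 5 * L := mul_le_mul_of_nonneg_right h2 (by linarith)
  have h5 : T ^ 2 * L ≤ T ^ 5 * L := mul_le_mul_of_nonneg_right h3 (by linarith)
  have h6 : 0 ≤ T ^ 5 * L := by positivity
  calc T * (T * (T * (1 * 1) * 1) * (T * (1 * L) + T * (1 * L))) + T * (3 * (T * (1 * 1)) * L)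
      = 2 * (T ^ 4 * L) + 3 * (T ^ 2 * L) := by ring
    _ ≤ 12 * T ^ 5 * L := by linarith

theorem hb2_A2 (y w n : ℕ) (hn : 1 ≤ n) : |A2 y w n| ≤ TB n := by
  refine (hb2_A2P y w hn n dvd_rfl).trans ?_
  unfold TB
  have hT1 := hb2_T hn
  generalize (n.divisors.card : ℝ) = T at hT1 ⊢
  have hL1 := hb2_L hn
  have h2 : T ^ 4 ≤ T ^ 5 := pow_le_pow_right₀ hT1 (by norm_num)
  have h6 : 0 ≤ T ^ 5 := by positivity
  have h7 : T ^ 5 * 1 ≤ T ^ 5 * (1 + Real.log n) := mul_le_mul_of_nonneg_left hL1 h6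
  linarith

theorem hb2_SS (y w n : ℕ) (hn : 1 ≤ n) : |SS y w n| ≤ TB n := by
  have h1 := hb2_mul hn (hb2_A2P y w hn) (hb2_Ls w hn)
  refine (h1 n dvd_rfl).trans ?_
  unfold TB
  have hT1 := hb2_T hn
  generalize (n.divisors.card : ℝ) = T at hT1 ⊢
  have hL1 := hb2_L hn
  have h6 : 0 ≤ T ^ 5 * (1 + Real.log n) := by positivity
  calc T * (7 * T ^ 4 * (1 + Real.log n)) = 7 * (T ^ 5 * (1 + Real.log n)) := by ring
    _ ≤ 12 * T ^ 5 * (1 + Real.log n) := by linarith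

theorem hb2_GG (y z n : ℕ) (hn : 1 ≤ n) : |GG y z n| ≤ TB n := by
  have hM := hb2_Mu y n
  have hN := hb2_Mu z n
  have hL := hb2_Lg hn
  have hZ := hb2_Zt n
  have h1 := hb2_add (hb2_sub (hb2_three hL)
    (hb2_mul hn (hb2_mul hn (hb2_three (hb2_add hN hM)) hZ) hL))
    (hb2_mul hn (hb2_mul hn (hb2_add (hb2_add (hb2_mul hn hN hN) (hb2_mul hn hN hM))
      (hb2_mul hn hM hM)) (hb2_mul hn hZ hZ)) hL)
  have e : GG y z = 3 * Lg - 3 * (Mu z + Mu y) * Zt * Lg +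
      (Mu z * Mu z + Mu z * Mu y + Mu y * Mu y) * (Zt * Zt) * Lg := by
    unfold GG
    ring
  rw [e]
  refine (h1 n dvd_rfl).trans ?_
  unfold TB
  have hT1 := hb2_T hn
  generalize (n.divisors.card : ℝ) = T at hT1 ⊢
  set L : ℝ := 1 + Real.log n with hLdef
  have hL1 : 1 ≤ L := hb2_L hn
  have h2 : T ^ 4 ≤ T ^ 5 := pow_le_pow_right₀ hT1 (by norm_num)
  have h3 : T ^ 2 ≤ T ^ 5 := pow_le_pow_right₀ hT1 (by norm_num)
  have h30 : 1 ≤ T ^ 5 := one_le_pow₀ hT1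
  have h4 : T ^ 4 * L ≤ T ^ 5 * L := mul_le_mul_of_nonneg_right h2 (by linarith)
  have h5 : T ^ 2 * L ≤ T ^ 5 * L := mul_le_mul_of_nonneg_right h3 (by linarith)
  have h51 : 1 * L ≤ T ^ 5 * L := mul_le_mul_of_nonneg_right h30 (by linarith)
  have h6 : 0 ≤ T ^ 5 * L := by positivity
  calc 3 * L + T * (T * (3 * (1 + 1) * 1) * L) +
        T * (T * ((T * (1 * 1) + T * (1 * 1) + T * (1 * 1)) * (T * (1 * 1))) * L)
      = 3 * (1 * L) + 6 * (T ^ 2 * L) + 3 * (T ^ 4 * L) := by ring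
    _ ≤ 12 * T ^ 5 * L := by linarith

/-- Proof. `Lg 1 = log 1 = 0`, and the only factorisation of `1` is `1 * 1`. -/
theorem hb2_GG_one (y z : ℕ) : GG y z 1 = 0 := by
  have e : GG y z = (3 - 3 * (Mu z + Mu y) * Zt +
      (Mu z ^ 2 + Mu z * Mu y + Mu y ^ 2) * Zt ^ 2) * Lg := by
    unfold GG
    ring
  have h1 : Lg 1 = 0 := by
    unfold Lg
    rw [ArithmeticFunction.log_apply]
    simp
  rw [e, ArithmeticFunction.mul_apply_one, h1, mul_zero]

/-- `f` vanishes beyond `M` -/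
private def hb2_S (f : ArithmeticFunction ℝ) (M : ℕ) : Prop := ∀ n, M < n → f n = 0

private theorem hb2_S_mul {f g : ArithmeticFunction ℝ} {M N : ℕ} (hf : hb2_S f M)
    (hg : hb2_S g N) : hb2_S (f * g) (M * N) := by
  intro n hn
  rw [ArithmeticFunction.mul_apply]
  refine Finset.sum_eq_zero fun x hx => ?_
  rw [Nat.mem_divisorsAntidiagonal] at hx
  by_cases h1 : M < x.1
  · rw [hf _ h1, zero_mul]
  · by_cases h2 : N < x.2
    · rw [hg _ h2, mul_zero]
    · exfalso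
      have := Nat.mul_le_mul (not_lt.mp h1) (not_lt.mp h2)
      omega

private theorem hb2_S_add {f g : ArithmeticFunction ℝ} {M : ℕ} (hf : hb2_S f M)
    (hg : hb2_S g M) : hb2_S (f + g) M := by
  intro n hn
  rw [ArithmeticFunction.add_apply, hf n hn, hg n hn, add_zero]

private theorem hb2_S_neg {f : ArithmeticFunction ℝ} {M : ℕ} (hf : hb2_S f M) :
    hb2_S (-f) M := by
  intro n hn
  rw [ArithmeticFunction.neg_apply, hf n hn, neg_zero]

private theorem hb2_S_mono {f : ArithmeticFunction ℝ} {M N : ℕ} (hf : hb2_S f M) (h : M ≤ N) :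
    hb2_S f N := fun n hn => hf n (lt_of_le_of_lt h hn)

private theorem hb2_S_three {f : ArithmeticFunction ℝ} {M : ℕ} (hf : hb2_S f M) :
    hb2_S (3 * f) M := by
  have h1 : 3 * f = f + f + f := by ring
  rw [h1]
  exact hb2_S_add (hb2_S_add hf hf) hf

/-- Proof. `Mu y` is supported on `n ≤ y`, `Zs w` and `Ls w` on `n ≤ w`. -/
theorem hb2_SS_zero (y w n : ℕ) (hy : 1 ≤ y) (hw : 1 ≤ w) (hn : y ^ 3 * w ^ 3 < n) :
    SS y w n = 0 := by
  have hM : hb2_S (Mu y) y := fun k hk => by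
    change (if k ≤ y then mu k else 0) = 0
    rw [if_neg (by omega)]
  have hZ : hb2_S (Zs w) w := fun k hk => by
    change (if 1 ≤ k ∧ k ≤ w then (1 : ℝ) else 0) = 0
    rw [if_neg (by omega)]
  have hL : hb2_S (Ls w) w := fun k hk => by
    change (if k ≤ w then Real.log k else 0) = 0
    rw [if_neg (by omega)]
  have hM2 := hb2_S_mul hM hM
  have hM3 := hb2_S_mul hM2 hM
  have hy3 : 1 ≤ y * y := Nat.mul_pos hy hy
  have hw2 : 1 ≤ w * w := Nat.mul_pos hw hw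
  have h1 : hb2_S (3 * Mu y) (y * y * y * (w * w)) := by
    refine hb2_S_mono (hb2_S_three hM) ?_
    calc y = 1 * y * 1 := by ring
      _ ≤ y * y * y * (w * w) := Nat.mul_le_mul (Nat.mul_le_mul hy3 le_rfl) hw2
  have h2 : hb2_S (3 * (Mu y * Mu y) * Zs w) (y * y * y * (w * w)) := by
    refine hb2_S_mono (hb2_S_mul (hb2_S_three hM2) hZ) ?_
    calc y * y * w = y * y * 1 * (w * 1) := by ring
      _ ≤ y * y * y * (w * w) :=
        Nat.mul_le_mul (Nat.mul_le_mul le_rfl hy) (Nat.mul_le_mul le_rfl hw)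
  have h3 : hb2_S (Mu y * Mu y * Mu y * (Zs w * Zs w)) (y * y * y * (w * w)) :=
    hb2_S_mul hM3 (hb2_S_mul hZ hZ)
  have e : SS y w = (3 * Mu y + -(3 * (Mu y * Mu y) * Zs w) +
      Mu y * Mu y * Mu y * (Zs w * Zs w)) * Ls w := by
    unfold SS A2
    ring
  rw [e]
  refine hb2_S_mul (hb2_S_add (hb2_S_add h1 (hb2_S_neg h2)) h3) hL n ?_
  calc y * y * y * (w * w) * w = y ^ 3 * w ^ 3 := by ring
    _ < n := hn

end Pool.Agent.Lib.MP_d9bc60_nt.VA
end
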