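import Pool.Agent.Lib.MP_d9bc60_nt.VA.HB1
import Pool.Agent.Lib.MP_d9bc60_nt.VA.HB2

section
/-! Row va-HB3 (about 90 lines): the decomposition of `∑ Λ(n) φ(n)`. -/

set_option autoImplicit false

namespace Pool.Agent.Lib.MP_d9bc60_nt.VA

open Finset UV

private theorem hb3_conv (f g : ArithmeticFunction ℝ) (N : ℕ) (φ : ℕ → ℂ) :
    ∑ n ∈ Icc 1 N, (((f * g) n : ℝ) : ℂ) * φ n =
      ∑ d ∈ Icc 1 N, ∑ k ∈ Icc 1 (N / d), ((f d : ℝ) : ℂ) * ((g k : ℝ) : ℂ) * φ (d * k) := by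
  rw [← u1_dsum N (fun d k => ((f d : ℝ) : ℂ) * ((g k : ℝ) : ℂ)) φ]
  refine Finset.sum_congr rfl fun n _ => ?_
  rw [ArithmeticFunction.mul_apply]
  push_cast
  rfl

private theorem hb3_inner (w M : ℕ) (c : ℂ) (h g : ℕ → ℂ) :
    ∑ k ∈ Icc 1 M, c * (if w < k then h k else 0) * g k = c * ∑ k ∈ Ioc w M, h k * g k := by
  rw [Finset.mul_sum]
  have hsub : Ioc w M ⊆ Icc 1 M := by
    intro k hk
    rw [mem_Ioc] at hk
    rw [mem_Icc]
    omega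
  rw [← Finset.sum_subset hsub]
  · refine Finset.sum_congr rfl fun k hk => ?_
    rw [if_pos (mem_Ioc.1 hk).1]
    ring
  · intro k hk hk'
    rw [mem_Icc] at hk
    rw [mem_Ioc] at hk'
    rw [if_neg (by omega)]
    ring

/-- Proof. `hb1_point`, the convolutions as sums over `n.divisorsAntidiagonal`
(`ArithmeticFunction.mul_apply`), and `u1_dsum`; the terms with `k ≤ w` (resp. `u ∉ (y, z]`) are `0`;
the term `v = 1` of the last sum is `0` by `hb2_GG_one`. -/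
theorem hb3_sum (y z w N : ℕ) (hyz : y ≤ z) (hN : N ≤ z ^ 3) (φ : ℕ → ℂ) :
    ∑ n ∈ Icc 1 N, (vm n : ℂ) * φ n =
      ∑ k ∈ Icc 1 N, (A1 y w k : ℂ) * ∑ n ∈ Ioc w (N / k), φ (k * n)
      + ∑ k ∈ Icc 1 N, (A2 y w k : ℂ) * ∑ n ∈ Ioc w (N / k), ((Real.log n : ℝ) : ℂ) * φ (k * n)
      + ∑ n ∈ Icc 1 N, (SS y w n : ℂ) * φ n
      + ∑ u ∈ Ioc y N, ∑ v ∈ Ioc 1 (N / u), (Nu y z u : ℂ) * (GG y z v : ℂ) * φ (u * v) := by
  have h0 : ∑ n ∈ Icc 1 N, (vm n : ℂ) * φ n =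
      ∑ n ∈ Icc 1 N, (((A1 y w * Zl w) n : ℝ) : ℂ) * φ n +
      ∑ n ∈ Icc 1 N, (((A2 y w * Ll w) n : ℝ) : ℂ) * φ n +
      ∑ n ∈ Icc 1 N, (SS y w n : ℂ) * φ n +
      ∑ n ∈ Icc 1 N, (((Nu y z * GG y z) n : ℝ) : ℂ) * φ n := by
    rw [← Finset.sum_add_distrib, ← Finset.sum_add_distrib, ← Finset.sum_add_distrib]
    refine Finset.sum_congr rfl fun n hn => ?_
    rw [hb1_point y z w n hyz ((mem_Icc.1 hn).2.trans hN)]
    push_cast
    ring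
  have h1 : ∑ n ∈ Icc 1 N, (((A1 y w * Zl w) n : ℝ) : ℂ) * φ n =
      ∑ k ∈ Icc 1 N, (A1 y w k : ℂ) * ∑ n ∈ Ioc w (N / k), φ (k * n) := by
    rw [hb3_conv]
    refine Finset.sum_congr rfl fun k _ => ?_
    have h := hb3_inner w (N / k) (A1 y w k : ℂ) (fun _ => 1) (fun n => φ (k * n))
    simp only [one_mul] at h
    rw [← h]
    refine Finset.sum_congr rfl fun n _ => ?_
    have e1 : ((Zl w n : ℝ) : ℂ) = if w < n then 1 else 0 := by
      change (((if w < n then 1 else 0 : ℝ)) : ℂ) = _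
      split_ifs <;> simp
    rw [e1]
  have h2 : ∑ n ∈ Icc 1 N, (((A2 y w * Ll w) n : ℝ) : ℂ) * φ n =
      ∑ k ∈ Icc 1 N, (A2 y w k : ℂ) *
        ∑ n ∈ Ioc w (N / k), ((Real.log n : ℝ) : ℂ) * φ (k * n) := by
    rw [hb3_conv]
    refine Finset.sum_congr rfl fun k _ => ?_
    rw [← hb3_inner w (N / k) (A2 y w k : ℂ) (fun n => ((Real.log n : ℝ) : ℂ))
      (fun n => φ (k * n))]
    refine Finset.sum_congr rfl fun n _ => ?_
    have e1 : ((Ll w n : ℝ) : ℂ) = if w < n then ((Real.log n : ℝ) : ℂ) else 0 := by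
      change (((if w < n then Real.log n else 0 : ℝ)) : ℂ) = _
      split_ifs <;> simp
    rw [e1]
  have h3 : ∑ n ∈ Icc 1 N, (((Nu y z * GG y z) n : ℝ) : ℂ) * φ n =
      ∑ u ∈ Ioc y N, ∑ v ∈ Ioc 1 (N / u), (Nu y z u : ℂ) * (GG y z v : ℂ) * φ (u * v) := by
    rw [hb3_conv]
    have hsub : Ioc y N ⊆ Icc 1 N := by
      intro k hk
      rw [mem_Ioc] at hk
      rw [mem_Icc]
      omega
    rw [← Finset.sum_subset hsub]
    · refine Finset.sum_congr rfl fun u _ => ?_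
      have hsub2 : Ioc 1 (N / u) ⊆ Icc 1 (N / u) := Ioc_subset_Icc_self
      rw [← Finset.sum_subset hsub2]
      intro v hv hv'
      rw [mem_Icc] at hv
      rw [mem_Ioc] at hv'
      have : v = 1 := by omega
      rw [this, hb2_GG_one]
      simp
    · intro u hu hu'
      rw [mem_Icc] at hu
      rw [mem_Ioc] at hu'
      refine Finset.sum_eq_zero fun v _ => ?_
      have : Nu y z u = 0 := by
        change (if y < u ∧ u ≤ z then mu u else 0 : ℝ) = 0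
        rw [if_neg (by omega)]
      rw [this]
      simp
  rw [h0, h1, h2, h3]

private theorem hb3_part {w N : ℕ} (hw : 1 ≤ w) {T : ℝ} (c : ℕ → ℝ)
    (hc : ∀ k ∈ Icc 1 N, |c k| ≤ T) (F : ℕ → ℕ → ℂ) :
    ‖∑ k ∈ Icc 1 N, (c k : ℂ) * ∑ n ∈ Ioc w (N / k), F k n‖ ≤
      T * ∑ k ∈ Icc 1 (N / w), ‖∑ n ∈ Ioc w (N / k), F k n‖ := by
  have hsub : Icc 1 (N / w) ⊆ Icc 1 N := by
    intro k hk
    rw [mem_Icc] at hk ⊢
    exact ⟨hk.1, hk.2.trans (Nat.div_le_self N w)⟩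
  rw [← Finset.sum_subset hsub]
  · rw [Finset.mul_sum]
    refine (norm_sum_le _ _).trans (Finset.sum_le_sum fun k hk => ?_)
    rw [norm_mul, Complex.norm_real, Real.norm_eq_abs]
    exact mul_le_mul_of_nonneg_right (hc k (hsub hk)) (norm_nonneg _)
  · intro k hk hk'
    rw [mem_Icc] at hk hk'
    have h1 : N / w < k := by omega
    have h2 : N < k * w := (Nat.div_lt_iff_lt_mul (by omega)).1 h1
    have h3 : N / k < w := (Nat.div_lt_iff_lt_mul (by omega)).2 (by rwa [mul_comm])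
    rw [Finset.Ioc_eq_empty (by omega)]
    simp

/-- Proof. `hb3_sum`, `φ n = e (α n)`; only `k ≤ N / w` matter in the first two sums (otherwise
`Ioc w (N / k)` is empty), `hb2_A1`, `hb2_A2`; only `n ≤ y³w³` in the third (`hb2_SS_zero`);
`T` bounds `TB` on `[1, N]`. -/
theorem hb3_norm (y z w N : ℕ) (hyz : y ≤ z) (hN : N ≤ z ^ 3) (hy : 1 ≤ y) (hw : 1 ≤ w) (α T : ℝ)
    (hT : ∀ n ∈ Icc 1 N, TB n ≤ T) :
    ‖∑ n ∈ Icc 1 N, (vm n : ℂ) * e (α * n)‖ ≤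
      T * ∑ k ∈ Icc 1 (N / w), ‖∑ n ∈ Ioc w (N / k), e (α * k * n)‖
      + T * ∑ k ∈ Icc 1 (N / w), ‖∑ n ∈ Ioc w (N / k), ((Real.log n : ℝ) : ℂ) * e (α * k * n)‖
      + ‖∑ n ∈ Icc 1 (min N (y ^ 3 * w ^ 3)), (SS y w n : ℂ) * e (α * n)‖
      + ‖∑ u ∈ Ioc y N, ∑ v ∈ Ioc 1 (N / u), (Nu y z u : ℂ) * (GG y z v : ℂ) *
          e (α * ((u * v : ℕ) : ℝ))‖ := by
  rw [hb3_sum y z w N hyz hN (fun n => e (α * n))]
  have e0 : ∀ k n : ℕ, e (α * ((k * n : ℕ) : ℝ)) = e (α * k * n) := fun k n => by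
    push_cast
    rw [mul_assoc]
  have h1 := hb3_part (N := N) hw (A1 y w)
    (fun k hk => (hb2_A1 y w k (mem_Icc.1 hk).1).trans (hT k hk)) (fun k n => e (α * k * n))
  have h2 := hb3_part (N := N) hw (A2 y w)
    (fun k hk => (hb2_A2 y w k (mem_Icc.1 hk).1).trans (hT k hk))
    (fun k n => ((Real.log n : ℝ) : ℂ) * e (α * k * n))
  have h3 : ∑ n ∈ Icc 1 N, (SS y w n : ℂ) * e (α * n) =
      ∑ n ∈ Icc 1 (min N (y ^ 3 * w ^ 3)), (SS y w n : ℂ) * e (α * n) := by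
    refine (Finset.sum_subset (Icc_subset_Icc_right (min_le_left _ _)) fun n hn hn' => ?_).symm
    rw [mem_Icc] at hn hn'
    have h4 : y ^ 3 * w ^ 3 < n := by
      by_contra hcon
      exact hn' ⟨hn.1, le_min hn.2 (not_lt.1 hcon)⟩
    rw [hb2_SS_zero y w n hy hw h4]
    simp
  simp only [e0] at h1 h2 ⊢
  rw [h3]
  refine (norm_add_le _ _).trans (add_le_add ((norm_add_le _ _).trans (add_le_add
    ((norm_add_le _ _).trans (add_le_add h1 h2)) le_rfl)) le_rfl)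

end Pool.Agent.Lib.MP_d9bc60_nt.VA
end
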