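import Pool.Agent.Lib.MP_d9bc60_nt.UV.PVaughan

section
/-! Definitions for the Heath-Brown type identity. -/

set_option autoImplicit false

namespace Pool.Agent.Lib.MP_d9bc60_nt.VA

open Finset UV

/-- the zeta function of arithmetic functions, with real values -/
noncomputable def Zt : ArithmeticFunction ℝ :=
  ((ArithmeticFunction.zeta : ArithmeticFunction ℕ) : ArithmeticFunction ℝ)

/-- `log` -/
noncomputable def Lg : ArithmeticFunction ℝ := ArithmeticFunction.log

/-- `1` on `n ≤ w` -/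
noncomputable def Zs (w : ℕ) : ArithmeticFunction ℝ :=
  ⟨fun n => if 1 ≤ n ∧ n ≤ w then 1 else 0, by simp⟩

/-- `1` on `n > w` -/
noncomputable def Zl (w : ℕ) : ArithmeticFunction ℝ := ⟨fun n => if w < n then 1 else 0, by simp⟩

/-- `log` on `n ≤ w` -/
noncomputable def Ls (w : ℕ) : ArithmeticFunction ℝ :=
  ⟨fun n => if n ≤ w then Real.log n else 0, by simp⟩

/-- `log` on `n > w` -/
noncomputable def Ll (w : ℕ) : ArithmeticFunction ℝ :=
  ⟨fun n => if w < n then Real.log n else 0, by simp⟩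

/-- `μ` on `n ≤ y` -/
noncomputable def Mu (y : ℕ) : ArithmeticFunction ℝ := u1_M1 y

/-- `μ` on `y < n ≤ z` -/
noncomputable def Nu (y z : ℕ) : ArithmeticFunction ℝ :=
  ⟨fun n => if y < n ∧ n ≤ z then mu n else 0, by simp⟩

/-- the coefficient of the smooth variable of weight `1` -/
noncomputable def A1 (y w : ℕ) : ArithmeticFunction ℝ :=
  Mu y ^ 3 * (Zt * Lg + Zs w * Lg) - 3 * Mu y ^ 2 * Lg

/-- the coefficient of the smooth variable of weight `log` -/
noncomputable def A2 (y w : ℕ) : ArithmeticFunction ℝ :=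
  3 * Mu y - 3 * Mu y ^ 2 * Zs w + Mu y ^ 3 * Zs w ^ 2

/-- the short part -/
noncomputable def SS (y w : ℕ) : ArithmeticFunction ℝ := A2 y w * Ls w

/-- the cofactor of `Nu` -/
noncomputable def GG (y z : ℕ) : ArithmeticFunction ℝ :=
  3 * Lg - 3 * (Mu z + Mu y) * Zt * Lg + (Mu z ^ 2 + Mu z * Mu y + Mu y ^ 2) * Zt ^ 2 * Lg

end Pool.Agent.Lib.MP_d9bc60_nt.VA
end
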