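import Pool.Agent.Lib.MP_d9bc60_nt.UV.PTools

section
/-! Row va-T1A (about 90 lines): the multiples that are not divisible by the denominator. -/

set_option autoImplicit false

namespace Pool.Agent.Lib.MP_d9bc60_nt.VA

open Finset UV

theorem t1a_one (Q : ℕ) (hQ : 0 < Q) (A : ℤ) (hA : IsCoprime A (Q : ℤ)) (u : ℤ) :
    ∑ i ∈ range Q, a3_F Q 0 ((u + (i : ℤ)) * A) = ∑ j ∈ range Q, a3_F Q 0 (j : ℤ) := by
  have hQz : (0 : ℤ) < Q := by exact_mod_cast hQ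
  have hmaps : Set.MapsTo (fun i : ℕ => (((u + (i : ℤ)) * A) % Q).toNat)
      (range Q : Set ℕ) (range Q : Set ℕ) := by
    intro i _
    rw [mem_coe, mem_range]
    have h1 := Int.emod_nonneg ((u + (i : ℤ)) * A) hQz.ne'
    have h2 := Int.emod_lt_of_pos ((u + (i : ℤ)) * A) hQz
    show (((u + (i : ℤ)) * A) % Q).toNat < Q
    omega
  have hinj : Set.InjOn (fun i : ℕ => (((u + (i : ℤ)) * A) % Q).toNat) (range Q : Set ℕ) := by
    intro i hi j hj hij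
    rw [mem_coe, mem_range] at hi hj
    have h1 := Int.emod_nonneg ((u + (i : ℤ)) * A) hQz.ne'
    have h2 := Int.emod_nonneg ((u + (j : ℤ)) * A) hQz.ne'
    have h3 : ((u + (i : ℤ)) * A) % Q = ((u + (j : ℤ)) * A) % Q := by
      have h4 : (((u + (i : ℤ)) * A) % Q).toNat = (((u + (j : ℤ)) * A) % Q).toNat := hij
      omega
    have h4 : (Q : ℤ) ∣ ((u + (i : ℤ)) * A) - ((u + (j : ℤ)) * A) := Int.ModEq.dvd h3.symm
    have h5 : ((u + (i : ℤ)) * A) - ((u + (j : ℤ)) * A) = ((i : ℤ) - j) * A := by ring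
    rw [h5] at h4
    have h7 : (Q : ℤ) ∣ (i : ℤ) - j := hA.symm.dvd_of_dvd_mul_right h4
    have h6 := Int.eq_zero_of_abs_lt_dvd h7 (by rw [abs_lt]; constructor <;> omega)
    omega
  have hsurj : Set.SurjOn (fun i : ℕ => (((u + (i : ℤ)) * A) % Q).toNat)
      (range Q : Set ℕ) (range Q : Set ℕ) :=
    surjOn_of_injOn_of_card_le _ hmaps hinj le_rfl
  apply sum_nbij (fun i : ℕ => (((u + (i : ℤ)) * A) % Q).toNat)
  · intro i hi
    exact hmaps (mem_coe.mpr hi)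
  · exact hinj
  · exact hsurj
  · intro i _
    have h1 := Int.emod_nonneg ((u + (i : ℤ)) * A) hQz.ne'
    rw [Int.toNat_of_nonneg h1, a3_F_mod Q hQ]

theorem t1a_many (Q : ℕ) (hQ : 0 < Q) (A : ℤ) (hA : IsCoprime A (Q : ℤ)) (b : ℕ) :
    ∑ i ∈ range (Q * b), a3_F Q 0 ((((i + 1 : ℕ) : ℤ)) * A) =
      b * ∑ j ∈ range Q, a3_F Q 0 (j : ℤ) := by
  induction b with
  | zero => simp
  | succ b ih =>
    rw [mul_add, mul_one, sum_range_add, ih]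
    have : ∑ i ∈ range Q, a3_F Q 0 ((((Q * b + i + 1 : ℕ) : ℤ)) * A) =
        ∑ j ∈ range Q, a3_F Q 0 (j : ℤ) := by
      rw [← t1a_one Q hQ A hA ((Q * b + 1 : ℕ) : ℤ)]
      apply sum_congr rfl
      intro i _
      congr 1
      push_cast
      ring
    rw [this]
    push_cast
    ring

/-- Proof. `k ↦ k A` permutes the residues modulo `Q` (`A` coprime to `Q`), so over `Q` consecutive `k` the
sum is `∑_{0 < j < Q} 1/nn(j/Q) ≤ 2Q(1 + log Q)` (`a3_full` with `M = 0`, where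
`a3_F Q 0 w = if Q ∣ w then 0 else 1/nn(w/Q)` depends only on `w` mod `Q`: `a3_F_mod`). `Icc 1 K` is covered by at
most `K/Q + 1` such blocks. -/
theorem t1a_block (Q K : ℕ) (A : ℤ) (hQ : 1 ≤ Q) (hA : IsCoprime A (Q : ℤ)) :
    ∑ k ∈ Icc 1 K, (if (Q : ℤ) ∣ (k : ℤ) * A then (0 : ℝ) else 1 / nn ((((k : ℤ) * A : ℤ) : ℝ) / Q)) ≤
      ((K : ℝ) / Q + 1) * (2 * Q * (1 + Real.log Q)) := by
  have hQ0 : 0 < Q := hQ
  have hQr : (0 : ℝ) < Q := by exact_mod_cast hQ0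
  have h1 : ∑ k ∈ Icc 1 K, (if (Q : ℤ) ∣ (k : ℤ) * A then (0 : ℝ) else 1 / nn ((((k : ℤ) * A : ℤ) : ℝ) / Q)) =
      ∑ i ∈ range K, a3_F Q 0 ((((i + 1 : ℕ) : ℤ)) * A) := by
    have h2 : Icc 1 K = (range K).image (fun i => i + 1) := by
      ext v
      rw [mem_Icc, mem_image]
      constructor
      · intro h
        exact ⟨v - 1, by rw [mem_range]; omega, by omega⟩
      · rintro ⟨i, hi, rfl⟩
        rw [mem_range] at hi
        omega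
    rw [h2, sum_image (fun a _ b _ h => by simpa using h)]
    rfl
  rw [h1]
  have h3 : range K ⊆ range (Q * (K / Q + 1)) := by
    intro i hi
    rw [mem_range] at hi ⊢
    have h4 := Nat.div_add_mod K Q
    have h5 := Nat.mod_lt K hQ0
    rw [mul_add]
    omega
  have h4 : ∑ i ∈ range K, a3_F Q 0 ((((i + 1 : ℕ) : ℤ)) * A) ≤
      ∑ i ∈ range (Q * (K / Q + 1)), a3_F Q 0 ((((i + 1 : ℕ) : ℤ)) * A) :=
    sum_le_sum_of_subset_of_nonneg h3 (fun i _ _ => a3_F_nonneg Q 0 le_rfl _)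
  refine h4.trans ?_
  rw [t1a_many Q hQ0 A hA]
  have h5 := a3_full Q hQ0 0
  rw [zero_add] at h5
  have hlog : 0 ≤ Real.log Q := Real.log_nonneg (by exact_mod_cast hQ)
  have h6 : ((K / Q + 1 : ℕ) : ℝ) ≤ (K : ℝ) / Q + 1 := by
    push_cast
    have := @Nat.cast_div_le ℝ _ _ _ K Q
    linarith
  have h7 : (0 : ℝ) ≤ 2 * Q * (1 + Real.log Q) := by positivity
  calc ((K / Q + 1 : ℕ) : ℝ) * ∑ j ∈ range Q, a3_F Q 0 (j : ℤ) ≤
      ((K / Q + 1 : ℕ) : ℝ) * (2 * Q * (1 + Real.log Q)) :=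
        mul_le_mul_of_nonneg_left h5 (by positivity)
    _ ≤ ((K : ℝ) / Q + 1) * (2 * Q * (1 + Real.log Q)) := mul_le_mul_of_nonneg_right h6 h7

/-- Proof. For `Q ∤ k`: `nn(kA/Q) ≥ 1/Q` and `|kθ - kA/Q| ≤ k/(4KQ) ≤ 1/(4Q) ≤ nn(kA/Q)/4`, so
`nn(kθ) ≥ (3/4) nn(kA/Q)` (`nn_add_le`). -/
theorem t1a_near (θ : ℝ) (Q K k : ℕ) (A : ℤ) (hQ : 1 ≤ Q) (hK : 1 ≤ K) (hA : IsCoprime A (Q : ℤ))
    (hθ : |θ - (A : ℝ) / Q| ≤ 1 / (4 * K * Q)) (hk : k ∈ Icc 1 K) (hd : ¬ Q ∣ k) :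
    ¬ (Q : ℤ) ∣ (k : ℤ) * A ∧ 0 < nn ((((k : ℤ) * A : ℤ) : ℝ) / Q) ∧
      3 / 4 * nn ((((k : ℤ) * A : ℤ) : ℝ) / Q) ≤ nn (θ * k) := by
  have hQr : (0 : ℝ) < Q := by exact_mod_cast hQ
  have hKr : (0 : ℝ) < K := by exact_mod_cast hK
  rw [mem_Icc] at hk
  have hkr : (k : ℝ) ≤ K := by exact_mod_cast hk.2
  have hkr0 : (0 : ℝ) ≤ k := by positivity
  have hnd : ¬ (Q : ℤ) ∣ (k : ℤ) * A := by
    intro h
    exact hd (by exact_mod_cast hA.symm.dvd_of_dvd_mul_right h)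
  have hlow : 1 / (Q : ℝ) ≤ nn ((((k : ℤ) * A : ℤ) : ℝ) / Q) := by
    obtain ⟨n, hn⟩ := nn_exists ((((k : ℤ) * A : ℤ) : ℝ) / Q)
    rw [hn]
    have h1 : (((k : ℤ) * A : ℤ) : ℝ) / Q - n = (((k : ℤ) * A - n * Q : ℤ) : ℝ) / Q := by
      push_cast
      field_simp
    rw [h1, abs_div, abs_of_pos hQr]
    refine div_le_div_of_nonneg_right ?_ hQr.le
    have h2 : (k : ℤ) * A - n * Q ≠ 0 := by
      intro h
      exact hnd ⟨n, by linarith⟩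
    have h3 : (1 : ℤ) ≤ |(k : ℤ) * A - n * Q| := Int.one_le_abs h2
    rw [← Int.cast_abs]
    exact_mod_cast h3
  refine ⟨hnd, lt_of_lt_of_le (by positivity) hlow, ?_⟩
  have h1 : |(((k : ℤ) * A : ℤ) : ℝ) / Q - θ * k| ≤ 1 / (4 * Q) := by
    have h2 : (((k : ℤ) * A : ℤ) : ℝ) / Q - θ * k = -((θ - (A : ℝ) / Q) * k) := by
      push_cast
      field_simp
      ring
    rw [h2, abs_neg, abs_mul, abs_of_nonneg hkr0]
    calc |θ - (A : ℝ) / Q| * k ≤ 1 / (4 * K * Q) * K :=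
          mul_le_mul hθ hkr hkr0 (by positivity)
      _ = 1 / (4 * Q) := by field_simp
  have h2 := nn_add_le (θ * k) ((((k : ℤ) * A : ℤ) : ℝ) / Q - θ * k)
  rw [add_sub_cancel] at h2
  have h3 := nn_le_abs ((((k : ℤ) * A : ℤ) : ℝ) / Q - θ * k)
  have h4 : 1 / (4 * (Q : ℝ)) = 1 / 4 * (1 / Q) := by field_simp
  rw [h4] at h1
  linarith

end Pool.Agent.Lib.MP_d9bc60_nt.VA
end
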