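import Pool.Agent.Lib.MP_d9bc60_nt.VA.T1A

section
/-! Row va-T1B (about 120 lines): one frequency. -/

set_option autoImplicit false

namespace Pool.Agent.Lib.MP_d9bc60_nt.VA

open Finset UV

/-- the main part of the type I bound for one frequency: `t/Q` if `δ = 0`, and
`min (t/Q) (1/(2δ))` otherwise -/
noncomputable def EE (t Q : ℕ) (δ : ℝ) : ℝ :=
  if δ = 0 then (t : ℝ) / Q else min ((t : ℝ) / Q) (1 / (2 * δ))

/-- Proof. `Real.exists_rat_abs_sub_le_and_den_le` with `n = 4K` gives `Q = den`, `A = num`, coprime,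
`|θ - A/Q| ≤ 1/((4K+1)Q)`, so `δ = |Qθ - A| ≤ 1/(4K)`. For `k = Qj ≤ K`: `kθ = jA + j(Qθ - A)`,
`|j(Qθ - A)| ≤ 1/4`, so `nn(θk) = jδ` and `F k ≤ (1/j) EE`; sum `∑_{j ≤ K} 1/j ≤ 1 + log K`. For `Q ∤ k`:
`F k ≤ 1/(2 nn(θk)) ≤ (2/3)/nn(kA/Q)` (`t1a_near`) and `t1a_block`:
`(2/3)(K/Q + 1) 2Q (1 + log Q) ≤ (4/3)(K + Q)(1 + log Q)`, `Q ≤ 4K`. -/
theorem t1b_point (θ : ℝ) (K : ℕ) (hK : 1 ≤ K) : ∃ (Q : ℕ) (A : ℤ), 1 ≤ Q ∧ Q ≤ 4 * K ∧
    |Q * θ - A| ≤ 1 / (4 * K) ∧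
    ∀ (t : ℕ) (F : ℕ → ℝ), (∀ k ∈ Icc 1 K, 0 ≤ F k ∧ F k ≤ (t : ℝ) / k ∧
      (0 < nn (θ * k) → F k ≤ 1 / (2 * nn (θ * k)))) →
    ∑ k ∈ Icc 1 K, F k ≤ (1 + Real.log K) * EE t Q |Q * θ - A| +
      7 * K * (1 + Real.log (4 * K)) := by
  classical
  have hK0 : (0 : ℝ) < K := by exact_mod_cast hK
  have hK1 : (1 : ℝ) ≤ K := by exact_mod_cast hK
  obtain ⟨q, hq1, hq2⟩ := Real.exists_rat_abs_sub_le_and_den_le θ (n := 4 * K) (by omega)
  have hQ : 1 ≤ q.den := q.pos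
  have hQ0 : (0 : ℝ) < q.den := by exact_mod_cast hQ
  have hQ1 : (1 : ℝ) ≤ q.den := by exact_mod_cast hQ
  have hA : IsCoprime q.num (q.den : ℤ) := by
    rw [Int.isCoprime_iff_gcd_eq_one, Int.gcd_eq_natAbs, Int.natAbs_natCast]
    exact q.reduced
  have hqr : (q : ℝ) = (q.num : ℝ) / q.den := by
    conv_lhs => rw [← Rat.num_div_den q]
    push_cast
    ring
  have hθ : |θ - (q.num : ℝ) / q.den| ≤ 1 / (4 * K * q.den) := by
    rw [← hqr]
    refine hq1.trans ?_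
    apply one_div_le_one_div_of_le (by positivity)
    push_cast
    nlinarith
  have hδ : |q.den * θ - q.num| ≤ 1 / (4 * K) := by
    have h1 : (q.den : ℝ) * θ - q.num = q.den * (θ - (q.num : ℝ) / q.den) := by
      field_simp
    rw [h1, abs_mul, abs_of_pos hQ0]
    calc (q.den : ℝ) * |θ - (q.num : ℝ) / q.den| ≤ q.den * (1 / (4 * K * q.den)) :=
          mul_le_mul_of_nonneg_left hθ hQ0.le
      _ = 1 / (4 * K) := by field_simp
  refine ⟨q.den, q.num, hQ, hq2, hδ, fun t F hF => ?_⟩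
  set Q := q.den with hQdef
  set A := q.num with hAdef
  set δ : ℝ := |Q * θ - A| with hδdef
  have hδ0 : 0 ≤ δ := abs_nonneg _
  have hEE0 : 0 ≤ EE t Q δ := by
    rw [EE]
    split_ifs
    · positivity
    · exact le_min (by positivity) (by positivity)
  -- the multiples of Q
  have hdiv : ∀ k ∈ Icc 1 K, Q ∣ k → F k ≤ EE t Q δ * (((k / Q : ℕ) : ℝ))⁻¹ := by
    rintro k hk ⟨j, rfl⟩
    obtain ⟨hk1, hk2⟩ := Finset.mem_Icc.1 hk
    obtain ⟨-, f1, f2⟩ := hF _ hk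
    have hQp : 0 < Q := hQ
    rw [Nat.mul_div_cancel_left j hQp]
    have hj1 : 1 ≤ j := by
      rcases Nat.eq_zero_or_pos j with h | h
      · rw [h, mul_zero] at hk1; omega
      · exact h
    have hjK : j ≤ K := by nlinarith
    have hj0 : (0 : ℝ) < j := by exact_mod_cast hj1
    have hjK' : (j : ℝ) ≤ K := by exact_mod_cast hjK
    have hnn : nn (θ * ((Q * j : ℕ) : ℝ)) = j * δ := by
      have h1 : θ * ((Q * j : ℕ) : ℝ) = j * (Q * θ - A) + ((j * A : ℤ) : ℝ) := by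
        push_cast
        ring
      rw [h1, nn_add_int, nn_of_abs_le_half, abs_mul, abs_of_pos hj0]
      rw [abs_mul, abs_of_pos hj0]
      calc (j : ℝ) * |(Q : ℝ) * θ - A| ≤ K * (1 / (4 * K)) :=
            mul_le_mul hjK' hδ (abs_nonneg _) hK0.le
        _ = 1 / 4 := by field_simp
        _ ≤ 1 / 2 := by norm_num
    have f1' : F (Q * j) ≤ (t : ℝ) / Q * (j : ℝ)⁻¹ := by
      refine f1.trans (le_of_eq ?_)
      push_cast
      field_simp
    rw [EE]
    split_ifs with h0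
    · exact f1'
    · have hδp : 0 < δ := lt_of_le_of_ne hδ0 (Ne.symm h0)
      have hnp : 0 < nn (θ * ((Q * j : ℕ) : ℝ)) := by rw [hnn]; positivity
      have f2' : F (Q * j) ≤ 1 / (2 * δ) * (j : ℝ)⁻¹ := by
        refine (f2 hnp).trans (le_of_eq ?_)
        rw [hnn]
        field_simp
      rw [min_mul_of_nonneg _ _ (by positivity : (0 : ℝ) ≤ (j : ℝ)⁻¹)]
      exact le_min f1' f2'
  -- the other ones
  have hnd : ∀ k ∈ Icc 1 K, ¬ Q ∣ k → F k ≤ 2 / 3 *
      (if (Q : ℤ) ∣ (k : ℤ) * A then (0 : ℝ) else 1 / nn ((((k : ℤ) * A : ℤ) : ℝ) / Q)) := by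
    intro k hk hd
    obtain ⟨h1, h2, h3⟩ := t1a_near θ Q K k A hQ hK hA hθ hk hd
    obtain ⟨-, -, f2⟩ := hF _ hk
    rw [if_neg h1]
    have h4 : 0 < nn (θ * k) := lt_of_lt_of_le (by positivity) h3
    refine (f2 h4).trans ?_
    have h5 : 2 / 3 * (1 / nn ((((k : ℤ) * A : ℤ) : ℝ) / Q)) =
        1 / (2 * (3 / 4 * nn ((((k : ℤ) * A : ℤ) : ℝ) / Q))) := by
      field_simp
      norm_num
    rw [h5]
    exact one_div_le_one_div_of_le (by positivity) (by linarith)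
  have hnn0 : ∀ k ∈ Icc 1 K, (0 : ℝ) ≤ 2 / 3 *
      (if (Q : ℤ) ∣ (k : ℤ) * A then (0 : ℝ) else 1 / nn ((((k : ℤ) * A : ℤ) : ℝ) / Q)) := by
    intro k _
    split_ifs
    · simp
    · have := nn_nonneg ((((k : ℤ) * A : ℤ) : ℝ) / Q)
      positivity
  rw [← Finset.sum_filter_add_sum_filter_not (Icc 1 K) (fun k => Q ∣ k)]
  refine add_le_add ?_ ?_
  · calc ∑ k ∈ (Icc 1 K).filter (fun k => Q ∣ k), F k
        ≤ ∑ k ∈ (Icc 1 K).filter (fun k => Q ∣ k), EE t Q δ * (((k / Q : ℕ) : ℝ))⁻¹ :=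
          Finset.sum_le_sum fun k hk => hdiv k (Finset.mem_filter.1 hk).1 (Finset.mem_filter.1 hk).2
      _ = ∑ j ∈ ((Icc 1 K).filter (fun k => Q ∣ k)).image (fun k => k / Q), EE t Q δ * ((j : ℝ))⁻¹ := by
          rw [Finset.sum_image]
          intro a ha b hb hab
          obtain ⟨a', rfl⟩ := (Finset.mem_filter.1 (Finset.mem_coe.1 ha)).2
          obtain ⟨b', rfl⟩ := (Finset.mem_filter.1 (Finset.mem_coe.1 hb)).2
          have hQp : 0 < Q := hQ
          simp only [Nat.mul_div_cancel_left _ hQp] at hab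
          rw [hab]
      _ ≤ ∑ j ∈ Icc 1 K, EE t Q δ * ((j : ℝ))⁻¹ := by
          apply Finset.sum_le_sum_of_subset_of_nonneg
          · intro j hj
            obtain ⟨k, hk, rfl⟩ := Finset.mem_image.1 hj
            obtain ⟨hk1, c, rfl⟩ := Finset.mem_filter.1 hk
            obtain ⟨h1, h2⟩ := Finset.mem_Icc.1 hk1
            have hQp : 0 < Q := hQ
            rw [Nat.mul_div_cancel_left _ hQp, Finset.mem_Icc]
            constructor
            · rcases Nat.eq_zero_or_pos c with h | h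
              · rw [h, mul_zero] at h1; omega
              · exact h
            · nlinarith
          · intro j _ _
            positivity
      _ = EE t Q δ * ∑ j ∈ Icc 1 K, ((j : ℝ))⁻¹ := by rw [Finset.mul_sum]
      _ ≤ EE t Q δ * (1 + Real.log K) := mul_le_mul_of_nonneg_left (a4_harm K) hEE0
      _ = (1 + Real.log K) * EE t Q δ := mul_comm _ _
  · have hlQ : Real.log Q ≤ Real.log (4 * K) := by
      apply Real.log_le_log hQ0
      exact_mod_cast hq2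
    have hlQ0 : 0 ≤ Real.log Q := Real.log_nonneg hQ1
    have hQK : (Q : ℝ) ≤ 4 * K := by exact_mod_cast hq2
    calc ∑ k ∈ (Icc 1 K).filter (fun k => ¬ Q ∣ k), F k
        ≤ ∑ k ∈ (Icc 1 K).filter (fun k => ¬ Q ∣ k), 2 / 3 *
          (if (Q : ℤ) ∣ (k : ℤ) * A then (0 : ℝ) else 1 / nn ((((k : ℤ) * A : ℤ) : ℝ) / Q)) :=
          Finset.sum_le_sum fun k hk => hnd k (Finset.mem_filter.1 hk).1 (Finset.mem_filter.1 hk).2
      _ ≤ ∑ k ∈ Icc 1 K, 2 / 3 *
          (if (Q : ℤ) ∣ (k : ℤ) * A then (0 : ℝ) else 1 / nn ((((k : ℤ) * A : ℤ) : ℝ) / Q)) :=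
          Finset.sum_le_sum_of_subset_of_nonneg (Finset.filter_subset _ _) fun k hk _ => hnn0 k hk
      _ ≤ 2 / 3 * (((K : ℝ) / Q + 1) * (2 * Q * (1 + Real.log Q))) := by
          rw [← Finset.mul_sum]
          exact mul_le_mul_of_nonneg_left (t1a_block Q K A hQ hA) (by norm_num)
      _ = 4 / 3 * (K + Q) * (1 + Real.log Q) := by
          field_simp
          ring
      _ ≤ 4 / 3 * (K + 4 * K) * (1 + Real.log (4 * K)) := by
          apply mul_le_mul _ (by linarith) (by linarith) (by positivity)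
          linarith
      _ ≤ 7 * K * (1 + Real.log (4 * K)) := by
          have h1 : 0 ≤ 1 + Real.log (4 * K) := by linarith
          have h2 : 0 ≤ (K : ℝ) * (1 + Real.log (4 * K)) := by positivity
          nlinarith

end Pool.Agent.Lib.MP_d9bc60_nt.VA
end
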