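import Mathlib

section
/-! Row va-T1C0 (about 90 lines): two sums over residue classes. -/

set_option autoImplicit false

namespace Pool.Agent.Lib.MP_d9bc60_nt.VA

open Finset

/-- Proof. `v ≡ h (mod B)`, `1 ≤ v ≤ V`: at most one such `v` is `< B` (term `≤ 1`); the others are
`≥ lB`, `l = ⌊v/B⌋ = 1, ..., V/B`, one for each `l`, with terms `≤ R/(lB)`; `∑ 1/l ≤ 1 + log V`, `R ≤ B`. -/
theorem t1c_class (B V R : ℕ) (h : ℤ) (hB : 1 ≤ B) (hRB : R ≤ B) (hV : 1 ≤ V) :
    ∑ v ∈ (Icc 1 V).filter (fun v : ℕ => (B : ℤ) ∣ (v : ℤ) - h), min 1 ((R : ℝ) / v) ≤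
      2 + Real.log V := by
  classical
  set F := (Icc 1 V).filter (fun v : ℕ => (B : ℤ) ∣ (v : ℤ) - h) with hF
  set g : ℕ → ℝ := fun l => if l = 0 then 1 else ((l : ℝ))⁻¹ with hg
  have hBr : (0 : ℝ) < B := by exact_mod_cast hB
  have hg0 : ∀ l, 0 ≤ g l := by
    intro l
    simp only [hg]
    split_ifs
    · norm_num
    · positivity
  have hterm : ∀ v ∈ F, min 1 ((R : ℝ) / v) ≤ g (v / B) := by
    intro v hv
    rw [hF, mem_filter, mem_Icc] at hv
    obtain ⟨⟨hv1, hv2⟩, -⟩ := hv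
    simp only [hg]
    split_ifs with h0
    · exact min_le_left _ _
    · refine (min_le_right _ _).trans ?_
      have hvp : (0 : ℝ) < v := by exact_mod_cast hv1
      have hlp : (0 : ℝ) < ((v / B : ℕ) : ℝ) := by
        exact_mod_cast Nat.pos_of_ne_zero h0
      have h1 : (((v / B : ℕ) : ℝ)) * B ≤ v := by exact_mod_cast Nat.div_mul_le_self v B
      rw [div_le_iff₀ hvp, inv_mul_eq_div, le_div_iff₀ hlp]
      have h2 : (R : ℝ) ≤ B := by exact_mod_cast hRB
      nlinarith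
  have hinj : Set.InjOn (fun v : ℕ => v / B) (F : Set ℕ) := by
    intro v hv w hw hvw
    simp only [hF, coe_filter, Set.mem_setOf_eq] at hv hw
    have hd : (B : ℤ) ∣ (v : ℤ) - w := by
      have := dvd_sub hv.2 hw.2
      have e : (v : ℤ) - h - ((w : ℤ) - h) = v - w := by ring
      rwa [e] at this
    have hm : w % B = v % B := by
      have := (Nat.modEq_iff_dvd (n := B) (a := w) (b := v)).2 hd
      exact this
    have e1 := Nat.div_add_mod v B
    have e2 := Nat.div_add_mod w B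
    have hvw' : v / B = w / B := hvw
    rw [← e1, ← e2, hvw', hm]
  have hsub : F.image (fun v : ℕ => v / B) ⊆ range (V / B + 1) := by
    intro l hl
    rw [mem_image] at hl
    obtain ⟨v, hv, rfl⟩ := hl
    rw [hF, mem_filter, mem_Icc] at hv
    rw [mem_range]
    exact Nat.lt_succ_of_le (Nat.div_le_div_right hv.1.2)
  have hharm : ∑ l ∈ range (V / B + 1), g l ≤ 2 + Real.log V := by
    rw [sum_range_succ']
    have e0 : g 0 = 1 := by simp [hg]
    have e1 : ∑ k ∈ range (V / B), g (k + 1) = ((harmonic (V / B) : ℚ) : ℝ) := by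
      unfold harmonic
      push_cast
      refine sum_congr rfl fun k _ => ?_
      simp [hg]
    rw [e0, e1]
    have h1 := harmonic_le_one_add_log (V / B)
    have h2 : Real.log ((V / B : ℕ) : ℝ) ≤ Real.log V := by
      rcases Nat.eq_zero_or_pos (V / B) with h0 | h0
      · rw [h0]
        simp only [Nat.cast_zero, Real.log_zero]
        exact Real.log_nonneg (by exact_mod_cast hV)
      · exact Real.log_le_log (by exact_mod_cast h0) (by exact_mod_cast Nat.div_le_self V B)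
    linarith
  calc ∑ v ∈ F, min 1 ((R : ℝ) / v) ≤ ∑ v ∈ F, g (v / B) := sum_le_sum hterm
    _ = ∑ l ∈ F.image (fun v : ℕ => v / B), g l := (sum_image (f := g) hinj).symm
    _ ≤ ∑ l ∈ range (V / B + 1), g l := sum_le_sum_of_subset_of_nonneg hsub fun l _ _ => hg0 l
    _ ≤ 2 + Real.log V := hharm

/-- Proof. For `v = lB`: `∑_l (R/(lB))² ≤ 2 (R/B)²` (`∑ 1/l² ≤ 2`). -/
theorem t1c_zero (B V R : ℕ) (hB : 1 ≤ B) :
    ∑ v ∈ (Icc 1 V).filter (fun v : ℕ => B ∣ v), ((R : ℝ) / v) ^ 2 ≤ 2 * ((R : ℝ) / B) ^ 2 := by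
  classical
  set F := (Icc 1 V).filter (fun v : ℕ => B ∣ v) with hF
  set g : ℕ → ℝ := fun l => ((R : ℝ) / B) ^ 2 * ((l : ℝ) ^ 2)⁻¹ with hg
  have hBr : (0 : ℝ) < B := by exact_mod_cast hB
  have hterm : ∀ v ∈ F, ((R : ℝ) / v) ^ 2 = g (v / B) := by
    intro v hv
    rw [hF, mem_filter, mem_Icc] at hv
    obtain ⟨⟨hv1, hv2⟩, l, rfl⟩ := hv
    have hl : l ≠ 0 := by
      rintro rfl
      simp at hv1
    have hl' : (l : ℝ) ≠ 0 := by exact_mod_cast hl
    simp only [hg]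
    rw [Nat.mul_div_cancel_left l (by omega)]
    push_cast
    field_simp
  have hinj : Set.InjOn (fun v : ℕ => v / B) (F : Set ℕ) := by
    intro v hv w hw hvw
    simp only [hF, coe_filter, Set.mem_setOf_eq] at hv hw
    obtain ⟨⟨-, a, rfl⟩, ⟨-, b, rfl⟩⟩ := hv, hw
    have hvw' : B * a / B = B * b / B := hvw
    rw [Nat.mul_div_cancel_left a (by omega), Nat.mul_div_cancel_left b (by omega)] at hvw'
    rw [hvw']
  have hsub : F.image (fun v : ℕ => v / B) ⊆ Ioo 0 (V + 1) := by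
    intro l hl
    rw [mem_image] at hl
    obtain ⟨v, hv, rfl⟩ := hl
    rw [hF, mem_filter, mem_Icc] at hv
    obtain ⟨⟨hv1, hv2⟩, l, rfl⟩ := hv
    have e : B * l / B = l := Nat.mul_div_cancel_left l (by omega)
    simp only [e]
    rw [mem_Ioo]
    have hl : l ≠ 0 := by
      rintro rfl
      simp at hv1
    refine ⟨Nat.pos_of_ne_zero hl, ?_⟩
    have : l ≤ B * l := Nat.le_mul_of_pos_left l (by omega)
    omega
  calc ∑ v ∈ F, ((R : ℝ) / v) ^ 2 = ∑ v ∈ F, g (v / B) := sum_congr rfl hterm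
    _ = ∑ l ∈ F.image (fun v : ℕ => v / B), g l := (sum_image (f := g) hinj).symm
    _ ≤ ∑ l ∈ Ioo 0 (V + 1), g l :=
        sum_le_sum_of_subset_of_nonneg hsub fun l _ _ => by simp only [hg]; positivity
    _ = ((R : ℝ) / B) ^ 2 * ∑ l ∈ Ioo 0 (V + 1), ((l : ℝ) ^ 2)⁻¹ := by
        rw [mul_sum]
    _ ≤ ((R : ℝ) / B) ^ 2 * (2 / ((0 : ℕ) + 1 : ℝ)) :=
        mul_le_mul_of_nonneg_left (sum_Ioo_inv_sq_le 0 (V + 1)) (by positivity)
    _ = 2 * ((R : ℝ) / B) ^ 2 := by
        push_cast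
        ring

end Pool.Agent.Lib.MP_d9bc60_nt.VA
end
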