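import Pool.Agent.Lib.MP_d9bc60_nt.VA.T1B
import Pool.Agent.Lib.MP_d9bc60_nt.VA.T1C0

section
/-! Row va-T1C (about 150 lines): the mean square of the main parts. -/

set_option autoImplicit false

namespace Pool.Agent.Lib.MP_d9bc60_nt.VA

open Finset UV

theorem t1c_group (S : Finset ℕ) (Q : ℕ → ℕ) (V : ℕ) (P : ℕ → Prop) [DecidablePred P] (g : ℕ → ℝ) (T : ℝ)
    (hg : ∀ v, 0 ≤ g v) (hS : ∀ r ∈ S, Q r * r ∈ Icc 1 V ∧ P (Q r * r))
    (hT : ∀ v ∈ Icc 1 V, (v.divisors.card : ℝ) ≤ T) :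
    ∑ r ∈ S, g (Q r * r) ≤ T * ∑ v ∈ (Icc 1 V).filter P, g v := by
  classical
  have h1 : ∑ r ∈ S, g (Q r * r) =
      ∑ v ∈ (Icc 1 V).filter P, ∑ r ∈ S.filter (fun r => Q r * r = v), g (Q r * r) := by
    rw [Finset.sum_fiberwise_of_maps_to]
    intro r hr
    rw [Finset.mem_filter]
    exact hS r hr
  rw [h1, Finset.mul_sum]
  refine Finset.sum_le_sum fun v hv => ?_
  rw [Finset.mem_filter] at hv
  have h2 : ∑ r ∈ S.filter (fun r => Q r * r = v), g (Q r * r) =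
      ((S.filter (fun r => Q r * r = v)).card : ℝ) * g v := by
    rw [Finset.sum_congr rfl (g := fun _ => g v), Finset.sum_const, nsmul_eq_mul]
    intro r hr
    rw [(Finset.mem_filter.1 hr).2]
  rw [h2]
  refine mul_le_mul_of_nonneg_right ?_ (hg v)
  refine le_trans ?_ (hT v hv.1)
  refine Nat.cast_le.2 (Finset.card_le_card ?_)
  intro r hr
  rw [Nat.mem_divisors]
  refine ⟨⟨Q r, ?_⟩, ?_⟩
  · rw [mul_comm]
    exact ((Finset.mem_filter.1 hr).2).symm
  · have := (Finset.mem_Icc.1 hv.1).1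
    omega

theorem t1c_harm (B : ℕ) : ∑ h ∈ (Icc (-(B : ℤ)) B).filter (fun h => h ≠ 0), 1 / |(h : ℝ)| ≤
    2 * (1 + Real.log B) := by
  classical
  have hsub : (Icc (-(B : ℤ)) B).filter (fun h => h ≠ 0) ⊆
      (Icc 1 B).image (fun k : ℕ => (k : ℤ)) ∪ (Icc 1 B).image (fun k : ℕ => -(k : ℤ)) := by
    intro h hh
    rw [Finset.mem_filter, Finset.mem_Icc] at hh
    rw [Finset.mem_union, Finset.mem_image, Finset.mem_image]
    obtain ⟨⟨h1, h2⟩, h3⟩ := hh
    rcases lt_or_gt_of_ne h3 with h4 | h4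
    · right
      refine ⟨h.natAbs, ?_, by omega⟩
      rw [Finset.mem_Icc]
      omega
    · left
      refine ⟨h.natAbs, ?_, by omega⟩
      rw [Finset.mem_Icc]
      omega
  have hharm : ∑ k ∈ Icc 1 B, (1 : ℝ) / k ≤ 1 + Real.log B := by
    have := harmonic_le_one_add_log B
    rw [harmonic_eq_sum_Icc] at this
    push_cast at this
    refine le_trans (le_of_eq ?_) this
    refine Finset.sum_congr rfl fun k _ => ?_
    rw [one_div]
  calc ∑ h ∈ (Icc (-(B : ℤ)) B).filter (fun h => h ≠ 0), 1 / |(h : ℝ)|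
      ≤ ∑ h ∈ (Icc 1 B).image (fun k : ℕ => (k : ℤ)) ∪ (Icc 1 B).image (fun k : ℕ => -(k : ℤ)),
          1 / |(h : ℝ)| := Finset.sum_le_sum_of_subset_of_nonneg hsub fun _ _ _ => by positivity
    _ ≤ ∑ h ∈ (Icc 1 B).image (fun k : ℕ => (k : ℤ)), 1 / |(h : ℝ)| +
          ∑ h ∈ (Icc 1 B).image (fun k : ℕ => -(k : ℤ)), 1 / |(h : ℝ)| := by
        rw [← Finset.sum_union_inter]
        have : 0 ≤ ∑ h ∈ (Icc 1 B).image (fun k : ℕ => (k : ℤ)) ∩
            (Icc 1 B).image (fun k : ℕ => -(k : ℤ)), 1 / |(h : ℝ)| :=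
          Finset.sum_nonneg fun _ _ => by positivity
        linarith
    _ = ∑ k ∈ Icc 1 B, (1 : ℝ) / k + ∑ k ∈ Icc 1 B, (1 : ℝ) / k := by
        rw [Finset.sum_image, Finset.sum_image]
        · congr 1
          · refine Finset.sum_congr rfl fun k _ => ?_
            simp
          · refine Finset.sum_congr rfl fun k _ => ?_
            simp
        · intro x _ y _ h
          simpa using h
        · intro x _ y _ h
          simpa using h
    _ ≤ 2 * (1 + Real.log B) := by linarith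

/-- Proof. `δ_r = |Q_r c_r - A_r| = |h_r|/(qB)` with `h_r = Q_r (aB + r) - A_r q B`,
`c_r = a/q + r/(qB)`; `|h_r| ≤ qB/(4K) ≤ B` (`q ≤ 4K`), and `v_r = Q_r r ≡ h_r (mod B)`, `1 ≤ v_r ≤ 4KR`.
The `r` with `h_r ≠ 0`: `EE² ≤ (t/Q_r)(qB/(2|h_r|)) = tqB/2 · (r/v_r)/|h_r|`; group by `(h, v) = (h_r, v_r)`:
for given `v` at most `τ(v) ≤ T` values `r ∣ v`, each with `r/v ≤ min(1, R/v)`; so with `t1c_class` the sum
over the `r` with `h_r = h` of `r/v_r` is `≤ T (2 + log(4KR))`, and `∑_{1 ≤ |h| ≤ B} 1/|h| ≤ 2(1 + log B)`.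
The `r` with `h_r = 0`: `EE² = t²/Q_r² = t² (r/v_r)² ≤ t² (R/v_r)²`, `B ∣ v_r`, `t1c_zero`. -/
theorem t1c_ms (a : ℤ) (q B R K t : ℕ) (T : ℝ) (Q : ℕ → ℕ) (A : ℕ → ℤ) (hq : 1 ≤ q) (hB : 1 ≤ B)
    (hRB : R ≤ B) (hK : 1 ≤ K) (hqK : q ≤ 4 * K) (hR : 1 ≤ R)
    (hT : ∀ v ∈ Icc 1 (4 * K * R), (v.divisors.card : ℝ) ≤ T)
    (hQ : ∀ r ∈ Icc 1 R, 1 ≤ Q r ∧ Q r ≤ 4 * K ∧
      |Q r * ((a : ℝ) / q + (r : ℝ) / (q * B)) - A r| ≤ 1 / (4 * K)) :
    ∑ r ∈ Icc 1 R, EE t (Q r) |Q r * ((a : ℝ) / q + (r : ℝ) / (q * B)) - A r| ^ 2 ≤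
      T * (t * q * B * (1 + Real.log B) * (2 + Real.log (4 * K * R : ℕ)) +
        2 * (t : ℝ) ^ 2 * ((R : ℝ) / B) ^ 2) := by
  classical
  set V : ℕ := 4 * K * R with hVdef
  have hV : 1 ≤ V := by
    rw [hVdef]
    exact Nat.mul_pos (by omega) hR
  have hq0 : (0 : ℝ) < q := by exact_mod_cast hq
  have hB0 : (0 : ℝ) < B := by exact_mod_cast hB
  have hK0 : (0 : ℝ) < K := by exact_mod_cast hK
  have hT0 : 0 ≤ T := le_trans (Nat.cast_nonneg _) (hT 1 (Finset.mem_Icc.2 ⟨le_refl _, hV⟩))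
  set h : ℕ → ℤ := fun r => Q r * (a * B + r) - A r * q * B with hh
  have hδ : ∀ r, |(Q r : ℝ) * ((a : ℝ) / q + (r : ℝ) / (q * B)) - A r| = |(h r : ℝ)| / (q * B) := by
    intro r
    have e1 : (Q r : ℝ) * ((a : ℝ) / q + (r : ℝ) / (q * B)) - A r = (h r : ℝ) / (q * B) := by
      rw [hh]
      push_cast
      field_simp
    rw [e1, abs_div, abs_of_pos (mul_pos hq0 hB0)]
  have hmem : ∀ r ∈ Icc 1 R, Q r * r ∈ Icc 1 V := by
    intro r hr
    obtain ⟨h1, h2, -⟩ := hQ r hr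
    rw [Finset.mem_Icc] at hr ⊢
    refine ⟨Nat.mul_pos h1 hr.1, ?_⟩
    rw [hVdef]
    exact Nat.mul_le_mul h2 hr.2
  have hcong : ∀ r, (B : ℤ) ∣ ((Q r * r : ℕ) : ℤ) - h r := by
    intro r
    refine ⟨A r * q - Q r * a, ?_⟩
    rw [hh]
    push_cast
    ring
  have hhB : ∀ r ∈ Icc 1 R, h r ∈ Icc (-(B : ℤ)) B := by
    intro r hr
    have h1 := (hQ r hr).2.2
    rw [hδ, div_le_div_iff₀ (mul_pos hq0 hB0) (by positivity), one_mul] at h1
    have h2 : (q : ℝ) ≤ 4 * K := by exact_mod_cast hqK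
    have h3 : |(h r : ℝ)| ≤ B := by
      have h4 : |(h r : ℝ)| * (4 * K) ≤ (4 * K) * B := h1.trans (mul_le_mul_of_nonneg_right h2 hB0.le)
      rw [mul_comm (4 * (K : ℝ)) B] at h4
      exact le_of_mul_le_mul_right h4 (by positivity)
    rw [Finset.mem_Icc]
    have h5 : |h r| ≤ (B : ℤ) := by exact_mod_cast h3
    exact abs_le.1 h5
  have hsplit : ∑ r ∈ Icc 1 R, EE t (Q r) |Q r * ((a : ℝ) / q + (r : ℝ) / (q * B)) - A r| ^ 2 =
      ∑ r ∈ (Icc 1 R).filter (fun r => h r = 0),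
        EE t (Q r) |Q r * ((a : ℝ) / q + (r : ℝ) / (q * B)) - A r| ^ 2 +
      ∑ r ∈ (Icc 1 R).filter (fun r => ¬ h r = 0),
        EE t (Q r) |Q r * ((a : ℝ) / q + (r : ℝ) / (q * B)) - A r| ^ 2 :=
    (Finset.sum_filter_add_sum_filter_not _ _ _).symm
  have hzero : ∑ r ∈ (Icc 1 R).filter (fun r => h r = 0),
        EE t (Q r) |Q r * ((a : ℝ) / q + (r : ℝ) / (q * B)) - A r| ^ 2 ≤
      T * (2 * (t : ℝ) ^ 2 * ((R : ℝ) / B) ^ 2) := by
    have h1 : ∑ r ∈ (Icc 1 R).filter (fun r => h r = 0),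
        EE t (Q r) |Q r * ((a : ℝ) / q + (r : ℝ) / (q * B)) - A r| ^ 2 ≤
        ∑ r ∈ (Icc 1 R).filter (fun r => h r = 0),
          (fun v : ℕ => (t : ℝ) ^ 2 * ((R : ℝ) / v) ^ 2) (Q r * r) := by
      refine Finset.sum_le_sum fun r hr => ?_
      rw [Finset.mem_filter] at hr
      have h2 := (hQ r hr.1).1
      have hr1 := Finset.mem_Icc.1 hr.1
      have h3 : (0 : ℝ) < Q r := by exact_mod_cast h2
      have h4 : (0 : ℝ) < r := by exact_mod_cast hr1.1
      have h5 : (r : ℝ) ≤ R := by exact_mod_cast hr1.2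
      rw [hδ, hr.2]
      simp only [Int.cast_zero, abs_zero, zero_div, EE, if_true]
      rw [← mul_pow]
      refine pow_le_pow_left₀ (by positivity) ?_ 2
      rw [div_eq_mul_one_div]
      refine mul_le_mul_of_nonneg_left ?_ (Nat.cast_nonneg _)
      push_cast
      rw [div_le_div_iff₀ h3 (mul_pos h3 h4), one_mul, mul_comm]
      exact mul_le_mul_of_nonneg_right h5 h3.le
    refine h1.trans ?_
    refine (t1c_group _ Q V (fun v => B ∣ v) (fun v : ℕ => (t : ℝ) ^ 2 * ((R : ℝ) / v) ^ 2) T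
      (fun v => by positivity) ?_ hT).trans ?_
    · intro r hr
      rw [Finset.mem_filter] at hr
      refine ⟨hmem r hr.1, ?_⟩
      have h2 := hcong r
      rw [hr.2, sub_zero] at h2
      exact_mod_cast h2
    · refine mul_le_mul_of_nonneg_left ?_ hT0
      rw [← Finset.mul_sum]
      have h2 := t1c_zero B V R hB
      calc (t : ℝ) ^ 2 * ∑ v ∈ (Icc 1 V).filter (fun v : ℕ => B ∣ v), ((R : ℝ) / v) ^ 2
          ≤ (t : ℝ) ^ 2 * (2 * ((R : ℝ) / B) ^ 2) := mul_le_mul_of_nonneg_left h2 (by positivity)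
        _ = 2 * (t : ℝ) ^ 2 * ((R : ℝ) / B) ^ 2 := by ring
  have hnon : ∑ r ∈ (Icc 1 R).filter (fun r => ¬ h r = 0),
        EE t (Q r) |Q r * ((a : ℝ) / q + (r : ℝ) / (q * B)) - A r| ^ 2 ≤
      T * (t * q * B * (1 + Real.log B) * (2 + Real.log (V : ℕ))) := by
    have h1 : ∑ r ∈ (Icc 1 R).filter (fun r => ¬ h r = 0),
        EE t (Q r) |Q r * ((a : ℝ) / q + (r : ℝ) / (q * B)) - A r| ^ 2 ≤
        ∑ r ∈ (Icc 1 R).filter (fun r => ¬ h r = 0),
          (t * q * B / 2) * (1 / |(h r : ℝ)|) * min 1 ((R : ℝ) / (Q r * r : ℕ)) := by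
      refine Finset.sum_le_sum fun r hr => ?_
      rw [Finset.mem_filter] at hr
      have h2 := (hQ r hr.1).1
      have hr1 := Finset.mem_Icc.1 hr.1
      have h3 : (0 : ℝ) < Q r := by exact_mod_cast h2
      have h3' : (1 : ℝ) ≤ Q r := by exact_mod_cast h2
      have h4 : (0 : ℝ) < r := by exact_mod_cast hr1.1
      have h5 : (r : ℝ) ≤ R := by exact_mod_cast hr1.2
      have h6 : (0 : ℝ) < |(h r : ℝ)| := abs_pos.2 (by exact_mod_cast hr.2)
      have h7 : 1 / (Q r : ℝ) ≤ min 1 ((R : ℝ) / (Q r * r : ℕ)) := by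
        refine le_min ?_ ?_
        · rw [div_le_one h3]
          exact h3'
        · push_cast
          rw [div_le_div_iff₀ h3 (mul_pos h3 h4), one_mul, mul_comm]
          exact mul_le_mul_of_nonneg_right h5 h3.le
      rw [hδ]
      have hne : |(h r : ℝ)| / (q * B) ≠ 0 := by positivity
      simp only [EE, if_neg hne]
      have h8 : min ((t : ℝ) / Q r) (1 / (2 * (|(h r : ℝ)| / (q * B)))) ^ 2 ≤
          ((t : ℝ) / Q r) * (1 / (2 * (|(h r : ℝ)| / (q * B)))) := by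
        rw [sq]
        exact mul_le_mul (min_le_left _ _) (min_le_right _ _) (by positivity) (by positivity)
      refine h8.trans ?_
      have h9 : ((t : ℝ) / Q r) * (1 / (2 * (|(h r : ℝ)| / (q * B)))) =
          (t * q * B / 2) * (1 / |(h r : ℝ)|) * (1 / Q r) := by
        field_simp
      rw [h9]
      exact mul_le_mul_of_nonneg_left h7 (by positivity)
    refine h1.trans ?_
    have h2 : ∑ r ∈ (Icc 1 R).filter (fun r => ¬ h r = 0),
          (t * q * B / 2) * (1 / |(h r : ℝ)|) * min 1 ((R : ℝ) / (Q r * r : ℕ)) =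
        ∑ k ∈ (Icc (-(B : ℤ)) B).filter (fun k => k ≠ 0),
          ∑ r ∈ ((Icc 1 R).filter (fun r => ¬ h r = 0)).filter (fun r => h r = k),
          (t * q * B / 2) * (1 / |(h r : ℝ)|) * min 1 ((R : ℝ) / (Q r * r : ℕ)) := by
      rw [Finset.sum_fiberwise_of_maps_to]
      intro r hr
      rw [Finset.mem_filter] at hr ⊢
      exact ⟨hhB r hr.1, hr.2⟩
    rw [h2]
    calc ∑ k ∈ (Icc (-(B : ℤ)) B).filter (fun k => k ≠ 0),
          ∑ r ∈ ((Icc 1 R).filter (fun r => ¬ h r = 0)).filter (fun r => h r = k),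
          (t * q * B / 2) * (1 / |(h r : ℝ)|) * min 1 ((R : ℝ) / (Q r * r : ℕ))
        ≤ ∑ k ∈ (Icc (-(B : ℤ)) B).filter (fun k => k ≠ 0),
            (t * q * B / 2) * (1 / |(k : ℝ)|) * (T * (2 + Real.log V)) := by
          refine Finset.sum_le_sum fun k hk => ?_
          have h3 : ∑ r ∈ ((Icc 1 R).filter (fun r => ¬ h r = 0)).filter (fun r => h r = k),
              (t * q * B / 2) * (1 / |(h r : ℝ)|) * min 1 ((R : ℝ) / (Q r * r : ℕ)) =
              (t * q * B / 2) * (1 / |(k : ℝ)|) *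
                ∑ r ∈ ((Icc 1 R).filter (fun r => ¬ h r = 0)).filter (fun r => h r = k),
                (fun v : ℕ => min 1 ((R : ℝ) / v)) (Q r * r) := by
            rw [Finset.mul_sum]
            refine Finset.sum_congr rfl fun r hr => ?_
            rw [(Finset.mem_filter.1 hr).2]
          rw [h3]
          refine mul_le_mul_of_nonneg_left ?_ (by positivity)
          refine (t1c_group _ Q V (fun v : ℕ => (B : ℤ) ∣ (v : ℤ) - k)
            (fun v : ℕ => min 1 ((R : ℝ) / v)) T (fun v => by positivity) ?_ hT).trans ?_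
          · intro r hr
            rw [Finset.mem_filter, Finset.mem_filter] at hr
            refine ⟨hmem r hr.1.1, ?_⟩
            rw [← hr.2]
            exact hcong r
          · exact mul_le_mul_of_nonneg_left (t1c_class B V R k hB hRB hV) hT0
      _ = (t * q * B / 2) * (T * (2 + Real.log V)) *
            ∑ k ∈ (Icc (-(B : ℤ)) B).filter (fun k => k ≠ 0), 1 / |(k : ℝ)| := by
          rw [Finset.mul_sum]
          refine Finset.sum_congr rfl fun k _ => ?_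
          ring
      _ ≤ (t * q * B / 2) * (T * (2 + Real.log V)) * (2 * (1 + Real.log B)) := by
          refine mul_le_mul_of_nonneg_left (t1c_harm B) ?_
          have hlog : 0 ≤ Real.log V := Real.log_natCast_nonneg V
          positivity
      _ = T * (t * q * B * (1 + Real.log B) * (2 + Real.log (V : ℕ))) := by ring
  rw [hsplit, mul_add]
  linarith

end Pool.Agent.Lib.MP_d9bc60_nt.VA
end
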