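import Pool.Agent.Lib.MP_d9bc60_nt.VA.T1C

section
/-! Row va-T1D (about 110 lines): type I sums in mean square over the frequencies. -/

set_option autoImplicit false

namespace Pool.Agent.Lib.MP_d9bc60_nt.VA

open Finset UV

/-- trivial bound for a sum of `e` over an interval of natural numbers -/
theorem t1d_triv (f : ℕ → ℝ) (w m : ℕ) : ‖∑ n ∈ Ioc w m, e (f n)‖ ≤ (m : ℝ) := by
  refine (norm_sum_le _ _).trans ?_
  calc ∑ n ∈ Ioc w m, ‖e (f n)‖ = ∑ _n ∈ Ioc w m, (1 : ℝ) :=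
        Finset.sum_congr rfl fun n _ => norm_e _
    _ = ((m - w : ℕ) : ℝ) := by
        rw [Finset.sum_const, Nat.card_Ioc, nsmul_eq_mul, mul_one]
    _ ≤ (m : ℝ) := by exact_mod_cast Nat.sub_le m w

/-- the sum with weight `log n` over `(w, m]` -/
theorem t1d_log (f : ℕ → ℂ) (w m t : ℕ) (E : ℝ) (hE : 0 ≤ E) (hm : m ≤ t) (ht : 1 ≤ t)
    (h : ∀ t' ≤ m, ‖∑ n ∈ Ioc 0 t', f n‖ ≤ E) :
    ‖∑ n ∈ Ioc w m, ((Real.log n : ℝ) : ℂ) * f n‖ ≤ 4 * (1 + Real.log t) * E := by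
  have hlt : 0 ≤ Real.log (t : ℝ) := Real.log_natCast_nonneg t
  rcases lt_or_ge m w with hw | hw
  · rw [Finset.Ioc_eq_empty (by omega), Finset.sum_empty, norm_zero]
    positivity
  · have hlog : ∀ N ≤ t, Real.log (N : ℝ) ≤ Real.log t := by
      intro N hN
      rcases Nat.eq_zero_or_pos N with h0 | h0
      · rw [h0, Nat.cast_zero, Real.log_zero]
        exact hlt
      · exact Real.log_le_log (by exact_mod_cast h0) (by exact_mod_cast hN)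
    have h1 := abel_log f m E (fun t' ht' => by rw [a6_Icc]; exact h t' ht')
    have h2 := abel_log f w E (fun t' ht' => by rw [a6_Icc]; exact h t' (ht'.trans hw))
    have h3 : ∑ n ∈ Ioc w m, ((Real.log n : ℝ) : ℂ) * f n =
        ∑ n ∈ Icc 1 m, ((Real.log n : ℝ) : ℂ) * f n -
          ∑ n ∈ Icc 1 w, ((Real.log n : ℝ) : ℂ) * f n := by
      rw [a6_Icc, a6_Icc, eq_sub_iff_add_eq, add_comm]
      exact Finset.sum_Ioc_consecutive _ (Nat.zero_le _) hw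
    rw [h3]
    have h4 := hlog m hm
    have h5 := hlog w (hw.trans hm)
    have h6 : 2 * Real.log (m : ℝ) * E ≤ 2 * Real.log (t : ℝ) * E := by gcongr
    have h7 : 2 * Real.log (w : ℝ) * E ≤ 2 * Real.log (t : ℝ) * E := by gcongr
    refine (norm_sub_le _ _).trans ?_
    nlinarith

/-- Proof. `‖∑_{w < n ≤ t/k} e(ck n)‖ ≤ t/k` trivially and `≤ 1/(2 nn(ck))` by `geom_le`; with the weight
`log n`: `abel_log` for `[1, t/k]` and `[1, w]` (if `w ≤ t/k`; otherwise the sum is empty) gives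
`≤ 4 log(t) min(t/k, 1/(2 nn(ck)))` (partial sums over `[1,t']`, `t' ≤ t/k`). -/
theorem t1d_inner (c : ℝ) (w t k : ℕ) (hk : 1 ≤ k) (ht : 1 ≤ t) :
    (‖∑ n ∈ Ioc w (t / k), e (c * k * n)‖ ≤ (t : ℝ) / k ∧
      (0 < nn (c * k) → ‖∑ n ∈ Ioc w (t / k), e (c * k * n)‖ ≤ 1 / (2 * nn (c * k)))) ∧
    (‖∑ n ∈ Ioc w (t / k), ((Real.log n : ℝ) : ℂ) * e (c * k * n)‖ ≤
        4 * (1 + Real.log t) * ((t : ℝ) / k) ∧
      (0 < nn (c * k) → ‖∑ n ∈ Ioc w (t / k), ((Real.log n : ℝ) : ℂ) * e (c * k * n)‖ ≤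
        4 * (1 + Real.log t) * (1 / (2 * nn (c * k))))) := by
  have hm : t / k ≤ t := Nat.div_le_self t k
  refine ⟨⟨?_, fun h0 => geom_le (c * k) w (t / k) h0⟩, ?_, fun h0 => ?_⟩
  · exact (t1d_triv (fun n => c * k * n) w (t / k)).trans Nat.cast_div_le
  · refine t1d_log (fun n => e (c * k * n)) w (t / k) t ((t : ℝ) / k) (by positivity) hm ht ?_
    intro t' ht'
    refine (t1d_triv (fun n => c * k * n) 0 t').trans ?_
    refine le_trans ?_ (Nat.cast_div_le (α := ℝ) (m := t) (n := k))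
    exact_mod_cast ht'
  · refine t1d_log (fun n => e (c * k * n)) w (t / k) t (1 / (2 * nn (c * k))) (by positivity)
      hm ht ?_
    intro t' _
    exact geom_le (c * k) 0 t' h0

theorem t1d_sq (x y z : ℝ) : (x * y + z) ^ 2 ≤ 2 * x ^ 2 * y ^ 2 + 2 * z ^ 2 := by
  have h : 0 ≤ (x * y - z) ^ 2 := sq_nonneg _
  have h2 : (x * y + z) ^ 2 = 2 * x ^ 2 * y ^ 2 + 2 * z ^ 2 - (x * y - z) ^ 2 := by ring
  linarith

theorem t1d_sq2 (M L : ℝ) (hL : 4 ≤ L) : M ^ 2 + (M * L) ^ 2 ≤ 2 * L ^ 2 * M ^ 2 := by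
  have h1 : 0 ≤ (L ^ 2 - 1) * M ^ 2 := by
    refine mul_nonneg ?_ (sq_nonneg M)
    nlinarith
  have h2 : 2 * L ^ 2 * M ^ 2 = M ^ 2 + (M * L) ^ 2 + (L ^ 2 - 1) * M ^ 2 := by ring
  linarith

/-- Proof. For each `r` take `(Q_r, A_r)` from `t1b_point` (`θ = c_r`); with
`F k = ‖∑ e‖` and `F k = ‖∑ log n e‖/(4(1 + log t))` (`t1d_inner`):
each of the two sums over `k` is `≤ 4(1 + log t) ((1 + log K) EE_r + 7K(1 + log(4K)))`. Square
(`(x+y)² ≤ 2x² + 2y²`), sum over `r`, `t1c_ms`. -/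
theorem t1d_ms (a : ℤ) (q B R K t w : ℕ) (T : ℝ) (hq : 1 ≤ q) (hB : 1 ≤ B) (ht : 1 ≤ t)
    (hRB : R ≤ B) (hK : 1 ≤ K) (hqK : q ≤ 4 * K) (hR : 1 ≤ R)
    (hT : ∀ v ∈ Icc 1 (4 * K * R), (v.divisors.card : ℝ) ≤ T) :
    ∑ r ∈ Icc 1 R, ((∑ k ∈ Icc 1 K, ‖∑ n ∈ Ioc w (t / k),
          e (((a : ℝ) / q + (r : ℝ) / (q * B)) * k * n)‖) ^ 2 +
        (∑ k ∈ Icc 1 K, ‖∑ n ∈ Ioc w (t / k), ((Real.log n : ℝ) : ℂ) *
          e (((a : ℝ) / q + (r : ℝ) / (q * B)) * k * n)‖) ^ 2) ≤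
      2 * (4 * (1 + Real.log t)) ^ 2 *
        (2 * (1 + Real.log K) ^ 2 * (T * (t * q * B * (1 + Real.log B) *
            (2 + Real.log (4 * K * R : ℕ)) + 2 * (t : ℝ) ^ 2 * ((R : ℝ) / B) ^ 2)) +
          2 * R * (7 * K * (1 + Real.log (4 * K))) ^ 2) := by
  choose Q A hQ1 hQ2 hQ3 hQ4 using fun r : ℕ =>
    t1b_point ((a : ℝ) / q + (r : ℝ) / (q * B)) K hK
  have hms := t1c_ms a q B R K t T Q A hq hB hRB hK hqK hR hT
    (fun r _ => ⟨hQ1 r, hQ2 r, hQ3 r⟩)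
  have hlt : 0 ≤ Real.log (t : ℝ) := Real.log_natCast_nonneg t
  have hlK : 0 ≤ Real.log (K : ℝ) := Real.log_natCast_nonneg K
  set L : ℝ := 4 * (1 + Real.log t) with hL
  have hL4 : 4 ≤ L := by rw [hL]; linarith
  have hL0 : 0 < L := by linarith
  set D : ℝ := 7 * K * (1 + Real.log (4 * K)) with hD
  have hpt : ∀ r ∈ Icc 1 R, ((∑ k ∈ Icc 1 K, ‖∑ n ∈ Ioc w (t / k),
          e (((a : ℝ) / q + (r : ℝ) / (q * B)) * k * n)‖) ^ 2 +
        (∑ k ∈ Icc 1 K, ‖∑ n ∈ Ioc w (t / k), ((Real.log n : ℝ) : ℂ) *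
          e (((a : ℝ) / q + (r : ℝ) / (q * B)) * k * n)‖) ^ 2) ≤
      2 * L ^ 2 * (2 * (1 + Real.log K) ^ 2 *
        EE t (Q r) |Q r * ((a : ℝ) / q + (r : ℝ) / (q * B)) - A r| ^ 2 + 2 * D ^ 2) := by
    intro r _
    set c : ℝ := (a : ℝ) / q + (r : ℝ) / (q * B) with hc
    set M : ℝ := (1 + Real.log K) * EE t (Q r) |Q r * c - A r| + D with hM
    have h1 : ∑ k ∈ Icc 1 K, ‖∑ n ∈ Ioc w (t / k), e (c * k * n)‖ ≤ M := by
      refine hQ4 r t (fun k => ‖∑ n ∈ Ioc w (t / k), e (c * k * n)‖) ?_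
      intro k hk
      have hk1 : 1 ≤ k := (Finset.mem_Icc.mp hk).1
      have := (t1d_inner c w t k hk1 ht).1
      exact ⟨norm_nonneg _, this.1, this.2⟩
    have h2 : ∑ k ∈ Icc 1 K, ‖∑ n ∈ Ioc w (t / k), ((Real.log n : ℝ) : ℂ) * e (c * k * n)‖ / L
        ≤ M := by
      refine hQ4 r t (fun k => ‖∑ n ∈ Ioc w (t / k), ((Real.log n : ℝ) : ℂ) *
        e (c * k * n)‖ / L) ?_
      intro k hk
      have hk1 : 1 ≤ k := (Finset.mem_Icc.mp hk).1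
      have := (t1d_inner c w t k hk1 ht).2
      refine ⟨by positivity, ?_, fun h0 => ?_⟩
      · rw [div_le_iff₀ hL0]
        exact this.1.trans (le_of_eq (mul_comm _ _))
      · rw [div_le_iff₀ hL0]
        exact (this.2 h0).trans (le_of_eq (mul_comm _ _))
    rw [← Finset.sum_div, div_le_iff₀ hL0] at h2
    have h10 : 0 ≤ ∑ k ∈ Icc 1 K, ‖∑ n ∈ Ioc w (t / k), e (c * k * n)‖ :=
      Finset.sum_nonneg fun _ _ => norm_nonneg _
    have h20 : 0 ≤ ∑ k ∈ Icc 1 K, ‖∑ n ∈ Ioc w (t / k),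
        ((Real.log n : ℝ) : ℂ) * e (c * k * n)‖ :=
      Finset.sum_nonneg fun _ _ => norm_nonneg _
    have hM0 : 0 ≤ M := h10.trans h1
    have h3 := pow_le_pow_left₀ h10 h1 2
    have h4 := pow_le_pow_left₀ h20 h2 2
    have h5 : M ^ 2 ≤ 2 * (1 + Real.log K) ^ 2 * EE t (Q r) |Q r * c - A r| ^ 2 + 2 * D ^ 2 :=
      t1d_sq _ _ _
    have h6 : M ^ 2 + (M * L) ^ 2 ≤ 2 * L ^ 2 * M ^ 2 := t1d_sq2 M L hL4
    calc _ ≤ M ^ 2 + (M * L) ^ 2 := add_le_add h3 h4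
      _ ≤ 2 * L ^ 2 * M ^ 2 := h6
      _ ≤ _ := mul_le_mul_of_nonneg_left h5 (by positivity)
  refine (Finset.sum_le_sum hpt).trans ?_
  rw [← Finset.mul_sum, Finset.sum_add_distrib, ← Finset.mul_sum, Finset.sum_const,
    Nat.card_Icc, Nat.add_sub_cancel, nsmul_eq_mul]
  refine mul_le_mul_of_nonneg_left ?_ (by positivity)
  have h7 := mul_le_mul_of_nonneg_left hms
    (show 0 ≤ 2 * (1 + Real.log (K : ℝ)) ^ 2 by positivity)
  refine (add_le_add h7 le_rfl).trans (le_of_eq ?_)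
  ring

end Pool.Agent.Lib.MP_d9bc60_nt.VA
end
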