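import Pool.Agent.Lib.MP_d9bc60_nt.UV.PSecond

section
/-! Row va-T2A (about 80 lines): short sums by the large sieve. -/

set_option autoImplicit false

namespace Pool.Agent.Lib.MP_d9bc60_nt.VA

open Finset UV

private theorem t2a_term (a : ℤ) (q B R n n' : ℕ) (hq : 1 ≤ q) (hB : 1 ≤ B) :
    ‖∑ r ∈ Icc 1 R, e (((a : ℝ) / q + (r : ℝ) / (q * B)) * n) *
        (starRingEnd ℂ) (e (((a : ℝ) / q + (r : ℝ) / (q * B)) * n'))‖ ≤
      1 / 2 * (if ((q * B : ℕ) : ℤ) ∣ ((n : ℤ) - (n' : ℤ)) then (2 * R : ℝ)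
        else 1 / nn ((((n : ℤ) : ℝ) - n') / ((q * B : ℕ) : ℝ))) := by
  have hq' : (q : ℝ) ≠ 0 := by
    have : 0 < q := hq
    positivity
  have hB' : (B : ℝ) ≠ 0 := by
    have : 0 < B := hB
    positivity
  have h1 : ∀ r : ℕ, e (((a : ℝ) / q + (r : ℝ) / (q * B)) * n) *
        (starRingEnd ℂ) (e (((a : ℝ) / q + (r : ℝ) / (q * B)) * n')) =
      e ((a : ℝ) / q * ((n : ℝ) - n')) * e ((((n : ℤ) : ℝ) - n') / ((q * B : ℕ) : ℝ) * r) := by
    intro r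
    rw [← e_sub, ← e_add]
    congr 1
    push_cast
    field_simp
  simp_rw [h1]
  rw [← Finset.mul_sum, norm_mul, norm_e, one_mul]
  split_ifs with hd
  · refine (norm_sum_le _ _).trans ?_
    simp only [norm_e, Finset.sum_const, Nat.card_Icc, nsmul_eq_mul]
    push_cast
    simp
  · have hpos : 0 < nn ((((n : ℤ) : ℝ) - n') / ((q * B : ℕ) : ℝ)) := by
      have := s2_nn_pos (q * B) (Nat.mul_pos hq hB) ((n : ℤ) - (n' : ℤ)) hd
      push_cast at this ⊢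
      exact this
    have h2 := geom_le ((((n : ℤ) : ℝ) - n') / ((q * B : ℕ) : ℝ)) 0 R hpos
    have h3 : Icc 1 R = Ioc 0 R := by
      ext x
      simp only [Finset.mem_Ioc, Finset.mem_Icc]
      omega
    rw [h3]
    refine h2.trans (le_of_eq ?_)
    field_simp

/-- Proof. Open the square: `∑_{n,n'} s_n conj(s_n') e((a/q)(n-n')) ∑_r e(r(n-n')/(qB))`; the inner sum over `r`
is `≤ R` if `qB ∣ n - n'` and `≤ 1/(2 nn((n-n')/(qB)))` otherwise (`geom_le`); for fixed `n` sum over `n'` with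
`spaced_sum (q*B) N` (with `M = 2R` there, and the factor `1/2` outside). -/
theorem t2a_short (a : ℤ) (q B R N : ℕ) (s : ℕ → ℂ) (S : ℝ) (hq : 1 ≤ q) (hB : 1 ≤ B)
    (hs : ∀ n ∈ Icc 1 N, ‖s n‖ ≤ S) :
    ∑ r ∈ Icc 1 R, ‖∑ n ∈ Icc 1 N, s n * e (((a : ℝ) / q + (r : ℝ) / (q * B)) * n)‖ ^ 2 ≤
      S ^ 2 * N * (((N : ℝ) / (q * B) + 1) * (R + q * B * (1 + Real.log (q * B)))) := by
  rcases Nat.eq_zero_or_pos N with hN | hN
  · subst hN
    simp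
  have hS : 0 ≤ S := (norm_nonneg _).trans (hs 1 (Finset.mem_Icc.2 ⟨le_rfl, hN⟩))
  set K : ℕ → ℕ → ℝ := fun n n' =>
    (if ((q * B : ℕ) : ℤ) ∣ ((n : ℤ) - (n' : ℤ)) then (2 * R : ℝ)
        else 1 / nn ((((n : ℤ) : ℝ) - n') / ((q * B : ℕ) : ℝ))) with hK
  have hK0 : ∀ n n', 0 ≤ K n n' := by
    intro n n'
    simp only [hK]
    split_ifs
    · positivity
    · exact div_nonneg zero_le_one (nn_nonneg _)
  have hrow : ∀ n : ℕ, ∑ n' ∈ Icc 1 N, K n n' ≤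
      ((N : ℝ) / ((q * B : ℕ) : ℝ) + 1) * (2 * R + 2 * ((q * B : ℕ) : ℝ) *
        (1 + Real.log ((q * B : ℕ) : ℝ))) := by
    intro n
    exact spaced_sum (q * B) N (Nat.mul_pos hq hB) (n : ℤ) (2 * R) (by positivity)
  refine (s1_dual (Icc 1 N) (Icc 1 R) s
    (fun n r => e (((a : ℝ) / q + (r : ℝ) / (q * B)) * n))).trans ?_
  calc ∑ p ∈ Icc 1 N, ∑ p' ∈ Icc 1 N, ‖s p‖ * ‖s p'‖ *
        ‖∑ m ∈ Icc 1 R, e (((a : ℝ) / q + (m : ℝ) / (q * B)) * p) *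
          (starRingEnd ℂ) (e (((a : ℝ) / q + (m : ℝ) / (q * B)) * p'))‖
      ≤ ∑ p ∈ Icc 1 N, ∑ p' ∈ Icc 1 N, S ^ 2 * (1 / 2 * K p p') := by
        refine Finset.sum_le_sum fun p hp => Finset.sum_le_sum fun p' hp' => ?_
        rw [sq]
        exact mul_le_mul (mul_le_mul (hs p hp) (hs p' hp') (norm_nonneg _) hS)
          (t2a_term a q B R p p' hq hB) (norm_nonneg _) (mul_nonneg hS hS)
    _ = ∑ p ∈ Icc 1 N, S ^ 2 * (1 / 2 * ∑ p' ∈ Icc 1 N, K p p') := by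
        refine Finset.sum_congr rfl fun p _ => ?_
        rw [Finset.mul_sum, Finset.mul_sum]
    _ ≤ ∑ p ∈ Icc 1 N, S ^ 2 * (1 / 2 * (((N : ℝ) / ((q * B : ℕ) : ℝ) + 1) *
          (2 * R + 2 * ((q * B : ℕ) : ℝ) * (1 + Real.log ((q * B : ℕ) : ℝ))))) := by
        refine Finset.sum_le_sum fun p _ => ?_
        have := hrow p
        gcongr
    _ = S ^ 2 * N * (((N : ℝ) / (q * B) + 1) * (R + q * B * (1 + Real.log (q * B)))) := by
        rw [Finset.sum_const, Nat.card_Icc, nsmul_eq_mul, Nat.add_sub_cancel]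
        push_cast
        ring

end Pool.Agent.Lib.MP_d9bc60_nt.VA
end
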