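import Pool.Agent.Lib.MP_d9bc60_nt.UV.PSecond

section
/-! Row va-T2B (about 110 lines): type II sums in mean square, one variable in `(y, z]`. -/

set_option autoImplicit false

namespace Pool.Agent.Lib.MP_d9bc60_nt.VA

open Finset UV

/-- One dyadic piece. Proof. `s4_swap`, `bilin` (there `a := g`, `b := ν`, `M := K'`, `K := M'`) with
`G = T (2 M' R/B + 1)(K' + qB(1 + log B))` from `G_bound`. -/
theorem t2b_piece (a : ℤ) (q B R M K t : ℕ) (ν g : ℕ → ℂ) (S T : ℝ) (hq : 1 ≤ q) (hB : 1 ≤ B)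
    (hS : 0 ≤ S) (hT0 : 0 ≤ T)
    (hν : ∀ u ∈ Ioc M (2 * M), ‖ν u‖ ≤ 1) (hg : ∀ v ∈ Ioc K (2 * K), ‖g v‖ ≤ S)
    (hT : ∀ v ∈ Icc 1 (2 * M * R), (v.divisors.card : ℝ) ≤ T) :
    ∑ r ∈ Icc 1 R, ‖TII ν g (fun n => e (((a : ℝ) / q + (r : ℝ) / (q * B)) * n)) M K t‖ ^ 2 ≤
      S ^ 2 * M * K * (T * (2 * (M : ℝ) * R / B + 1) * (K + q * B * (1 + Real.log B))) := by
  have hB1 : (1 : ℝ) ≤ B := by exact_mod_cast hB
  have hlogB : 0 ≤ Real.log B := Real.log_nonneg hB1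
  have hG0 : 0 ≤ T * (2 * (M : ℝ) * R / B + 1) * (K + q * B * (1 + Real.log B)) := by positivity
  have hb := bilin (Icc 1 R) (fun r : ℕ => (a : ℝ) / q + (r : ℝ) / (q * B)) g ν K M t S 1
    (T * (2 * (M : ℝ) * R / B + 1) * (K + q * B * (1 + Real.log B))) hg hν hS zero_le_one hG0
    (fun r hr k hk => G_bound a q B K M R t k r T hq hB hT hk hr)
  have h1 : ∀ r : ℕ, TII ν g (fun n => e (((a : ℝ) / q + (r : ℝ) / (q * B)) * n)) M K t =
      TII g ν (fun n => e (((a : ℝ) / q + (r : ℝ) / (q * B)) * n)) K M t :=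
    fun r => s4_swap _ _ _ _ _ _
  simp only [h1]
  refine hb.trans (le_of_eq ?_)
  ring

private theorem t2b_num {S T M K R B q L t z y : ℝ} (hT : 0 ≤ T) (hM : 0 < M) (hK : 0 ≤ K)
    (hR : 0 ≤ R) (hB : 0 < B) (hq : 0 ≤ q) (hL : 0 ≤ L) (hy : 0 < y) (hyM : y ≤ M) (hMz : M ≤ z)
    (hMK : M * K ≤ t) :
    S ^ 2 * M * K * (T * (2 * M * R / B + 1) * (K + q * B * (1 + L))) ≤
      S ^ 2 * T * (2 * t ^ 2 * R / B + 2 * t * z * R * (q * (1 + L)) + t ^ 2 / y +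
        t * (q * B * (1 + L))) := by
  have hMK0 : 0 ≤ M * K := by positivity
  have ht0 : 0 ≤ t := hMK0.trans hMK
  have hz0 : 0 ≤ z := hM.le.trans hMz
  have hsq : (M * K) ^ 2 ≤ t ^ 2 := pow_le_pow_left₀ hMK0 hMK 2
  have e1 : S ^ 2 * M * K * (T * (2 * M * R / B + 1) * (K + q * B * (1 + L))) =
      S ^ 2 * T * (2 * (M * K) ^ 2 * R / B + 2 * (M * K) * M * R * (q * (1 + L)) +
        (M * K) ^ 2 / M + (M * K) * (q * B * (1 + L))) := by
    field_simp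
    ring
  rw [e1]
  refine mul_le_mul_of_nonneg_left ?_ (by positivity)
  refine add_le_add (add_le_add (add_le_add ?_ ?_) ?_) ?_
  · gcongr
  · gcongr
  · exact div_le_div₀ (by positivity) hsq hy hyM
  · gcongr

/-- Proof. `dyadic_split` (with `a := ν`, `b := g`, `V := y`, `U := 1`, `N := t`), `J = Nat.log 2 t + 1`; the
pieces `M = 2^j y`, `K = 2^i`: if `M ≥ z` then `ν = 0` on `(M, 2M]` and the piece is `0`; if `MK > t` it is
`0` (`s4_empty`); otherwise `t2b_piece` and, as `M ≤ z`, `M ≥ y`, `MK ≤ t`: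
`MK (2MR/B + 1)(K + W) = 2 (MK)² R/B + 2 MK·M R W/B + (MK)²/M + MK W ≤
2t²R/B + 2 t z R W/B + t²/y + t W`, `W = qB(1 + log B)`. Cauchy-Schwarz over the `J²` pieces (`s5_cs`). -/
theorem t2b_sum (a : ℤ) (q B R y z t : ℕ) (ν g : ℕ → ℂ) (S T : ℝ) (hq : 1 ≤ q) (hB : 1 ≤ B)
    (hy : 1 ≤ y) (ht : 1 ≤ t) (hS : 0 ≤ S) (hT0 : 0 ≤ T) (hν : ∀ u, ‖ν u‖ ≤ 1)
    (hνz : ∀ u, z < u → ν u = 0) (hg : ∀ v ∈ Icc 1 (2 * t), ‖g v‖ ≤ S)
    (hT : ∀ v ∈ Icc 1 (2 * z * R), (v.divisors.card : ℝ) ≤ T) :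
    ∑ r ∈ Icc 1 R, ‖∑ u ∈ Ioc y t, ∑ v ∈ Ioc 1 (t / u), ν u * g v *
        e (((a : ℝ) / q + (r : ℝ) / (q * B)) * ((u * v : ℕ) : ℝ))‖ ^ 2 ≤
      ((Nat.log 2 t + 1 : ℕ) : ℝ) ^ 4 * (S ^ 2 * T * (2 * (t : ℝ) ^ 2 * R / B +
        2 * t * z * R * (q * (1 + Real.log B)) + (t : ℝ) ^ 2 / y + t * (q * B * (1 + Real.log B)))) := by
  have hB1 : (1 : ℝ) ≤ B := by exact_mod_cast hB
  have hB0 : (0 : ℝ) < B := by linarith
  have hlogB : 0 ≤ Real.log B := Real.log_nonneg hB1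
  have hy0 : (0 : ℝ) < y := by exact_mod_cast hy
  have ht0 : (0 : ℝ) < t := by exact_mod_cast ht
  set J : ℕ := Nat.log 2 t + 1 with hJ
  have hJt : t < 2 ^ J := Nat.lt_pow_succ_log_self (by norm_num) t
  set P : ℝ := S ^ 2 * T * (2 * (t : ℝ) ^ 2 * R / B +
        2 * t * z * R * (q * (1 + Real.log B)) + (t : ℝ) ^ 2 / y +
        t * (q * B * (1 + Real.log B))) with hP
  have hP0 : 0 ≤ P := by positivity
  set F : ℕ → ℕ → ℕ → ℂ := fun r j i =>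
    TII ν g (fun n => e (((a : ℝ) / q + (r : ℝ) / (q * B)) * n)) (2 ^ j * y) (2 ^ i * 1) t with hF
  have hpiece : ∀ j ∈ range J, ∀ i ∈ range J, ∑ r ∈ Icc 1 R, ‖F r j i‖ ^ 2 ≤ P := by
    intro j _ i _
    set M : ℕ := 2 ^ j * y with hM
    set K : ℕ := 2 ^ i * 1 with hK
    have hyM : y ≤ M := Nat.le_mul_of_pos_left _ (by positivity)
    have hM0 : 0 < M := lt_of_lt_of_le hy hyM
    by_cases h1 : z ≤ M
    · have h2 : ∀ r, F r j i = 0 := by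
        intro r
        rw [hF]
        simp only [TII]
        refine sum_eq_zero fun m hm => sum_eq_zero fun k _ => ?_
        rw [hνz m (lt_of_le_of_lt h1 (mem_Ioc.mp hm).1), zero_mul, zero_mul]
      simp only [h2]
      simpa using hP0
    · push Not at h1
      by_cases h3 : t < M * K
      · have h2 : ∀ r, F r j i = 0 := fun r => s4_empty _ _ _ _ _ _ h3
        simp only [h2]
        simpa using hP0
      · push Not at h3
        have hKt : K ≤ t := (Nat.le_mul_of_pos_left _ hM0).trans h3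
        refine (t2b_piece a q B R M K t ν g S T hq hB hS hT0 (fun u _ => hν u)
          (fun v hv => hg v ?_) (fun v hv => hT v ?_)).trans ?_
        · rw [mem_Ioc] at hv
          rw [mem_Icc]
          omega
        · rw [mem_Icc] at hv ⊢
          refine ⟨hv.1, hv.2.trans ?_⟩
          exact Nat.mul_le_mul_right _ (Nat.mul_le_mul_left _ h1.le)
        · have h4 : ((M : ℕ) : ℝ) * (K : ℕ) ≤ (t : ℝ) := by exact_mod_cast h3
          exact t2b_num hT0 (by exact_mod_cast hM0) (Nat.cast_nonneg _) (Nat.cast_nonneg _) hB0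
            (Nat.cast_nonneg _) hlogB hy0 (by exact_mod_cast hyM) (by exact_mod_cast h1.le) h4
  have hpt : ∀ r ∈ Icc 1 R, ‖∑ u ∈ Ioc y t, ∑ v ∈ Ioc 1 (t / u), ν u * g v *
        e (((a : ℝ) / q + (r : ℝ) / (q * B)) * ((u * v : ℕ) : ℝ))‖ ^ 2 ≤
      (J : ℝ) ^ 2 * ∑ j ∈ range J, ∑ i ∈ range J, ‖F r j i‖ ^ 2 := by
    intro r _
    have h1 := dyadic_split ν g (fun n => e (((a : ℝ) / q + (r : ℝ) / (q * B)) * n)) 1 y t J
      le_rfl hy hJt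
    have h2 : ∑ u ∈ Ioc y t, ∑ v ∈ Ioc 1 (t / u), ν u * g v *
        e (((a : ℝ) / q + (r : ℝ) / (q * B)) * ((u * v : ℕ) : ℝ)) =
        ∑ j ∈ range J, ∑ i ∈ range J, F r j i := h1
    rw [h2]
    exact s5_cs J (F r)
  calc ∑ r ∈ Icc 1 R, ‖∑ u ∈ Ioc y t, ∑ v ∈ Ioc 1 (t / u), ν u * g v *
        e (((a : ℝ) / q + (r : ℝ) / (q * B)) * ((u * v : ℕ) : ℝ))‖ ^ 2
      ≤ ∑ r ∈ Icc 1 R, (J : ℝ) ^ 2 * ∑ j ∈ range J, ∑ i ∈ range J, ‖F r j i‖ ^ 2 :=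
        sum_le_sum hpt
    _ = (J : ℝ) ^ 2 * ∑ j ∈ range J, ∑ i ∈ range J, ∑ r ∈ Icc 1 R, ‖F r j i‖ ^ 2 := by
        rw [← mul_sum, sum_comm]
        congr 1
        refine sum_congr rfl fun j _ => ?_
        rw [sum_comm]
    _ ≤ (J : ℝ) ^ 2 * ∑ j ∈ range J, ∑ i ∈ range J, P := by
        refine mul_le_mul_of_nonneg_left ?_ (by positivity)
        exact sum_le_sum fun j hj => sum_le_sum fun i hi => hpiece j hj i hi
    _ = (J : ℝ) ^ 4 * P := by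
        simp only [sum_const, card_range, nsmul_eq_mul]
        ring

end Pool.Agent.Lib.MP_d9bc60_nt.VA
end
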