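import Pool.Agent.Lib.MP_d9bc60_nt.UV.PArcs

section
/-! Row va-Arcs: where `S_f` is large, for a general `P`. -/

set_option autoImplicit false

namespace Pool.Agent.Lib.MP_d9bc60_nt.VA

open Finset UV

/-- Proof. `min (√X) (X/|b|) ≥ X^(1/9)`, and `(log X)^(A₀+k) ≤ X^(1/9-1/10)` for large `X`. -/
theorem PP2_bounds (ε : ℝ) (hε : 0 < ε) (A₀ k : ℕ) : ∃ X₀ : ℕ, ∀ X : ℕ, X₀ ≤ X → ∀ b : ℤ, b ≠ 0 →
    |(b : ℝ)| ≤ (X : ℝ) ^ (8 / 9 - ε) → ∀ P : ℕ,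
    min (Real.sqrt X) (X / |(b : ℝ)|) ≤ P * Real.log X ^ A₀ →
    (X : ℝ) ^ (1 / 10 : ℝ) * Real.log X ^ k ≤ P := by
  obtain ⟨x₀, hx₀⟩ := Filter.eventually_atTop.1
    ((k1_ev_log (A₀ + k) (1 / 90) 1 (by norm_num)).and
      ((Real.tendsto_log_atTop.eventually_ge_atTop 1).and (Filter.eventually_ge_atTop 1)))
  refine ⟨⌈x₀⌉₊, ?_⟩
  intro X hX b hb hbX P hP
  have hXx : x₀ ≤ (X : ℝ) := (Nat.le_ceil x₀).trans (by exact_mod_cast hX)
  obtain ⟨e1, hL1, hX1⟩ := hx₀ X hXx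
  have hX0 : (0 : ℝ) < (X : ℝ) := by linarith
  have hb1 : (1 : ℝ) ≤ |(b : ℝ)| := by
    have : (1 : ℤ) ≤ |b| := Int.one_le_abs hb
    exact_mod_cast this
  have hb0 : (0 : ℝ) < |(b : ℝ)| := by linarith
  set L : ℝ := Real.log X with hL
  have hL0 : 0 < L := by linarith
  have h19 : (X : ℝ) ^ (1 / 9 : ℝ) ≤ min (Real.sqrt X) (X / |(b : ℝ)|) := by
    refine le_min ?_ ?_
    · rw [Real.sqrt_eq_rpow]
      exact Real.rpow_le_rpow_of_exponent_le hX1 (by norm_num)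
    · rw [le_div_iff₀ hb0]
      have h1 : |(b : ℝ)| ≤ (X : ℝ) ^ (8 / 9 : ℝ) :=
        hbX.trans (Real.rpow_le_rpow_of_exponent_le hX1 (by linarith))
      calc (X : ℝ) ^ (1 / 9 : ℝ) * |(b : ℝ)| ≤ (X : ℝ) ^ (1 / 9 : ℝ) * (X : ℝ) ^ (8 / 9 : ℝ) :=
            mul_le_mul_of_nonneg_left h1 (by positivity)
        _ = (X : ℝ) ^ (1 : ℝ) := by rw [← Real.rpow_add hX0]; norm_num
        _ = X := Real.rpow_one _
  have h2 : (X : ℝ) ^ (1 / 10 : ℝ) * L ^ (A₀ + k) ≤ (X : ℝ) ^ (1 / 9 : ℝ) := by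
    calc (X : ℝ) ^ (1 / 10 : ℝ) * L ^ (A₀ + k) ≤ (X : ℝ) ^ (1 / 10 : ℝ) * (X : ℝ) ^ (1 / 90 : ℝ) := by
          refine mul_le_mul_of_nonneg_left ?_ (by positivity)
          linarith only [e1]
      _ = (X : ℝ) ^ (1 / 9 : ℝ) := by rw [← Real.rpow_add hX0]; norm_num
  have h3 : (X : ℝ) ^ (1 / 10 : ℝ) * L ^ k * L ^ A₀ ≤ P * L ^ A₀ := by
    calc (X : ℝ) ^ (1 / 10 : ℝ) * L ^ k * L ^ A₀ = (X : ℝ) ^ (1 / 10 : ℝ) * L ^ (A₀ + k) := by
          rw [pow_add]; ring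
      _ ≤ P * L ^ A₀ := h2.trans (h19.trans hP)
  exact le_of_mul_le_mul_right h3 (by positivity)

/-- Proof. As `UV.arcs_class` (which is the case `P = PP b X`, `5/6` in place of `8/9`). -/
theorem arcs_class2 (ε : ℝ) (hε : 0 < ε) (A A₀ : ℕ) : ∃ (C X₀ : ℕ) (η : ℝ), 0 < η ∧ η ≤ 1 / 9 ∧
    ∀ X : ℕ, X₀ ≤ X → ∀ b : ℤ, b ≠ 0 → |(b : ℝ)| ≤ (X : ℝ) ^ (8 / 9 - ε) →
    ∀ P : ℕ, (P : ℝ) ≤ Real.sqrt X → min (Real.sqrt X) (X / |(b : ℝ)|) ≤ P * Real.log X ^ A₀ →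
    ∀ α : ℝ, 0 ≤ α → α ≤ 1 → (P : ℝ) / Real.log X ^ A ≤ ‖Sf b P α‖ →
    ∃ (q : ℕ) (a r : ℤ), 1 ≤ q ∧ (q : ℝ) ≤ Real.log X ^ C ∧ |(a : ℝ)| ≤ 2 * q ∧
      |(r : ℝ)| ≤ (X : ℝ) ^ (2 / 3 - η) ∧ |(r : ℝ)| ≤ |(b : ℝ)| * (X : ℝ) ^ (-η) ∧
      |α - ((a : ℝ) / q + (r : ℝ) / (q * b))| ≤ Real.log X ^ C / X := by
  obtain ⟨C₁, P₀, hvq⟩ := vq (A + 1)
  obtain ⟨X₁, hPP⟩ := PP2_bounds ε hε A₀ 0
  set η : ℝ := min ε (1 / 9) with hη
  have hη0 : 0 < η := lt_min hε (by norm_num)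
  have hη1 : η ≤ 1 / 9 := min_le_right _ _
  have hηε : η ≤ ε := min_le_left _ _
  -- large `X`
  have hev : ∀ᶠ x : ℝ in Filter.atTop, (2 * Real.log x ^ (C₁ + 2 * A₀) ≤ x ^ (2 * ε)) ∧
      (2 * Real.log x ^ (C₁ + 2 * A₀) ≤ x ^ (7 / 72 : ℝ)) ∧
      (60 * Real.log x ^ (C₁ + 2 * A₀) ≤ x ^ (1 / 10 : ℝ)) ∧
      25 ≤ Real.log x ∧ 10 ^ (A + 1) ≤ Real.log x ∧ ((P₀ : ℝ) + 1) ^ 10 ≤ x ∧ 1 ≤ x := by
    refine (k1_ev_log (C₁ + 2 * A₀) (2 * ε) 2 (by linarith)).and ?_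
    refine (k1_ev_log (C₁ + 2 * A₀) (7 / 72) 2 (by norm_num)).and ?_
    refine (k1_ev_log (C₁ + 2 * A₀) (1 / 10) 60 (by norm_num)).and ?_
    refine (Real.tendsto_log_atTop.eventually_ge_atTop _).and ?_
    refine (Real.tendsto_log_atTop.eventually_ge_atTop _).and ?_
    exact (Filter.eventually_ge_atTop _).and (Filter.eventually_ge_atTop _)
  obtain ⟨x₀, hx₀⟩ := Filter.eventually_atTop.1 hev
  refine ⟨C₁ + 2 * A₀, max X₁ ⌈x₀⌉₊, η, hη0, hη1, ?_⟩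
  intro X hX b hb hbX P hPs hPm α hα0 hα1 hS
  have hXx : x₀ ≤ (X : ℝ) := (Nat.le_ceil x₀).trans (by exact_mod_cast (le_max_right _ _).trans hX)
  obtain ⟨e1, e2, e3, hL25, hLA, hP10, hX1⟩ := hx₀ X hXx
  have p1 : (X : ℝ) ^ (1 / 10 : ℝ) ≤ P := by
    have := hPP X ((le_max_left _ _).trans hX) b hb hbX P hPm
    rwa [pow_zero, mul_one] at this
  have hX0 : (0 : ℝ) < (X : ℝ) := by linarith
  set L : ℝ := Real.log X with hL
  have hL0 : 0 < L := by linarith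
  have hL1 : 1 ≤ L := by linarith
  have hb1 : (1 : ℝ) ≤ |(b : ℝ)| := by
    have : (1 : ℤ) ≤ |b| := Int.one_le_abs hb
    exact_mod_cast this
  have hb0 : (0 : ℝ) < |(b : ℝ)| := by linarith
  have hx110 : (1 : ℝ) ≤ (X : ℝ) ^ (1 / 10 : ℝ) := Real.one_le_rpow hX1 (by norm_num)
  have hPr : (0 : ℝ) < P := by linarith
  -- `P ≥ P₀`
  have hPP0 : P₀ ≤ P := by
    have h1 : ((P₀ : ℝ) + 1) ≤ (X : ℝ) ^ (1 / 10 : ℝ) := by
      have h2 : (((P₀ : ℝ) + 1) ^ 10) ^ (1 / 10 : ℝ) ≤ (X : ℝ) ^ (1 / 10 : ℝ) :=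
        Real.rpow_le_rpow (by positivity) hP10 (by norm_num)
      refine le_trans (le_of_eq ?_) h2
      rw [← Real.rpow_natCast, ← Real.rpow_mul (by positivity)]
      norm_num
    have h3 : (P₀ : ℝ) ≤ P := by linarith
    exact_mod_cast h3
  have hlogP : L / 10 ≤ Real.log P := by
    have h1 := Real.log_le_log (by positivity) p1
    rw [Real.log_rpow hX0] at h1
    linarith
  have hsq : Real.sqrt X ≤ X := by
    rw [Real.sqrt_le_left hX0.le, sq]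
    exact le_mul_of_one_le_left hX0.le hX1
  have hPX : (P : ℝ) ≤ X := hPs.trans hsq
  have hlogP2 : Real.log P ≤ L := Real.log_le_log hPr hPX
  have hlogP0 : 0 ≤ Real.log P := by linarith
  have hbound : (P : ℝ) / Real.log P ^ (A + 1) ≤ (P : ℝ) / L ^ A := by
    apply div_le_div_of_nonneg_left hPr.le (by positivity)
    calc L ^ A = L ^ A * 1 := by ring
      _ ≤ L ^ A * (L / 10 ^ (A + 1)) := by
          apply mul_le_mul_of_nonneg_left _ (by positivity)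
          rw [le_div_iff₀ (by positivity)]
          linarith
      _ = (L / 10) ^ (A + 1) := by rw [div_pow, pow_succ]; ring
      _ ≤ Real.log P ^ (A + 1) := pow_le_pow_left₀ (by positivity) hlogP _
  have hconc : Conc C₁ P α (α * b) := by
    apply hvq P hPP0
    rw [← k1_Sf_eq]
    exact hbound.trans hS
  obtain ⟨q, hq1, hq2, hq3, hq4⟩ := hconc
  have hq0 : (0 : ℝ) < q := by exact_mod_cast hq1
  have hqr1 : (1 : ℝ) ≤ q := by exact_mod_cast hq1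
  have hpow : Real.log P ^ C₁ ≤ L ^ C₁ := pow_le_pow_left₀ hlogP0 hlogP2 _
  have hLC0 : 0 < L ^ C₁ := by positivity
  have hLC1 : 1 ≤ L ^ C₁ := one_le_pow₀ hL1
  obtain ⟨a, ha⟩ := nn_exists (q * α)
  obtain ⟨s, hs⟩ := nn_exists (q * (α * b))
  rw [ha] at hq3
  rw [hs] at hq4
  have hq3' : |(q : ℝ) * α - a| ≤ L ^ C₁ / (P : ℝ) ^ 2 :=
    hq3.trans (div_le_div_of_nonneg_right hpow (by positivity))
  have hq4' : |(q : ℝ) * (α * b) - s| ≤ L ^ C₁ / (P : ℝ) :=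
    hq4.trans (div_le_div_of_nonneg_right hpow (by positivity))
  set r : ℤ := s - a * b with hr
  have hid : (q : ℝ) * b * (α - a / q) - r = q * (α * b) - s := by
    rw [hr]; push_cast; field_simp; ring
  have hbne : (b : ℝ) ≠ 0 := by exact_mod_cast hb
  -- `|α - (a/q + r/(qb))| ≤ L^C₁/(P |b|)`
  have hdist : |α - ((a : ℝ) / q + (r : ℝ) / (q * b))| ≤ L ^ C₁ / (P * |(b : ℝ)|) := by
    have h1 : α - ((a : ℝ) / q + (r : ℝ) / (q * b)) = (q * (α * b) - s) / (q * b) := by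
      rw [← hid]; field_simp; ring
    rw [h1, abs_div, abs_mul, abs_of_pos hq0]
    calc |(q : ℝ) * (α * b) - s| / (q * |(b : ℝ)|) ≤ (L ^ C₁ / P) / (1 * |(b : ℝ)|) := by
          apply div_le_div₀ (by positivity) hq4' (by positivity)
          exact mul_le_mul_of_nonneg_right hqr1 hb0.le
      _ = L ^ C₁ / (P * |(b : ℝ)|) := by rw [one_mul, div_div]
  -- bound for `r`
  have hrb : |(r : ℝ)| ≤ |(b : ℝ)| * (L ^ C₁ / (P : ℝ) ^ 2) + L ^ C₁ / P := by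
    have h1 : (r : ℝ) = (b : ℝ) * (q * α - a) - (q * (α * b) - s) := by
      rw [hr]; push_cast; ring
    rw [h1]
    refine (abs_sub _ _).trans ?_
    rw [abs_mul]
    exact add_le_add (mul_le_mul_of_nonneg_left hq3' (abs_nonneg _)) hq4'
  have haq : |(a : ℝ)| ≤ 2 * q := by
    have h1 : |(q : ℝ) * α - a| ≤ 1 / 2 := by rw [← ha]; exact nn_le_half _
    have h2 : |(a : ℝ)| ≤ |(q : ℝ) * α| + |(q : ℝ) * α - a| := by
      have : (a : ℝ) = q * α - (q * α - a) := by ring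
      calc |(a : ℝ)| = |(q : ℝ) * α - (q * α - a)| := by rw [← this]
        _ ≤ _ := abs_sub _ _
    have h3 : |(q : ℝ) * α| ≤ q := by
      rw [abs_of_nonneg (by positivity)]
      exact mul_le_of_le_one_right hq0.le hα1
    linarith
  have hV1 : 1 ≤ L ^ (2 * A₀) := one_le_pow₀ hL1
  have hWV : L ^ C₁ ≤ L ^ (C₁ + 2 * A₀) := pow_le_pow_right₀ hL1 (Nat.le_add_right _ _)
  have hWVe : L ^ (C₁ + 2 * A₀) = L ^ C₁ * L ^ (2 * A₀) := pow_add _ _ _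
  have hVV : L ^ (2 * A₀) = L ^ A₀ * L ^ A₀ := by rw [two_mul, pow_add]
  have hVA : L ^ A₀ ≤ L ^ (2 * A₀) := pow_le_pow_right₀ hL1 (by omega)
  have hV0 : 0 < L ^ A₀ := by positivity
  have hqL : (q : ℝ) ≤ L ^ (C₁ + 2 * A₀) := hq2.trans (hpow.trans hWV)
  have hsmall' : L ^ (C₁ + 2 * A₀) / (P : ℝ) ≤ 1 / 60 := by
    rw [div_le_iff₀ hPr]
    linarith only [e3, p1]
  have hsmall : L ^ C₁ / (P : ℝ) ≤ 1 / 60 :=
    (div_le_div_of_nonneg_right hWV hPr.le).trans hsmall'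
  rcases le_or_gt (Real.sqrt X) |(b : ℝ)| with hcase | hcase
  · -- `|b| ≥ √X`
    have hXb : (X : ℝ) / |(b : ℝ)| ≤ Real.sqrt X := by
      rw [div_le_iff₀ hb0]
      calc (X : ℝ) = Real.sqrt X * Real.sqrt X := (Real.mul_self_sqrt hX0.le).symm
        _ ≤ Real.sqrt X * |(b : ℝ)| := mul_le_mul_of_nonneg_left hcase (Real.sqrt_nonneg _)
    rw [min_eq_right hXb] at hPm
    have hPb : (X : ℝ) ≤ P * |(b : ℝ)| * L ^ A₀ := by
      rw [div_le_iff₀ hb0] at hPm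
      linarith only [hPm]
    have hP2 : (X : ℝ) ^ 2 ≤ ((P : ℝ) * |(b : ℝ)|) ^ 2 * L ^ (2 * A₀) := by
      have h1 := pow_le_pow_left₀ hX0.le hPb 2
      rw [hVV]
      calc (X : ℝ) ^ 2 ≤ (P * |(b : ℝ)| * L ^ A₀) ^ 2 := h1
        _ = ((P : ℝ) * |(b : ℝ)|) ^ 2 * (L ^ A₀ * L ^ A₀) := by ring
    have hWP : L ^ C₁ / (P : ℝ) ^ 2 ≤ L ^ (C₁ + 2 * A₀) * (|(b : ℝ)| ^ 2 / (X : ℝ) ^ 2) := by
      rw [div_le_iff₀ (by positivity), hWVe]
      calc L ^ C₁ = L ^ C₁ / (X : ℝ) ^ 2 * (X : ℝ) ^ 2 := by field_simp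
        _ ≤ L ^ C₁ / (X : ℝ) ^ 2 * (((P : ℝ) * |(b : ℝ)|) ^ 2 * L ^ (2 * A₀)) :=
            mul_le_mul_of_nonneg_left hP2 (by positivity)
        _ = L ^ C₁ * L ^ (2 * A₀) * (|(b : ℝ)| ^ 2 / (X : ℝ) ^ 2) * (P : ℝ) ^ 2 := by ring
    refine ⟨q, a, r, hq1, hqL, haq, ?_, ?_, ?_⟩
    · by_cases hr0 : r = 0
      · rw [hr0]; simp; positivity
      · have hr1 : (1 : ℝ) ≤ |(r : ℝ)| := by
          have : (1 : ℤ) ≤ |r| := Int.one_le_abs hr0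
          exact_mod_cast this
        have h1 : |(r : ℝ)| ≤ 2 * (|(b : ℝ)| * (L ^ C₁ / (P : ℝ) ^ 2)) := by
          linarith only [hrb, hr1, hsmall]
        have h2 : |(b : ℝ)| * (L ^ C₁ / (P : ℝ) ^ 2) ≤
            L ^ (C₁ + 2 * A₀) * (|(b : ℝ)| ^ 3 / (X : ℝ) ^ 2) := by
          calc |(b : ℝ)| * (L ^ C₁ / (P : ℝ) ^ 2)
              ≤ |(b : ℝ)| * (L ^ (C₁ + 2 * A₀) * (|(b : ℝ)| ^ 2 / (X : ℝ) ^ 2)) :=
                mul_le_mul_of_nonneg_left hWP hb0.le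
            _ = _ := by ring
        have h4 : |(b : ℝ)| ^ 3 / (X : ℝ) ^ 2 ≤ (X : ℝ) ^ (2 / 3 - 3 * ε) := by
          rw [div_le_iff₀ (by positivity)]
          calc |(b : ℝ)| ^ 3 ≤ ((X : ℝ) ^ (8 / 9 - ε)) ^ 3 := pow_le_pow_left₀ hb0.le hbX 3
            _ = (X : ℝ) ^ (2 / 3 - 3 * ε) * (X : ℝ) ^ 2 := by
                rw [← Real.rpow_natCast, ← Real.rpow_mul hX0.le, ← Real.rpow_natCast,
                  ← Real.rpow_add hX0]
                congr 1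
                push_cast
                ring
        calc |(r : ℝ)| ≤ 2 * (L ^ (C₁ + 2 * A₀) * (|(b : ℝ)| ^ 3 / (X : ℝ) ^ 2)) := by
              linarith only [h1, h2]
          _ ≤ 2 * (L ^ (C₁ + 2 * A₀) * (X : ℝ) ^ (2 / 3 - 3 * ε)) := by gcongr
          _ = 2 * L ^ (C₁ + 2 * A₀) * (X : ℝ) ^ (2 / 3 - 3 * ε) := by ring
          _ ≤ (X : ℝ) ^ (2 * ε) * (X : ℝ) ^ (2 / 3 - 3 * ε) :=
              mul_le_mul_of_nonneg_right e1 (by positivity)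
          _ = (X : ℝ) ^ (2 / 3 - ε) := by rw [← Real.rpow_add hX0]; congr 1; ring
          _ ≤ (X : ℝ) ^ (2 / 3 - η) := Real.rpow_le_rpow_of_exponent_le hX1 (by linarith)
    · by_cases hr0 : r = 0
      · rw [hr0]; simp; positivity
      · have hr1 : (1 : ℝ) ≤ |(r : ℝ)| := by
          have : (1 : ℤ) ≤ |r| := Int.one_le_abs hr0
          exact_mod_cast this
        have h1 : |(r : ℝ)| ≤ 2 * (|(b : ℝ)| * (L ^ C₁ / (P : ℝ) ^ 2)) := by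
          linarith only [hrb, hr1, hsmall]
        have h4 : |(b : ℝ)| ^ 2 / (X : ℝ) ^ 2 ≤ (X : ℝ) ^ (-(2 / 9) : ℝ) := by
          rw [div_le_iff₀ (by positivity)]
          calc |(b : ℝ)| ^ 2 ≤ ((X : ℝ) ^ (8 / 9 - ε)) ^ 2 := pow_le_pow_left₀ hb0.le hbX 2
            _ ≤ ((X : ℝ) ^ (8 / 9 : ℝ)) ^ 2 := by
                apply pow_le_pow_left₀ (by positivity)
                exact Real.rpow_le_rpow_of_exponent_le hX1 (by linarith)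
            _ = (X : ℝ) ^ (-(2 / 9) : ℝ) * (X : ℝ) ^ 2 := by
                rw [← Real.rpow_natCast, ← Real.rpow_mul hX0.le, ← Real.rpow_natCast,
                  ← Real.rpow_add hX0]
                congr 1
                push_cast
                norm_num
        have h5 : 2 * (L ^ C₁ / (P : ℝ) ^ 2) ≤ (X : ℝ) ^ (-η) := by
          calc 2 * (L ^ C₁ / (P : ℝ) ^ 2)
              ≤ 2 * (L ^ (C₁ + 2 * A₀) * (|(b : ℝ)| ^ 2 / (X : ℝ) ^ 2)) := by linarith only [hWP]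
            _ ≤ 2 * (L ^ (C₁ + 2 * A₀) * (X : ℝ) ^ (-(2 / 9) : ℝ)) := by gcongr
            _ = 2 * L ^ (C₁ + 2 * A₀) * (X : ℝ) ^ (-(2 / 9) : ℝ) := by ring
            _ ≤ (X : ℝ) ^ (7 / 72 : ℝ) * (X : ℝ) ^ (-(2 / 9) : ℝ) :=
                mul_le_mul_of_nonneg_right e2 (by positivity)
            _ = (X : ℝ) ^ (-(1 / 8) : ℝ) := by rw [← Real.rpow_add hX0]; congr 1; norm_num
            _ ≤ (X : ℝ) ^ (-η) := Real.rpow_le_rpow_of_exponent_le hX1 (by linarith)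
        calc |(r : ℝ)| ≤ |(b : ℝ)| * (2 * (L ^ C₁ / (P : ℝ) ^ 2)) := by linarith only [h1]
          _ ≤ _ := mul_le_mul_of_nonneg_left h5 hb0.le
    · refine hdist.trans ?_
      rw [div_le_div_iff₀ (by positivity) hX0]
      calc L ^ C₁ * X ≤ L ^ C₁ * (P * |(b : ℝ)| * L ^ A₀) :=
            mul_le_mul_of_nonneg_left hPb hLC0.le
        _ ≤ L ^ C₁ * (P * |(b : ℝ)| * L ^ (2 * A₀)) := by gcongr
        _ = L ^ (C₁ + 2 * A₀) * (P * |(b : ℝ)|) := by rw [hWVe]; ring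
  · -- `|b| < √X`
    have hXb : Real.sqrt X ≤ (X : ℝ) / |(b : ℝ)| := by
      rw [le_div_iff₀ hb0]
      calc Real.sqrt X * |(b : ℝ)| ≤ Real.sqrt X * Real.sqrt X :=
            mul_le_mul_of_nonneg_left hcase.le (Real.sqrt_nonneg _)
        _ = X := Real.mul_self_sqrt hX0.le
    rw [min_eq_left hXb] at hPm
    have hs0 : 0 < Real.sqrt X := Real.sqrt_pos.2 hX0
    have hP2 : (X : ℝ) ≤ (P : ℝ) ^ 2 * L ^ (2 * A₀) := by
      calc (X : ℝ) = Real.sqrt X ^ 2 := (Real.sq_sqrt hX0.le).symm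
        _ ≤ (P * L ^ A₀) ^ 2 := pow_le_pow_left₀ hs0.le hPm 2
        _ = _ := by rw [hVV]; ring
    have hr0 : r = 0 := by
      by_contra hne
      have hr1 : (1 : ℝ) ≤ |(r : ℝ)| := by
        have : (1 : ℤ) ≤ |r| := Int.one_le_abs hne
        exact_mod_cast this
      have h1 : |(b : ℝ)| * (L ^ C₁ / (P : ℝ) ^ 2) ≤ 1 / 60 := by
        have h2 : |(b : ℝ)| ≤ P * L ^ (2 * A₀) :=
          hcase.le.trans (hPm.trans (mul_le_mul_of_nonneg_left hVA hPr.le))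
        calc |(b : ℝ)| * (L ^ C₁ / (P : ℝ) ^ 2) ≤ (P * L ^ (2 * A₀)) * (L ^ C₁ / (P : ℝ) ^ 2) :=
              mul_le_mul_of_nonneg_right h2 (by positivity)
          _ = L ^ (C₁ + 2 * A₀) / P := by rw [hWVe]; field_simp
          _ ≤ 1 / 60 := hsmall'
      linarith only [hrb, hr1, h1, hsmall]
    refine ⟨q, a, r, hq1, hqL, haq, ?_, ?_, ?_⟩
    · rw [hr0]; simp; positivity
    · rw [hr0]; simp; positivity
    · rw [hr0]
      have h1 : α - ((a : ℝ) / q + ((0 : ℤ) : ℝ) / (q * b)) = (q * α - a) / q := by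
        field_simp; simp; ring
      rw [h1, abs_div, abs_of_pos hq0]
      calc |(q : ℝ) * α - a| / q ≤ (L ^ C₁ / (P : ℝ) ^ 2) / 1 := by
            apply div_le_div₀ (by positivity) hq3' (by norm_num) hqr1
        _ = L ^ C₁ / (P : ℝ) ^ 2 := by rw [div_one]
        _ ≤ L ^ (C₁ + 2 * A₀) / X := by
            rw [div_le_div_iff₀ (by positivity) hX0, hWVe]
            calc L ^ C₁ * X ≤ L ^ C₁ * ((P : ℝ) ^ 2 * L ^ (2 * A₀)) :=
                  mul_le_mul_of_nonneg_left hP2 hLC0.le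
              _ = _ := by ring

end Pool.Agent.Lib.MP_d9bc60_nt.VA
end
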