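import Pool.Agent.Lib.MP_d9bc60_nt.VA.VL2

section
/-! The mean square of `D` over the secondary frequencies (range `R ≤ X^(2/3-η)`). -/

set_option autoImplicit false

namespace Pool.Agent.Lib.MP_d9bc60_nt.VA

open Finset UV

theorem vs_D2 (η : ℝ) (hη : 0 < η) (hη1 : η ≤ 1 / 4) (B₀ C : ℕ) : ∃ X₀ : ℕ, ∀ X : ℕ, X₀ ≤ X →
    ∀ (a : ℤ) (q B R t : ℕ), 1 ≤ q → (q : ℝ) ≤ Real.log X ^ B₀ → 1 ≤ B →
    (B : ℝ) ≤ (X : ℝ) ^ (1 - η) → (R : ℝ) ≤ (X : ℝ) ^ (2 / 3 - η) → (R : ℝ) ≤ B * (X : ℝ) ^ (-η) →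
    t ≤ 2 * X →
    ∑ r ∈ Icc 1 R, ‖DD (LC C X) t ((a : ℝ) / q + (r : ℝ) / (q * B))‖ ^ 2 ≤
      (X : ℝ) ^ (2 - η / 40) := by
  obtain ⟨X1, hX1⟩ := vs_Lam2 η hη hη1 B₀
  obtain ⟨X2, hX2⟩ := Filter.eventually_atTop.mp
    ((s5_log (η / 2) (by positivity) 1 (C + B₀)).and
      ((s5_log (η / 40) (by positivity) 3 0).and
        ((s5_log η hη 2 C).and (Filter.eventually_ge_atTop 3))))
  refine ⟨max X1 X2, ?_⟩
  intro X hX a q B R t hq hqL hB hBX hRX hRB ht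
  have hLam := hX1 X (le_trans (le_max_left _ _) hX) a q B R t hq hqL hB hBX hRX hRB ht
  obtain ⟨hb, hc, hd, hX3⟩ := hX2 X (le_trans (le_max_right _ _) hX)
  set x : ℝ := (X : ℝ) with hx
  set L : ℝ := Real.log x with hL
  have hx3 : (3 : ℝ) ≤ x := by rw [hx]; exact_mod_cast hX3
  have hx0 : 0 < x := by linarith only [hη, hη1, hx3]
  have hx1 : 1 ≤ x := by linarith only [hη, hη1, hx3]
  have hL1 : 1 ≤ L := by
    rw [hL, Real.le_log_iff_exp_le hx0]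
    have := Real.exp_one_lt_d9
    linarith only [hη, hη1, hx3, this]
  have hpow : ∀ u v : ℝ, u ≤ v → x ^ u ≤ x ^ v := fun u v huv =>
    Real.rpow_le_rpow_of_exponent_le hx1 huv
  have hpos : ∀ u : ℝ, 0 < x ^ u := fun u => Real.rpow_pos_of_pos hx0 u
  have hadd : ∀ u v : ℝ, x ^ u * x ^ v = x ^ (u + v) := fun u v => (Real.rpow_add hx0 u v).symm
  set Q : ℕ := LC C X with hQ
  have hQL : (Q : ℝ) ≤ L ^ C := by
    rw [hQ, LC]
    exact Nat.floor_le (by positivity)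
  -- the part with `Λ_Q`
  have hSQ : ∀ r ∈ Icc 1 R,
      ‖∑ n ∈ Icc 1 t, (vmQ Q (n : ℤ) : ℂ) * e (((a : ℝ) / q + (r : ℝ) / (q * B)) * n)‖ ≤
        x ^ (η / 2) * B / (2 * r) := by
    intro r hr
    have hr1 := (mem_Icc.mp hr).1
    have hr0 : (0 : ℝ) < r := by exact_mod_cast hr1
    have hrR : (r : ℝ) ≤ R := by exact_mod_cast (mem_Icc.mp hr).2
    rw [vmQ_sum]
    have h1 : ∀ q' ∈ Icc 1 Q, ‖((mu q' / q'.totient : ℝ) : ℂ) *
        ∑ a' ∈ (range q').filter (fun a' => a'.Coprime q'),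
          ∑ n ∈ Icc 1 t, e (((a : ℝ) / q + (r : ℝ) / (q * B) + (a' : ℝ) / q') * n)‖ ≤
        (q : ℝ) * B / (2 * r) := by
      intro q' hq'
      rw [mem_Icc] at hq'
      have hq'Q : (q' : ℝ) ≤ Q := by exact_mod_cast hq'.2
      have hadm : 2 * q' * r ≤ B := by
        have h2 : (2 : ℝ) * q' * r ≤ 2 * L ^ C * (B * x ^ (-η)) :=
          mul_le_mul (by linarith only [hQL, hq'Q]) (hrR.trans hRB) (Nat.cast_nonneg _) (by positivity)
        have h3 : 2 * L ^ C * (B * x ^ (-η)) ≤ x ^ η * (B * x ^ (-η)) :=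
          mul_le_mul_of_nonneg_right hd (by positivity)
        have h4 : x ^ η * (B * x ^ (-η)) = B := by
          have h5 := hadd η (-η)
          rw [add_neg_cancel, Real.rpow_zero] at h5
          calc x ^ η * (B * x ^ (-η)) = B * (x ^ η * x ^ (-η)) := by ring
            _ = B := by rw [h5, mul_one]
        have h6 : (2 : ℝ) * q' * r ≤ B := by linarith only [h2, h3, h4]
        exact_mod_cast h6
      have hφ : 0 < q'.totient := Nat.totient_pos.mpr hq'.1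
      have hφ0 : (0 : ℝ) < q'.totient := by exact_mod_cast hφ
      rw [norm_mul, Complex.norm_real, Real.norm_eq_abs, abs_div, abs_of_pos hφ0]
      have hmu : |mu q'| ≤ 1 := by
        unfold mu
        have := ArithmeticFunction.abs_moebius_le_one (n := q')
        exact_mod_cast this
      have h7 : ‖∑ a' ∈ (range q').filter (fun a' => a'.Coprime q'),
          ∑ n ∈ Icc 1 t, e (((a : ℝ) / q + (r : ℝ) / (q * B) + (a' : ℝ) / q') * n)‖ ≤
          q'.totient * ((q : ℝ) * B / (2 * r)) := by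
        refine (norm_sum_le _ _).trans ?_
        refine (Finset.sum_le_card_nsmul _ _ ((q : ℝ) * B / (2 * r)) ?_).trans (le_of_eq ?_)
        · intro a' _
          exact typeI_sec' a q B r q' a' t hq hB hr1 hq'.1 hadm
        · rw [nsmul_eq_mul]
          congr 2
          rw [Nat.totient_eq_card_coprime]
          congr 1
          ext z
          simp only [mem_filter, mem_range]
          rw [Nat.coprime_comm]
      calc |mu q'| / q'.totient * ‖∑ a' ∈ (range q').filter (fun a' => a'.Coprime q'),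
          ∑ n ∈ Icc 1 t, e (((a : ℝ) / q + (r : ℝ) / (q * B) + (a' : ℝ) / q') * n)‖
          ≤ 1 / q'.totient * (q'.totient * ((q : ℝ) * B / (2 * r))) := by
            gcongr
        _ = (q : ℝ) * B / (2 * r) := by field_simp
    refine (norm_sum_le _ _).trans ((Finset.sum_le_card_nsmul _ _ _ h1).trans ?_)
    rw [nsmul_eq_mul, Nat.card_Icc, Nat.add_sub_cancel]
    calc (Q : ℝ) * ((q : ℝ) * B / (2 * r)) ≤ L ^ C * (L ^ B₀ * B / (2 * r)) := by
          gcongr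
      _ = L ^ (C + B₀) * (B / (2 * r)) := by rw [pow_add]; ring
      _ ≤ x ^ (η / 2) * (B / (2 * r)) := by
          apply mul_le_mul_of_nonneg_right _ (by positivity)
          linarith only [hb]
      _ = x ^ (η / 2) * B / (2 * r) := by ring
  have hpt : ∀ r ∈ Icc 1 R, ‖DD Q t ((a : ℝ) / q + (r : ℝ) / (q * B))‖ ^ 2 ≤
      2 * ‖∑ n ∈ Icc 1 t, (vm n : ℂ) * e (((a : ℝ) / q + (r : ℝ) / (q * B)) * n)‖ ^ 2 +
        x ^ η * (B : ℝ) ^ 2 / 2 * (1 / (r : ℝ) ^ 2) := by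
    intro r hr
    have hr1 := (mem_Icc.mp hr).1
    have hr0 : (0 : ℝ) < r := by exact_mod_cast hr1
    have h1 : DD Q t ((a : ℝ) / q + (r : ℝ) / (q * B)) =
        ∑ n ∈ Icc 1 t, (vm n : ℂ) * e (((a : ℝ) / q + (r : ℝ) / (q * B)) * n) -
        ∑ n ∈ Icc 1 t, (vmQ Q (n : ℤ) : ℂ) * e (((a : ℝ) / q + (r : ℝ) / (q * B)) * n) := by
      unfold DD uu
      rw [← Finset.sum_sub_distrib]
      apply Finset.sum_congr rfl
      intro n _
      push_cast
      ring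
    rw [h1]
    set u := ∑ n ∈ Icc 1 t, (vm n : ℂ) * e (((a : ℝ) / q + (r : ℝ) / (q * B)) * n)
    have h2 := hSQ r hr
    set w := ∑ n ∈ Icc 1 t, (vmQ Q (n : ℤ) : ℂ) * e (((a : ℝ) / q + (r : ℝ) / (q * B)) * n)
    have h3 : ‖u - w‖ ≤ ‖u‖ + ‖w‖ := norm_sub_le u w
    have h4 : ‖u - w‖ ^ 2 ≤ 2 * ‖u‖ ^ 2 + 2 * ‖w‖ ^ 2 := by
      have := pow_le_pow_left₀ (norm_nonneg _) h3 2
      nlinarith only [sq_nonneg (‖u‖ - ‖w‖), this]
    have h5 : ‖w‖ ^ 2 ≤ (x ^ (η / 2) * B / (2 * r)) ^ 2 := pow_le_pow_left₀ (norm_nonneg _) h2 2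
    have h6 : (x ^ (η / 2) * B / (2 * r)) ^ 2 = x ^ η * (B : ℝ) ^ 2 / 4 * (1 / (r : ℝ) ^ 2) := by
      have h7 := hadd (η / 2) (η / 2)
      have h8 : η / 2 + η / 2 = η := by ring
      rw [h8] at h7
      rw [← h7]
      field_simp
      ring
    rw [h6] at h5
    linarith only [h4, h5]
  calc ∑ r ∈ Icc 1 R, ‖DD Q t ((a : ℝ) / q + (r : ℝ) / (q * B))‖ ^ 2
      ≤ ∑ r ∈ Icc 1 R, (2 * ‖∑ n ∈ Icc 1 t, (vm n : ℂ) *
          e (((a : ℝ) / q + (r : ℝ) / (q * B)) * n)‖ ^ 2 +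
          x ^ η * (B : ℝ) ^ 2 / 2 * (1 / (r : ℝ) ^ 2)) := Finset.sum_le_sum hpt
    _ = 2 * ∑ r ∈ Icc 1 R, ‖∑ n ∈ Icc 1 t, (vm n : ℂ) *
          e (((a : ℝ) / q + (r : ℝ) / (q * B)) * n)‖ ^ 2 +
          x ^ η * (B : ℝ) ^ 2 / 2 * ∑ r ∈ Icc 1 R, 1 / (r : ℝ) ^ 2 := by
        rw [sum_add_distrib, ← Finset.mul_sum, ← Finset.mul_sum]
    _ ≤ 2 * x ^ (2 - η / 20) + x ^ η * (x ^ (1 - η)) ^ 2 / 2 * 2 := by
        refine add_le_add (mul_le_mul_of_nonneg_left hLam (by norm_num)) ?_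
        refine mul_le_mul ?_ (s5_inv_sq R) (Finset.sum_nonneg (fun _ _ => by positivity))
          (by positivity)
        gcongr
    _ = 2 * x ^ (2 - η / 20) + x ^ (2 - η) := by
        have e2 : x ^ η * (x ^ (1 - η)) ^ 2 = x ^ (2 - η) := by
          rw [← Real.rpow_natCast, ← Real.rpow_mul hx0.le, hadd]; congr 1; push_cast; ring
        rw [e2]
        ring
    _ ≤ 3 * x ^ (2 - η / 20) := by
        have := hpow (2 - η) (2 - η / 20) (by linarith only [hη])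
        linarith only [this]
    _ ≤ x ^ (η / 40) * x ^ (2 - η / 20) := by
        apply mul_le_mul_of_nonneg_right _ (hpos _).le
        simpa using hc
    _ = x ^ (2 - η / 40) := by
        rw [hadd]; congr 1; ring

end Pool.Agent.Lib.MP_d9bc60_nt.VA
end
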