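import Pool.Agent.Lib.MP_d9bc60_nt.VA.VFin

section
/-! Row va-End (about 150 lines): the final form. -/

set_option autoImplicit false

namespace Pool.Agent.Lib.MP_d9bc60_nt.VA

open Finset UV

/-- `f(x) = x² + b x + c`. -/
def ff (b c x : ℤ) : ℤ := x ^ 2 + b * x + c

/-- `∑ log p₁ log p₂` over the representations `n = f(p₁) + p₂` with primes `p₁ ≤ P` and `p₂`. -/
noncomputable def RR (b c : ℤ) (P : ℕ) (n : ℤ) : ℝ :=
  ∑ p ∈ (Finset.Icc 1 P).filter (fun p : ℕ => p.Prime ∧ (n - ff b c p).toNat.Prime),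
    Real.log p * Real.log ((n - ff b c p : ℤ) : ℝ)

/-- `#{x ∈ [1, P] : f(x) < n}`. -/
def NN (b c : ℤ) (P : ℕ) (n : ℤ) : ℕ := ((Finset.Icc 1 P).filter (fun x : ℕ => ff b c x < n)).card

/-- `ω(l) = #{x mod l : x (n - f(x)) ≡ 0 (mod l)}`. -/
def om (b c n : ℤ) (l : ℕ) : ℕ :=
  ((Finset.range l).filter (fun x : ℕ => (l : ℤ) ∣ x * (n - ff b c x))).card

/-- `∏_{l ≤ z} (1 - ω(l)/l)/(1 - 1/l)²` over the primes `l ≤ z`. -/
noncomputable def GS (b c : ℤ) (z : ℝ) (n : ℤ) : ℝ :=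
  ∏ l ∈ (Finset.Icc 1 ⌊z⌋₊).filter Nat.Prime, (1 - (om b c n l : ℝ) / l) / (1 - 1 / (l : ℝ)) ^ 2

theorem end_gg (b c : ℤ) (n : ℤ) (x : ℕ) : n - ff b c x = (n - c) - gg b x := by
  unfold ff gg
  ring

/-- the factor at `2` -/
theorem end_two (b c : ℤ) (n : ℤ) (hbc : Odd (b + c)) (hn : Odd n) : om b c n 2 = 1 := by
  unfold om
  have h : (Finset.range 2).filter (fun x : ℕ => ((2 : ℕ) : ℤ) ∣ x * (n - ff b c x)) = {0} := by
    ext x
    simp only [Finset.mem_filter, Finset.mem_range, Finset.mem_singleton]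
    constructor
    · rintro ⟨hx, hd⟩
      by_contra hne
      have hx1 : x = 1 := by omega
      subst hx1
      obtain ⟨k, hk⟩ := hd
      obtain ⟨u, hu⟩ := hbc
      obtain ⟨v, hv⟩ := hn
      unfold ff at hk
      push_cast at hk
      omega
    · rintro rfl
      exact ⟨by norm_num, by simp⟩
  rw [h, Finset.card_singleton]

/-- the local count at an odd prime -/
theorem end_om (b c : ℤ) (n : ℤ) (l : ℕ) (hl : l.Prime) : om b c n l = rho b l (n - c) + 1 := by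
  unfold om rho
  have h : (Finset.range l).filter (fun x : ℕ => (l : ℤ) ∣ x * (n - ff b c x)) =
      insert 0 ((Finset.range l).filter (fun x : ℕ => x.Coprime l ∧ (l : ℤ) ∣ (n - c) - gg b x)) := by
    ext x
    simp only [Finset.mem_filter, Finset.mem_range, Finset.mem_insert]
    constructor
    · rintro ⟨hx, hd⟩
      rcases Nat.eq_zero_or_pos x with h0 | h0
      · exact Or.inl h0
      · right
        have hnd : ¬ l ∣ x := Nat.not_dvd_of_pos_of_lt h0 hx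
        refine ⟨hx, ((Nat.Prime.coprime_iff_not_dvd hl).2 hnd).symm, ?_⟩
        have h1 : (l : ℤ) ∣ x ∨ (l : ℤ) ∣ (n - ff b c x) :=
          (Nat.prime_iff_prime_int.1 hl).dvd_or_dvd hd
        rcases h1 with h1 | h1
        · exact absurd (by exact_mod_cast h1) hnd
        · rw [← end_gg]; exact h1
    · rintro (rfl | ⟨hx, hc, hd⟩)
      · exact ⟨hl.pos, by simp⟩
      · refine ⟨hx, ?_⟩
        rw [end_gg]
        exact Dvd.dvd.mul_left hd _
  rw [h, Finset.card_insert_of_notMem]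
  simp only [Finset.mem_filter, not_and]
  intro _ hc
  have : l = 1 := by simpa using hc
  exact absurd this hl.one_lt.ne'

/-- Proof. For `l = 2`: `ω = 1` (`x = 1`: `n - f(1) = n - 1 - b - c` is odd), the factor is `2`. For `l ≥ 3`:
`ω = 1 + ρ` (`x = 0`, and `1 ≤ x < l` with `g(x) ≡ n - c`), the factor is
`l(l - 1 - ρ)/(l - 1)² = 1 + Y_l` (`YY_prime`). -/
theorem GS_eq (b c : ℤ) (z : ℝ) (n : ℤ) (hz : 2 ≤ z) (hbc : Odd (b + c)) (hn : Odd n) :
    GS b c z n = 2 * PI b ⌊z⌋₊ (n - c) := by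
  unfold GS PI
  have hz2 : 2 ≤ ⌊z⌋₊ := Nat.le_floor (by exact_mod_cast hz)
  set N := ⌊z⌋₊ with hN
  have hset : (Finset.Icc 1 N).filter Nat.Prime = insert 2 ((Finset.Icc 3 N).filter Nat.Prime) := by
    ext l
    simp only [Finset.mem_filter, Finset.mem_Icc, Finset.mem_insert]
    constructor
    · rintro ⟨⟨h1, h2⟩, h3⟩
      have := h3.two_le
      rcases Nat.lt_or_ge l 3 with h4 | h4
      · left; omega
      · right; exact ⟨⟨h4, h2⟩, h3⟩
    · rintro (rfl | ⟨⟨h1, h2⟩, h3⟩)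
      · exact ⟨⟨by norm_num, hz2⟩, Nat.prime_two⟩
      · exact ⟨⟨by omega, h2⟩, h3⟩
  rw [hset, Finset.prod_insert (by simp), end_two b c n hbc hn]
  have h2 : (1 - ((1 : ℕ) : ℝ) / ((2 : ℕ) : ℝ)) / (1 - 1 / ((2 : ℕ) : ℝ)) ^ 2 = 2 := by norm_num
  rw [h2]
  congr 1
  refine Finset.prod_congr rfl fun l hl => ?_
  rw [Finset.mem_filter, Finset.mem_Icc] at hl
  have hl3 : (3 : ℝ) ≤ l := by exact_mod_cast hl.1.1
  rw [end_om b c n l hl.2, YY_prime b l hl.2]
  have h3 : (l : ℝ) ≠ 0 := by linarith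
  have h4 : (l : ℝ) - 1 ≠ 0 := by linarith
  have h5 : (1 - 1 / (l : ℝ)) = ((l : ℝ) - 1) / l := by field_simp
  rw [h5]
  push_cast
  field_simp
  ring

theorem RR_eq (b c : ℤ) (P : ℕ) (n : ℤ) : RR b c P n = RP b P (n - c) := by
  unfold RR RP
  have hset : (Finset.Icc 1 P).filter (fun p : ℕ => p.Prime ∧ (n - ff b c p).toNat.Prime) =
      (Finset.Icc 1 P).filter (fun p : ℕ => p.Prime ∧ ((n - c) - gg b p).toNat.Prime) := by
    refine Finset.filter_congr fun p _ => ?_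
    rw [end_gg]
  rw [hset]
  refine Finset.sum_congr rfl fun p hp => ?_
  rw [Finset.mem_filter] at hp
  rw [end_gg]
  congr 2
  have h1 : 0 ≤ (n - c) - gg b p := by
    by_contra hneg
    push Not at hneg
    have h2 := hp.2.2
    rw [Int.toNat_of_nonpos hneg.le] at h2
    exact Nat.not_prime_zero h2
  have h3 := Int.toNat_of_nonneg h1
  have h4 : (((((n - c) - gg b p).toNat : ℕ) : ℤ) : ℝ) = (((n - c) - gg b p : ℤ) : ℝ) := by rw [h3]
  rw [← h4, Int.cast_natCast]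

theorem NN_eq (b c : ℤ) (P : ℕ) (n : ℤ) : NN b c P n = Pm b P (n - c) := by
  unfold NN Pm
  congr 1
  refine Finset.filter_congr fun x _ => ?_
  have := end_gg b c n x
  constructor
  · intro h; omega
  · intro h; omega

/-- Proof. `fin1` with `A' = ⌈max A 0⌉₊`, `n = c + m`, `1 ≤ m ≤ X`; `m - b` is even as `n` and `b + c` are odd. -/
theorem asymp (ε A : ℝ) (hε : 0 < ε) : ∃ C₀ : ℕ, ∀ C : ℕ, C₀ ≤ C → ∃ X₀ : ℕ, ∀ X P : ℕ, X₀ ≤ X →
    ∀ b c : ℤ, Odd (b + c) → ¬ (3 : ℤ) ∣ b → |(b : ℝ)| ≤ (X : ℝ) ^ (8 / 9 - ε) →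
    (P : ℝ) ≤ min (Real.sqrt X) (X / |(b : ℝ)|) →
    min (Real.sqrt X) (X / |(b : ℝ)|) ≤ P * Real.log X ^ A →
    (((Finset.Ioc c (c + X)).filter (fun n : ℤ => Odd n ∧
      GS b c (Real.log X ^ C) n * NN b c P n / Real.log X ^ A <
        |RR b c P n - GS b c (Real.log X ^ C) n * NN b c P n|)).card : ℝ) ≤
      (X : ℝ) / Real.log X ^ A := by
  set A' : ℕ := ⌈max A 0⌉₊ with hA'
  have hAA : A ≤ (A' : ℝ) := (le_max_left A 0).trans (Nat.le_ceil _)
  obtain ⟨B₀, hB₀⟩ := fin1 ε hε A'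
  refine ⟨max B₀ 1, fun C hC => ?_⟩
  obtain ⟨X₀, hX₀⟩ := hB₀ C (le_trans (le_max_left _ _) hC)
  refine ⟨max X₀ 8, fun X P hX b c hbc h3 hb hP1 hP2 => ?_⟩
  have hX0 : X₀ ≤ X := le_trans (le_max_left _ _) hX
  have hX8 : 8 ≤ X := le_trans (le_max_right _ _) hX
  have hXr : (8 : ℝ) ≤ X := by exact_mod_cast hX8
  have hXp : (0 : ℝ) < X := by linarith
  have hL2 : 2 ≤ Real.log X := by
    rw [Real.le_log_iff_exp_le hXp]
    have h1 : Real.exp 2 = Real.exp 1 * Real.exp 1 := by rw [← Real.exp_add]; norm_num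
    have h2 := Real.exp_one_lt_d9
    have h4 := Real.exp_pos 1
    rw [h1]
    nlinarith
  set L := Real.log X with hL
  have hL1 : 1 ≤ L := by linarith
  have hL0 : 0 < L := by linarith
  have hLA : L ^ A ≤ L ^ A' := by
    rw [← Real.rpow_natCast]
    exact Real.rpow_le_rpow_of_exponent_le hL1 hAA
  have hLA0 : 0 < L ^ A := Real.rpow_pos_of_pos hL0 A
  have hb0 : b ≠ 0 := by
    rintro rfl
    exact h3 (dvd_zero 3)
  have hb1 : (0 : ℝ) < |(b : ℝ)| := by
    rw [abs_pos]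
    exact_mod_cast hb0
  have hmain := hX₀ X hX0 b h3 hb P (hP1.trans (min_le_left _ _)) (by
    have h1 := hP1.trans (min_le_right _ _)
    rwa [le_div_iff₀ hb1] at h1) (hP2.trans (mul_le_mul_of_nonneg_left hLA (Nat.cast_nonneg _)))
  have hz2 : (2 : ℝ) ≤ L ^ C := by
    have hC1 : 1 ≤ C := le_trans (le_max_right _ _) hC
    calc (2 : ℝ) ≤ L ^ 1 := by rwa [pow_one]
      _ ≤ L ^ C := pow_le_pow_right₀ hL1 hC1
  have hfl : ⌊L ^ C⌋₊ = LC C X := rfl
  -- the injection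
  have hinj : ((Finset.Ioc c (c + X)).filter (fun n : ℤ => Odd n ∧
      GS b c (L ^ C) n * NN b c P n / L ^ A < |RR b c P n - GS b c (L ^ C) n * NN b c P n|)).card ≤
      ((Icc 1 X).filter (fun m : ℕ => (2 : ℤ) ∣ (m : ℤ) - b ∧
      2 * PI b (LC C X) (m : ℤ) * Pm b P (m : ℤ) / L ^ A' <
        |RP b P (m : ℤ) - 2 * PI b (LC C X) (m : ℤ) * Pm b P (m : ℤ)|)).card := by
    refine Finset.card_le_card_of_injOn (fun n : ℤ => (n - c).toNat) ?_ ?_
    · intro n hn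
      rw [Finset.mem_coe, Finset.mem_filter, Finset.mem_Ioc] at hn
      obtain ⟨⟨h1, h2⟩, h4, h5⟩ := hn
      rw [Finset.mem_coe, Finset.mem_filter, Finset.mem_Icc]
      have h6 : (((n - c).toNat : ℕ) : ℤ) = n - c := Int.toNat_of_nonneg (by omega)
      have h7 : 1 ≤ (n - c).toNat := by omega
      have h8 : (n - c).toNat ≤ X := by omega
      refine ⟨⟨h7, h8⟩, ?_, ?_⟩
      · simp only
        rw [h6]
        obtain ⟨u, hu⟩ := hbc
        obtain ⟨v, hv⟩ := h4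
        exact ⟨v - u - b + b, by omega⟩
      · simp only
        rw [h6]
        rw [GS_eq b c (L ^ C) n hz2 hbc h4, RR_eq, NN_eq, hfl] at h5
        refine lt_of_le_of_lt ?_ h5
        refine div_le_div_of_nonneg_left ?_ hLA0 hLA
        refine mul_nonneg (mul_nonneg (by norm_num) ?_) (Nat.cast_nonneg _)
        unfold PI
        refine Finset.prod_nonneg fun p hp => ?_
        rw [Finset.mem_filter, Finset.mem_Icc] at hp
        refine le_trans ?_ (one_add_YY_ge b h3 p hp.2 hp.1.1 (n - c))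
        positivity
    · intro n hn n' hn' hnn
      rw [Finset.mem_coe, Finset.mem_filter, Finset.mem_Ioc] at hn hn'
      simp only at hnn
      omega
  have hcard : (((Finset.Ioc c (c + X)).filter (fun n : ℤ => Odd n ∧
      GS b c (L ^ C) n * NN b c P n / L ^ A < |RR b c P n - GS b c (L ^ C) n * NN b c P n|)).card : ℝ) ≤
      (X : ℝ) / L ^ A' := le_trans (by exact_mod_cast hinj) hmain
  exact hcard.trans (div_le_div_of_nonneg_left hXp.le hLA0 hLA)

end Pool.Agent.Lib.MP_d9bc60_nt.VA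
end
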