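import Pool.Agent.Lib.MP_d9bc60_nt.VA.VFin
import Pool.Agent.Lib.MP_d9bc60_nt.UV.PFinal

section
/-! The number of representations for `|b| ≤ X^(8/9-ε)`. -/

set_option autoImplicit false

namespace Pool.Agent.Lib.MP_d9bc60_nt.VA

open Finset UV

theorem PP3_bounds (ε : ℝ) (hε : 0 < ε) : ∃ X₀ : ℕ, ∀ X : ℕ, X₀ ≤ X → ∀ b : ℤ, b ≠ 0 →
    |(b : ℝ)| ≤ (X : ℝ) ^ (8 / 9 - ε) →
    20 ≤ min (Real.sqrt X) (X / |(b : ℝ)|) ∧ min (Real.sqrt X) (X / |(b : ℝ)|) / 5 ≤ PP b X ∧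
    (PP b X : ℝ) ≤ Real.sqrt X / 4 ∧ (PP b X : ℝ) * |(b : ℝ)| ≤ X / 4 := by
  refine ⟨20 ^ 9, ?_⟩
  intro X hX b hb hbX
  have hXr : (20 : ℝ) ^ 9 ≤ (X : ℝ) := by exact_mod_cast hX
  have hX1 : (1 : ℝ) ≤ (X : ℝ) := le_trans (by norm_num) hXr
  have hX0 : (0 : ℝ) < (X : ℝ) := by linarith
  have hb1 : (1 : ℝ) ≤ |(b : ℝ)| := by
    have : (1 : ℤ) ≤ |b| := Int.one_le_abs hb
    exact_mod_cast this
  have hb0 : (0 : ℝ) < |(b : ℝ)| := by linarith
  set μ : ℝ := min (Real.sqrt X) (X / |(b : ℝ)|) with hμ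
  have h16 : (X : ℝ) ^ (1 / 9 : ℝ) ≤ μ := by
    refine le_min ?_ ?_
    · rw [Real.sqrt_eq_rpow]
      exact Real.rpow_le_rpow_of_exponent_le hX1 (by norm_num)
    · rw [le_div_iff₀ hb0]
      have h1 : |(b : ℝ)| ≤ (X : ℝ) ^ (8 / 9 : ℝ) :=
        hbX.trans (Real.rpow_le_rpow_of_exponent_le hX1 (by linarith))
      calc (X : ℝ) ^ (1 / 9 : ℝ) * |(b : ℝ)| ≤ (X : ℝ) ^ (1 / 9 : ℝ) * (X : ℝ) ^ (8 / 9 : ℝ) :=
            mul_le_mul_of_nonneg_left h1 (by positivity)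
        _ = (X : ℝ) ^ (1 : ℝ) := by rw [← Real.rpow_add hX0]; norm_num
        _ = X := Real.rpow_one _
  have h15 : (20 : ℝ) ≤ (X : ℝ) ^ (1 / 9 : ℝ) := by
    have : ((20 : ℝ) ^ 9) ^ (1 / 9 : ℝ) ≤ (X : ℝ) ^ (1 / 9 : ℝ) :=
      Real.rpow_le_rpow (by positivity) hXr (by norm_num)
    refine le_trans (le_of_eq ?_) this
    rw [← Real.rpow_natCast, ← Real.rpow_mul (by norm_num)]
    norm_num
  have h20 : (20 : ℝ) ≤ μ := h15.trans h16
  have hPPdef : PP b X = ⌊μ / 4⌋₊ := rfl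
  have hfl : (PP b X : ℝ) ≤ μ / 4 := by
    rw [hPPdef]
    exact Nat.floor_le (by positivity)
  have hfl2 : μ / 4 - 1 ≤ PP b X := by
    rw [hPPdef]
    exact (Nat.sub_one_lt_floor _).le
  refine ⟨h20, by linarith, ?_, ?_⟩
  · have h1 : μ ≤ Real.sqrt X := min_le_left _ _
    linarith
  · have h1 : μ ≤ X / |(b : ℝ)| := min_le_right _ _
    have h2 : μ * |(b : ℝ)| ≤ X := by rwa [le_div_iff₀ hb0] at h1
    have h3 : (PP b X : ℝ) * |(b : ℝ)| ≤ μ / 4 * |(b : ℝ)| :=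
      mul_le_mul_of_nonneg_right hfl hb0.le
    linarith

theorem cnt_large2 (ε : ℝ) (hε : 0 < ε) (A : ℕ) : ∃ X₀ : ℕ, ∀ X : ℕ, X₀ ≤ X →
    ∀ b : ℤ, ¬ (3 : ℤ) ∣ b → |(b : ℝ)| ≤ (X : ℝ) ^ (8 / 9 - ε) →
    (((Ioc (X / 2) X).filter (fun m : ℕ => (2 : ℤ) ∣ (m : ℤ) - b ∧
      (cnt b (PP b X) (m : ℤ) : ℝ) < PP b X / Real.log X ^ (5 / 2 : ℝ))).card : ℝ) ≤
      (X : ℝ) / Real.log X ^ A := by
  classical
  obtain ⟨B₀, hB₀⟩ := fin1 ε hε (A + 1)
  obtain ⟨X₁, hX₁⟩ := hB₀ B₀ le_rfl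
  obtain ⟨X₂, hX₂⟩ := PP3_bounds ε hε
  obtain ⟨c, X₃, hc, hX₃⟩ := prod_ge B₀
  have hcast := tendsto_natCast_atTop_atTop (R := ℝ)
  have hlog : Filter.Tendsto (fun X : ℕ => Real.log X) Filter.atTop Filter.atTop :=
    Real.tendsto_log_atTop.comp hcast
  have e1 := hlog.eventually_ge_atTop 5
  have e2 : ∀ᶠ X : ℕ in Filter.atTop, 2 * c⁻¹ ≤ Real.log X ^ (23 / 50 : ℝ) :=
    ((tendsto_rpow_atTop (show (0 : ℝ) < 23 / 50 by norm_num)).comp hlog).eventually_ge_atTop _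
  obtain ⟨X₄, h4⟩ := Filter.eventually_atTop.1 (e1.and e2)
  refine ⟨X₁ + X₂ + X₃ + X₄ + 2, fun X hX b hb3 hb => ?_⟩
  obtain ⟨hL5, hLc⟩ := h4 X (by omega)
  have hb0 : b ≠ 0 := by
    rintro rfl
    exact hb3 (dvd_zero _)
  obtain ⟨p1, p2, p3, p4⟩ := hX₂ X (by omega) b hb0 hb
  have hX2 : 2 ≤ X := by omega
  have hXr : (2 : ℝ) ≤ X := by exact_mod_cast hX2
  have hX0 : (0 : ℝ) < X := by linarith only [hXr]
  obtain ⟨P, hPd⟩ : ∃ P : ℕ, P = PP b X := ⟨_, rfl⟩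
  rw [← hPd] at p2 p3 p4 ⊢
  obtain ⟨L, hLd⟩ : ∃ L : ℝ, L = Real.log X := ⟨_, rfl⟩
  rw [← hLd] at hL5 hLc ⊢
  have hL0 : 0 < L := by linarith only [hL5]
  have hL1 : 1 ≤ L := by linarith only [hL5]
  have hsq0 := Real.sqrt_nonneg (X : ℝ)
  have hP0 : (0 : ℝ) < P := by linarith only [p1, p2]
  have hsqX : Real.sqrt X ≤ X := by
    rw [Real.sqrt_le_left (by linarith only [hXr])]
    nlinarith only [hXr]
  have hPX : (P : ℝ) ≤ X := by linarith only [p3, hsq0, hsqX]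
  have hPXn : P ≤ X := by exact_mod_cast hPX
  have hLA : 5 ≤ L ^ (A + 1) := by
    calc (5 : ℝ) ≤ L := hL5
      _ = L ^ 1 := (pow_one L).symm
      _ ≤ L ^ (A + 1) := pow_le_pow_right₀ hL1 (by omega)
  have hmain := hX₁ X (by omega) b hb3 hb P (by linarith only [p3, hsq0]) (by linarith only [p4, hX0]) (by
    rw [← hLd]
    have : (P : ℝ) * 5 ≤ P * L ^ (A + 1) := mul_le_mul_of_nonneg_left hLA hP0.le
    linarith only [this, p2])
  rw [← hLd] at hmain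
  have hle : (X : ℝ) / L ^ (A + 1) ≤ X / L ^ A :=
    div_le_div_of_nonneg_left hX0.le (by positivity) (pow_le_pow_right₀ hL1 (by omega))
  refine le_trans ?_ (hmain.trans hle)
  have hsub : (Ioc (X / 2) X).filter (fun m : ℕ => (2 : ℤ) ∣ (m : ℤ) - b ∧
      (cnt b P (m : ℤ) : ℝ) < P / L ^ (5 / 2 : ℝ)) ⊆
      (Icc 1 X).filter (fun m : ℕ => (2 : ℤ) ∣ (m : ℤ) - b ∧
      2 * PI b (LC B₀ X) (m : ℤ) * Pm b P (m : ℤ) / L ^ (A + 1) <
        |RP b P (m : ℤ) - 2 * PI b (LC B₀ X) (m : ℤ) * Pm b P (m : ℤ)|) := by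
    intro m hm
    rw [mem_filter, mem_Ioc] at hm
    obtain ⟨⟨hm1, hm2⟩, hm3, hm4⟩ := hm
    rw [mem_filter, mem_Icc]
    refine ⟨⟨by omega, hm2⟩, hm3, ?_⟩
    by_contra hcon
    push Not at hcon
    refine absurd hm4 (not_lt.2 ?_)
    have hmX : (m : ℝ) ≤ X := by exact_mod_cast hm2
    have hmX2 : (X : ℝ) / 2 ≤ m := by
      have h4 : X ≤ 2 * m := by omega
      have h5 : (X : ℝ) ≤ 2 * m := by exact_mod_cast h4
      linarith only [h5]
    -- `Pm = P`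
    have hbn : ∀ n : ℕ, n ∈ Icc 1 P → |(b : ℝ)| * n ≤ X / 4 := by
      intro n hn
      rw [mem_Icc] at hn
      have h4 : (n : ℝ) ≤ P := by exact_mod_cast hn.2
      calc |(b : ℝ)| * n ≤ |(b : ℝ)| * P := mul_le_mul_of_nonneg_left h4 (abs_nonneg _)
        _ = P * |(b : ℝ)| := mul_comm _ _
        _ ≤ X / 4 := p4
    have hPm : Pm b P (m : ℤ) = P := by
      unfold Pm
      have : (Icc 1 P).filter (fun x : ℕ => gg b x < (m : ℤ)) = Icc 1 P := by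
        refine filter_true_of_mem fun n hn => ?_
        have h1 := hbn n hn
        rw [mem_Icc] at hn
        have h4 : (n : ℝ) ≤ P := by exact_mod_cast hn.2
        have h5 : (n : ℝ) ^ 2 ≤ X / 16 := by
          have h6 : (n : ℝ) ≤ Real.sqrt X / 4 := h4.trans p3
          have h7 : (n : ℝ) ^ 2 ≤ (Real.sqrt X / 4) ^ 2 := pow_le_pow_left₀ (Nat.cast_nonneg n) h6 2
          rw [div_pow, Real.sq_sqrt hX0.le] at h7
          norm_num at h7
          exact h7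
        have h8 : (b : ℝ) * n ≤ |(b : ℝ)| * n :=
          mul_le_mul_of_nonneg_right (le_abs_self _) (Nat.cast_nonneg n)
        have h9 : ((gg b n : ℤ) : ℝ) < ((m : ℤ) : ℝ) := by
          unfold gg
          push_cast
          linarith only [h1, h5, h8, hmX2, hX0]
        exact_mod_cast h9
      rw [this, Nat.card_Icc]
      omega
    -- lower bound for `RP`
    have hPI := hX₃ X (by omega) b hb3 (m : ℤ)
    rw [← hLd] at hPI
    have hPI' : c * L ^ (-(1 / 25) : ℝ) ≤ PI b (LC B₀ X) (m : ℤ) := hPI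
    rw [hPm] at hcon
    have hr0 : (0 : ℝ) < L ^ (-(1 / 25) : ℝ) := Real.rpow_pos_of_pos hL0 _
    have hcr : 0 < c * L ^ (-(1 / 25) : ℝ) := mul_pos hc hr0
    obtain ⟨Q, hQ⟩ : ∃ Q : ℝ, Q = PI b (LC B₀ X) (m : ℤ) := ⟨_, rfl⟩
    rw [← hQ] at hcon hPI'
    have hQ0 : 0 < Q := lt_of_lt_of_le hcr hPI'
    have hQP : 0 < Q * P := mul_pos hQ0 hP0
    have h10 : 2 * Q * P / L ^ (A + 1) ≤ Q * P := by
      rw [div_le_iff₀ (by positivity)]
      have : Q * P * 5 ≤ Q * P * L ^ (A + 1) := mul_le_mul_of_nonneg_left hLA hQP.le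
      linarith only [this, hQP]
    have h11 : Q * P ≤ RP b P (m : ℤ) := by
      have h12 := (abs_le.1 hcon).1
      linarith only [h12, h10]
    -- upper bound
    have h13 : RP b P (m : ℤ) ≤ (cnt b P (m : ℤ) : ℝ) * (2 * L ^ 2) := by
      unfold RP cnt
      rw [← nsmul_eq_mul, ← Finset.sum_const]
      refine Finset.sum_le_sum fun n hn => ?_
      rw [mem_filter] at hn
      obtain ⟨hn1, hn2, hn3⟩ := hn
      have h14 := hbn n hn1
      rw [mem_Icc] at hn1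
      have h15 : (n : ℝ) ≤ X := by
        have : (n : ℝ) ≤ P := by exact_mod_cast hn1.2
        exact this.trans hPX
      have h16 : Real.log n ≤ L := by
        rw [hLd]
        exact Real.log_le_log (by exact_mod_cast hn2.pos) h15
      have h17 : 0 ≤ Real.log n := Real.log_natCast_nonneg n
      have h18 : 0 < ((m : ℤ) - gg b n).toNat := hn3.pos
      have h19 : ((((m : ℤ) - gg b n).toNat : ℕ) : ℝ) ≤ 2 * X := by
        have h20 : ((((m : ℤ) - gg b n).toNat : ℕ) : ℤ) = (m : ℤ) - gg b n :=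
          Int.toNat_of_nonneg (by omega)
        have h21 : (((((m : ℤ) - gg b n).toNat : ℕ) : ℤ) : ℝ) = (((m : ℤ) - gg b n : ℤ) : ℝ) := by
          rw [h20]
        rw [Int.cast_natCast] at h21
        rw [h21]
        unfold gg
        push_cast
        have h22 : -((b : ℝ) * n) ≤ |(b : ℝ)| * n := by
          calc -((b : ℝ) * n) ≤ |(b : ℝ) * n| := neg_le_abs _
            _ = |(b : ℝ)| * n := by rw [abs_mul, Nat.abs_cast]
        have h23 := sq_nonneg (n : ℝ)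
        linarith only [h14, h22, h23, hmX, hX0]
      have h24 : Real.log (((m : ℤ) - gg b n).toNat : ℝ) ≤ 2 * L := by
        have h25 : Real.log (((m : ℤ) - gg b n).toNat : ℝ) ≤ Real.log (2 * X) :=
          Real.log_le_log (by exact_mod_cast h18) h19
        rw [Real.log_mul (by norm_num) hX0.ne', ← hLd] at h25
        have h26 : Real.log 2 ≤ L := by
          rw [hLd]
          exact Real.log_le_log (by norm_num) hXr
        linarith only [h25, h26]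
      have h27 : 0 ≤ Real.log (((m : ℤ) - gg b n).toNat : ℝ) := Real.log_natCast_nonneg _
      calc Real.log n * Real.log (((m : ℤ) - gg b n).toNat : ℝ) ≤ L * (2 * L) :=
            mul_le_mul h16 h24 h27 hL0.le
        _ = 2 * L ^ 2 := by ring
    -- conclusion
    have h28 : L ^ (5 / 2 : ℝ) * (c * L ^ (-(1 / 25) : ℝ)) = c * L ^ (23 / 50 : ℝ) * L ^ 2 := by
      have h29 : L ^ (5 / 2 : ℝ) * L ^ (-(1 / 25) : ℝ) = L ^ (23 / 50 : ℝ) * L ^ 2 := by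
        rw [← Real.rpow_natCast L 2, ← Real.rpow_add hL0, ← Real.rpow_add hL0]
        norm_num
      calc L ^ (5 / 2 : ℝ) * (c * L ^ (-(1 / 25) : ℝ)) =
            c * (L ^ (5 / 2 : ℝ) * L ^ (-(1 / 25) : ℝ)) := by ring
        _ = c * L ^ (23 / 50 : ℝ) * L ^ 2 := by rw [h29]; ring
    have h30 : 2 ≤ c * L ^ (23 / 50 : ℝ) := by
      calc (2 : ℝ) = c * (2 * c⁻¹) := by field_simp
        _ ≤ c * L ^ (23 / 50 : ℝ) := mul_le_mul_of_nonneg_left hLc hc.le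
    have h52 : (0 : ℝ) < L ^ (5 / 2 : ℝ) := Real.rpow_pos_of_pos hL0 _
    rw [div_le_iff₀ h52]
    have h31 : 2 * L ^ 2 ≤ L ^ (5 / 2 : ℝ) * Q := by
      calc 2 * L ^ 2 ≤ c * L ^ (23 / 50 : ℝ) * L ^ 2 :=
            mul_le_mul_of_nonneg_right h30 (by positivity)
        _ = L ^ (5 / 2 : ℝ) * (c * L ^ (-(1 / 25) : ℝ)) := h28.symm
        _ ≤ L ^ (5 / 2 : ℝ) * Q := mul_le_mul_of_nonneg_left hPI' h52.le
    have h32 : (P : ℝ) * (2 * L ^ 2) ≤ (cnt b P (m : ℤ) : ℝ) * L ^ (5 / 2 : ℝ) * (2 * L ^ 2) := by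
      calc (P : ℝ) * (2 * L ^ 2) ≤ P * (L ^ (5 / 2 : ℝ) * Q) :=
            mul_le_mul_of_nonneg_left h31 hP0.le
        _ = L ^ (5 / 2 : ℝ) * (Q * P) := by ring
        _ ≤ L ^ (5 / 2 : ℝ) * ((cnt b P (m : ℤ) : ℝ) * (2 * L ^ 2)) :=
            mul_le_mul_of_nonneg_left (h11.trans h13) h52.le
        _ = (cnt b P (m : ℤ) : ℝ) * L ^ (5 / 2 : ℝ) * (2 * L ^ 2) := by ring
    exact le_of_mul_le_mul_right h32 (by positivity)
  exact_mod_cast Finset.card_le_card hsub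

open Classical in
/-- one dyadic block -/
theorem Z3_block2 (ε : ℝ) (hε : 0 < ε) (A : ℕ) : ∃ X₀ : ℕ, ∀ X : ℕ, X₀ ≤ X →
    ∀ b c : ℤ, ¬ (3 : ℤ) ∣ b → |(b : ℝ)| ≤ (X : ℝ) ^ (8 / 9 - ε) →
    (((Ioc (X / 2) X).filter (Z3Bad b c)).card : ℝ) ≤ (X : ℝ) / Real.log X ^ A := by
  obtain ⟨X₁, h₁⟩ := cnt_large2 ε hε A
  obtain ⟨X₂, h₂⟩ := PP3_bounds ε hε
  obtain ⟨X₃, h₃⟩ : ∃ X₃ : ℕ, ∀ X : ℕ, X₃ ≤ X → (100 : ℝ) ≤ Real.log X := by
    have h : Filter.Tendsto (fun X : ℕ => Real.log (X : ℝ)) Filter.atTop Filter.atTop :=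
      Real.tendsto_log_atTop.comp tendsto_natCast_atTop_atTop
    obtain ⟨X₃, h⟩ := Filter.eventually_atTop.1 (h.eventually_ge_atTop 100)
    exact ⟨X₃, h⟩
  refine ⟨max X₁ (max X₂ (max X₃ 2)), fun X hX b c hb3 hb => ?_⟩
  have hX1 : X₁ ≤ X := (le_max_left _ _).trans hX
  have hX2 : X₂ ≤ X := (le_max_left _ _).trans ((le_max_right _ _).trans hX)
  have hX3 : X₃ ≤ X := (le_max_left _ _).trans ((le_max_right _ _).trans
    ((le_max_right _ _).trans hX))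
  have hX4 : 2 ≤ X := (le_max_right _ _).trans ((le_max_right _ _).trans
    ((le_max_right _ _).trans hX))
  have hb0 : b ≠ 0 := by
    rintro rfl
    exact hb3 (dvd_zero 3)
  have hbpos : 0 < |(b : ℝ)| := abs_pos.2 (by exact_mod_cast hb0)
  have hPP := (h₂ X hX2 b hb0 hb).2.1
  have hlog := h₃ X hX3
  refine le_trans ?_ (h₁ X hX1 b hb3 hb)
  have hsub : (Ioc (X / 2) X).filter (Z3Bad b c) ⊆
      (Ioc (X / 2) X).filter (fun m : ℕ => (2 : ℤ) ∣ (m : ℤ) - b ∧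
        (cnt b (PP b X) (m : ℤ) : ℝ) < PP b X / Real.log X ^ (5 / 2 : ℝ)) := by
    intro m hm
    rw [Finset.mem_filter] at hm ⊢
    refine ⟨hm.1, hm.2.1, ?_⟩
    by_contra hcon
    push Not at hcon
    have hmI := Finset.mem_Ioc.1 hm.1
    have hm1 : 1 ≤ m := by omega
    have hmX : (m : ℝ) ≤ X := by exact_mod_cast hmI.2
    have hmX2 : (X : ℝ) / 2 ≤ m := by
      have h4 : X ≤ 2 * m := by omega
      have h5 : (X : ℝ) ≤ 2 * m := by exact_mod_cast h4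
      linarith
    have hm0 : (0 : ℝ) < m := by exact_mod_cast hm1
    have hX0 : (0 : ℝ) < X := by linarith
    -- comparison of the logarithms
    have hlm : Real.log X - 1 ≤ Real.log m := by
      have h6 : Real.log (X / 2 : ℝ) ≤ Real.log m := Real.log_le_log (by positivity) hmX2
      rw [Real.log_div hX0.ne' (by norm_num)] at h6
      have h7 : Real.log 2 ≤ 1 := by
        have := Real.log_two_lt_d9
        linarith
      linarith
    set l := Real.log (X : ℝ) with hl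
    have hl0 : (0 : ℝ) < l := by linarith
    have hpow : (5 : ℝ) * l ^ (5 / 2 : ℝ) ≤ Real.log m ^ 3 := by
      have h8 : (l - 1) ^ 3 ≤ Real.log m ^ 3 := pow_le_pow_left₀ (by linarith) hlm 3
      have h9 : l ^ (5 / 2 : ℝ) = l ^ 3 * (l ^ (1 / 2 : ℝ))⁻¹ := by
        rw [← Real.rpow_neg hl0.le, ← Real.rpow_natCast l 3, ← Real.rpow_add hl0]
        norm_num
      have h10 : (10 : ℝ) ≤ l ^ (1 / 2 : ℝ) := by
        rw [← Real.sqrt_eq_rpow]
        apply Real.le_sqrt_of_sq_le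
        linarith
      have h11 : (l ^ (1 / 2 : ℝ))⁻¹ ≤ 1 / 10 := by
        rw [inv_eq_one_div]
        exact one_div_le_one_div_of_le (by norm_num) h10
      have h12 : l ^ (5 / 2 : ℝ) ≤ l ^ 3 / 10 := by
        rw [h9]
        have : 0 < l ^ 3 := by positivity
        nlinarith
      have h13 : l ^ 3 / 2 ≤ (l - 1) ^ 3 := by nlinarith [sq_nonneg (l - 1), sq_nonneg l]
      linarith
    have hlm0 : 0 < Real.log m ^ 3 := pow_pos (by linarith) 3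
    have hle : (cnt b (PP b X) (m : ℤ) : ℝ) ≤ ((Reps b c (c + m)).ncard : ℝ) := by
      exact_mod_cast Z3_cnt_le b c (PP b X) m
    have hmin : min (Real.sqrt m) ((m : ℝ) / |(b : ℝ)|) ≤
        min (Real.sqrt X) ((X : ℝ) / |(b : ℝ)|) :=
      min_le_min (Real.sqrt_le_sqrt hmX) (by gcongr)
    have hmin0 : 0 ≤ min (Real.sqrt m) ((m : ℝ) / |(b : ℝ)|) :=
      le_min (Real.sqrt_nonneg _) (by positivity)
    have hr0 : 0 < l ^ (5 / 2 : ℝ) := Real.rpow_pos_of_pos hl0 _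
    have h14 : min (Real.sqrt m) ((m : ℝ) / |(b : ℝ)|) / Real.log m ^ 3 ≤
        min (Real.sqrt m) ((m : ℝ) / |(b : ℝ)|) / (5 * l ^ (5 / 2 : ℝ)) :=
      div_le_div_of_nonneg_left hmin0 (by positivity) hpow
    have h15 : min (Real.sqrt m) ((m : ℝ) / |(b : ℝ)|) / (5 * l ^ (5 / 2 : ℝ)) ≤
        PP b X / l ^ (5 / 2 : ℝ) := by
      rw [← div_div]
      gcongr
      exact (div_le_div_of_nonneg_right hmin (by norm_num)).trans hPP
    linarith [hm.2.2]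
  exact_mod_cast Finset.card_le_card hsub

theorem uniform2 (ε A : ℝ) (hε : 0 < ε) : ∃ X₀ : ℝ, ∀ X : ℝ, X₀ ≤ X → ∀ b c : ℤ, Odd (b + c) →
    ¬ (3 : ℤ) ∣ b → |(b : ℝ)| ≤ X ^ (8 / 9 - ε) →
    ((Few b c X).ncard : ℝ) ≤ X / Real.log X ^ A := by
  classical
  set ε₁ : ℝ := min ε (1 / 2) with hε₁
  have hε₁0 : 0 < ε₁ := lt_min hε (by norm_num)
  have hε₁h : ε₁ ≤ 1 / 2 := min_le_right _ _
  set K : ℕ := ⌈A⌉₊ + 1 with hK
  obtain ⟨X₁, hblock⟩ := Z3_block2 (ε₁ / 2) (by linarith) (K + 1)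
  set δ : ℝ := ε₁ / 2 with hδ
  have hδ0 : 0 < δ := by linarith
  -- eventually `2 (log X)^K ≤ X^δ`
  have hev1 : ∀ᶠ X : ℝ in Filter.atTop, 2 * Real.log X ^ K ≤ X ^ δ := by
    have h1 := (isLittleO_log_rpow_rpow_atTop (K : ℝ) hδ0).def (c := 1 / 2) (by norm_num)
    filter_upwards [h1, Filter.eventually_ge_atTop (1 : ℝ)] with X h2 hX
    have h3 : 0 ≤ Real.log X := Real.log_nonneg hX
    rw [Real.rpow_natCast, Real.norm_of_nonneg (by positivity),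
      Real.norm_of_nonneg (by positivity)] at h2
    linarith
  have hev2 : ∀ᶠ X : ℝ in Filter.atTop, (2 : ℝ) ^ (K + 4) ≤ Real.log X :=
    Real.tendsto_log_atTop.eventually_ge_atTop _
  have hev3 : ∀ᶠ X : ℝ in Filter.atTop, ((X₁ : ℝ) + 1) ^ 2 ≤ X :=
    Filter.eventually_ge_atTop _
  obtain ⟨X₀, hX₀⟩ := Filter.eventually_atTop.1
    ((hev1.and hev2).and (hev3.and (Filter.eventually_ge_atTop (2 : ℝ))))
  refine ⟨X₀, fun X hXX b c hbc hb3 hb => ?_⟩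
  obtain ⟨⟨h1, h2⟩, h3, h4⟩ := hX₀ X hXX
  have hX0 : (0 : ℝ) < X := by linarith
  have hX1 : (1 : ℝ) ≤ X := by linarith
  have h2K : (1 : ℝ) ≤ (2 : ℝ) ^ (K + 4) := one_le_pow₀ (by norm_num)
  have hl1 : (1 : ℝ) ≤ Real.log X := h2K.trans h2
  have hl0 : (0 : ℝ) < Real.log X := by linarith
  have hlK : (0 : ℝ) < Real.log X ^ K := by positivity
  set M : ℝ := X / (2 * Real.log X ^ K) with hM
  have hM0 : 0 < M := by positivity
  -- `M ≥ X^(1-δ)`
  have hM1 : X ^ (1 - δ) ≤ M := by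
    rw [hM, Real.rpow_sub hX0, Real.rpow_one]
    exact div_le_div_of_nonneg_left hX0.le (by positivity) h1
  have hM2 : Real.sqrt X ≤ M := by
    refine le_trans ?_ hM1
    rw [Real.sqrt_eq_rpow]
    exact Real.rpow_le_rpow_of_exponent_le hX1 (by linarith)
  have hM3 : (X₁ : ℝ) + 1 ≤ M := by
    refine le_trans ?_ hM2
    exact Real.le_sqrt_of_sq_le h3
  have hM4 : Real.log X / 2 ≤ Real.log M := by
    have h5 : Real.log (Real.sqrt X) ≤ Real.log M := Real.log_le_log (Real.sqrt_pos.2 hX0) hM2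
    rwa [Real.log_sqrt hX0.le] at h5
  have hbM : |(b : ℝ)| ≤ M ^ (8 / 9 - δ) := by
    have h6 : X ^ (8 / 9 - ε) ≤ X ^ ((1 - δ) * (8 / 9 - δ)) := by
      apply Real.rpow_le_rpow_of_exponent_le hX1
      have h7 : ε₁ ≤ ε := min_le_left _ _
      have h8 : ε₁ = 2 * δ := by rw [hδ]; ring
      nlinarith
    rw [Real.rpow_mul hX0.le] at h6
    exact hb.trans (h6.trans (Real.rpow_le_rpow (by positivity) hM1 (by linarith)))
  -- the blocks
  have hlM0 : 0 < Real.log M := by linarith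
  have hb' : ∀ N : ℕ, M ≤ N → (N : ℝ) ≤ X →
      (((Ioc (N / 2) N).filter (Z3Bad b c)).card : ℝ) ≤ N * (1 / Real.log M ^ (K + 1)) := by
    intro N hMN _
    have h9 : X₁ ≤ N := by
      have : (X₁ : ℝ) ≤ N := by linarith
      exact_mod_cast this
    have h10 : |(b : ℝ)| ≤ (N : ℝ) ^ (8 / 9 - ε₁ / 2) :=
      hbM.trans (Real.rpow_le_rpow hM0.le hMN (by linarith))
    refine (hblock N h9 b c hb3 h10).trans ?_
    rw [div_eq_mul_one_div]
    have hlog : Real.log M ≤ Real.log N := Real.log_le_log hM0 hMN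
    have hN0 : (0 : ℝ) ≤ N := Nat.cast_nonneg N
    gcongr
  have hfloor : ((⌊X⌋₊ : ℕ) : ℝ) ≤ X := Nat.floor_le hX0.le
  have hsum := Z3_sum (Z3Bad b c) M (1 / Real.log M ^ (K + 1)) hM0 (by positivity) X hb' ⌊X⌋₊ hfloor
  have hfew : ((Few b c X).ncard : ℝ) ≤ (((Icc 1 ⌊X⌋₊).filter (Z3Bad b c)).card : ℝ) := by
    exact_mod_cast Z3_few_le b c X hX0.le hbc
  -- final numerics
  have h11 : 2 * ((⌊X⌋₊ : ℕ) : ℝ) * (1 / Real.log M ^ (K + 1)) ≤ X / (2 * Real.log X ^ K) := by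
    have h12 : (Real.log X / 2) ^ (K + 1) ≤ Real.log M ^ (K + 1) :=
      pow_le_pow_left₀ (by positivity) hM4 _
    have h13 : 4 * Real.log X ^ K ≤ (Real.log X / 2) ^ (K + 1) := by
      have h14 : (Real.log X / 2) ^ (K + 1) = Real.log X ^ K * (Real.log X / 2 ^ (K + 1)) := by
        rw [div_pow, pow_succ]; ring
      rw [h14, mul_comm]
      refine mul_le_mul_of_nonneg_left ?_ hlK.le
      rw [le_div_iff₀ (by positivity)]
      have h15 : (2 : ℝ) ^ (K + 4) = 8 * 2 ^ (K + 1) := by ring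
      have h16 : (0 : ℝ) < 2 ^ (K + 1) := by positivity
      linarith
    have h17 : 4 * Real.log X ^ K ≤ Real.log M ^ (K + 1) := h13.trans h12
    calc 2 * ((⌊X⌋₊ : ℕ) : ℝ) * (1 / Real.log M ^ (K + 1)) ≤ 2 * X * (1 / (4 * Real.log X ^ K)) := by
          gcongr
      _ = X / (2 * Real.log X ^ K) := by field_simp; norm_num
  have h18 : M + X / (2 * Real.log X ^ K) = X / Real.log X ^ K := by
    rw [hM]; field_simp; norm_num
  have h19 : X / Real.log X ^ K ≤ X / Real.log X ^ A := by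
    apply div_le_div_of_nonneg_left hX0.le (Real.rpow_pos_of_pos hl0 _)
    rw [← Real.rpow_natCast]
    apply Real.rpow_le_rpow_of_exponent_le hl1
    have := Nat.le_ceil A
    rw [hK]; push_cast; linarith
  linarith

end Pool.Agent.Lib.MP_d9bc60_nt.VA
end
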