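import Pool.Agent.Lib.MP_d9bc60_nt.UV.PDefs

section
/-! Row va-Pm (about 80 lines): the range of the first prime. -/

set_option autoImplicit false

namespace Pool.Agent.Lib.MP_d9bc60_nt.VA

open Finset UV

/-- the number of `x ∈ [1, P]` with `g(x) < m` -/
def Pm (b : ℤ) (P : ℕ) (m : ℤ) : ℕ := ((Icc 1 P).filter (fun x : ℕ => gg b x < m)).card

theorem vpm_down (S : Finset ℕ) (h1 : ∀ x ∈ S, 1 ≤ x)
    (h2 : ∀ x ∈ S, ∀ y : ℕ, 1 ≤ y → y ≤ x → y ∈ S) : S = Icc 1 S.card := by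
  rcases S.eq_empty_or_nonempty with h | h
  · subst h
    simp
  · have h3 : S = Icc 1 (S.max' h) := by
      ext y
      rw [mem_Icc]
      constructor
      · intro hy
        exact ⟨h1 y hy, S.le_max' y hy⟩
      · rintro ⟨hy1, hy2⟩
        exact h2 _ (S.max'_mem h) y hy1 hy2
    have h4 : S.card = S.max' h := by
      conv_lhs => rw [h3]
      simp
    rw [h4]
    exact h3

/-- Proof. `g` is convex with `g(0) = 0 < m`: if `g(x) < m` and `1 ≤ x' ≤ x` then `g(x') < m`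
(`g(x') ≤ max(0, g(x))`: `x'(x'+b) ≤ 0` if `x' + b ≤ 0`, else `x'(x'+b) ≤ x(x+b)`). -/
theorem Pm_filter (b : ℤ) (P : ℕ) (m : ℤ) (hm : 1 ≤ m) :
    (Icc 1 P).filter (fun x : ℕ => gg b x < m) = Icc 1 (Pm b P m) := by
  unfold Pm
  apply vpm_down
  · intro x hx
    rw [mem_filter, mem_Icc] at hx
    exact hx.1.1
  · intro x hx y hy1 hy2
    rw [mem_filter, mem_Icc] at hx ⊢
    refine ⟨⟨hy1, le_trans hy2 hx.1.2⟩, ?_⟩
    have h3 := hx.2
    unfold gg at h3 ⊢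
    have hy1' : (1 : ℤ) ≤ (y : ℤ) := by exact_mod_cast hy1
    have hy2' : (y : ℤ) ≤ (x : ℤ) := by exact_mod_cast hy2
    rcases le_or_gt ((y : ℤ) + b) 0 with h | h
    · have h4 : (y : ℤ) * ((y : ℤ) + b) ≤ 0 :=
        mul_nonpos_of_nonneg_of_nonpos (by omega) h
      nlinarith
    · have h4 : (y : ℤ) * ((y : ℤ) + b) ≤ (x : ℤ) * ((x : ℤ) + b) :=
        mul_le_mul hy2' (by omega) h.le (by omega)
      nlinarith

theorem Pm_le (b : ℤ) (P : ℕ) (m : ℤ) : Pm b P m ≤ P := by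
  unfold Pm
  refine le_trans (card_filter_le _ _) ?_
  simp

/-- Proof. Every `x ≤ P/(2L)` (`L ≥ 1` real) has `x² ≤ m/4·...`: `x² ≤ X/(4L²) ≤ m/4` and
`|b| x ≤ X/(2L) ≤ m/2`, so `g(x) ≤ 3m/4 < m`; there are at least `⌊P/(2L)⌋ ≥ P/(4L)` of them
(`P ≥ 4L`). -/
theorem Pm_ge (b : ℤ) (P X : ℕ) (m : ℤ) (L : ℝ) (hL : 1 ≤ L) (hP : 4 * L ≤ P)
    (hP1 : (P : ℝ) ≤ Real.sqrt X) (hP2 : (P : ℝ) * |(b : ℝ)| ≤ X) (hm : (X : ℝ) / L ≤ m) :
    (P : ℝ) / (4 * L) ≤ Pm b P m := by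
  have hL0 : (0 : ℝ) < L := by linarith
  have hP0 : (4 : ℝ) ≤ P := by linarith
  have hX0 : (0 : ℝ) ≤ X := Nat.cast_nonneg X
  have hPX : (P : ℝ) ^ 2 ≤ X := by
    have h := Real.sq_sqrt hX0
    have h' : (P : ℝ) ^ 2 ≤ (Real.sqrt X) ^ 2 :=
      pow_le_pow_left₀ (by linarith) hP1 2
    linarith
  have hX1 : (0 : ℝ) < X := by nlinarith
  have hsub : Icc 1 ⌊(P : ℝ) / (2 * L)⌋₊ ⊆ (Icc 1 P).filter (fun x : ℕ => gg b x < m) := by
    intro x hx
    rw [mem_Icc] at hx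
    have hx1 : (x : ℝ) ≤ (P : ℝ) / (2 * L) :=
      le_trans (by exact_mod_cast hx.2) (Nat.floor_le (by positivity))
    have hx0 : (0 : ℝ) ≤ x := Nat.cast_nonneg x
    have hxP : (x : ℝ) ≤ P := by
      refine le_trans hx1 ?_
      rw [div_le_iff₀ (by positivity)]
      nlinarith
    rw [mem_filter, mem_Icc]
    refine ⟨⟨hx.1, by exact_mod_cast hxP⟩, ?_⟩
    have h2 : (x : ℝ) * (2 * L) ≤ P := by
      rwa [le_div_iff₀ (by positivity)] at hx1
    have h3 : ((gg b x : ℤ) : ℝ) < (m : ℝ) := by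
      unfold gg
      push_cast
      have h4 : (b : ℝ) * x ≤ |(b : ℝ)| * x :=
        mul_le_mul_of_nonneg_right (le_abs_self _) hx0
      have h5 : (x : ℝ) ^ 2 * (4 * L ^ 2) ≤ X := by
        have : ((x : ℝ) * (2 * L)) ^ 2 ≤ (P : ℝ) ^ 2 :=
          pow_le_pow_left₀ (by positivity) h2 2
        nlinarith
      have h6 : |(b : ℝ)| * x * (2 * L) ≤ X := by
        have h7 : |(b : ℝ)| * (x * (2 * L)) ≤ |(b : ℝ)| * P :=
          mul_le_mul_of_nonneg_left h2 (abs_nonneg _)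
        nlinarith
      have h8 : (x : ℝ) ^ 2 ≤ X / (4 * L) := by
        rw [le_div_iff₀ (by positivity)]
        have h9 : (x : ℝ) ^ 2 * (4 * L) ≤ (x : ℝ) ^ 2 * (4 * L ^ 2) :=
          mul_le_mul_of_nonneg_left (by nlinarith) (by positivity)
        linarith
      have h9 : |(b : ℝ)| * x ≤ X / (2 * L) := by
        rw [le_div_iff₀ (by positivity)]
        exact h6
      have h10 : (X : ℝ) / (4 * L) + X / (2 * L) < X / L := by
        have e1 : (X : ℝ) / (4 * L) = (X / L) * (1 / 4) := by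
          field_simp
        have e2 : (X : ℝ) / (2 * L) = (X / L) * (1 / 2) := by
          field_simp
        have e3 : (0 : ℝ) < X / L := by positivity
        rw [e1, e2]
        linarith
      linarith
    exact_mod_cast h3
  have hcard := card_le_card hsub
  rw [Nat.card_Icc, Nat.add_sub_cancel] at hcard
  have hfl : (P : ℝ) / (2 * L) - 1 ≤ (⌊(P : ℝ) / (2 * L)⌋₊ : ℝ) :=
    (Nat.sub_one_lt_floor _).le
  have h11 : (P : ℝ) / (4 * L) ≤ (P : ℝ) / (2 * L) - 1 := by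
    have e1 : (P : ℝ) / (2 * L) = (P : ℝ) / (4 * L) + (P : ℝ) / (4 * L) := by
      field_simp
      ring
    have e2 : (1 : ℝ) ≤ (P : ℝ) / (4 * L) := by
      rw [le_div_iff₀ (by positivity)]
      linarith
    linarith
  have hc2 : ((⌊(P : ℝ) / (2 * L)⌋₊ : ℕ) : ℝ) ≤ (Pm b P m : ℝ) := by
    unfold Pm
    exact_mod_cast hcard
  linarith

end Pool.Agent.Lib.MP_d9bc60_nt.VA
end
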