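import Pool.Agent.Lib.MP_d9bc60_nt.UV.PArcs
import Pool.Agent.Lib.MP_d9bc60_nt.VA.VPm

section
/-! Row va-Pars (about 90 lines): Parseval with truncation. -/

set_option autoImplicit false

namespace Pool.Agent.Lib.MP_d9bc60_nt.VA

open Finset UV

/-- Proof. As `UV.parseval_use`: `S_f D = ∑_m c(m) e(mα)` with
`c(m) = ∑_{n ≤ P, 1 ≤ m - g(n) ≤ N} Λ(n) u(m - g(n))`; for `m ∈ J` this is `RL - RQ b Q (Pm b P m) m`: the
terms with `m - g(n) ≤ 0` of `RL` are `0` (`toNat = 0`, `vm 0 = 0`), and `Pm_filter`. -/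
theorem parseval_use2 (b : ℤ) (P Q N : ℕ) (J : Finset ℤ) (hJ : ∀ m ∈ J, 1 ≤ m)
    (h : ∀ m ∈ J, ∀ n ∈ Icc 1 P, m - gg b n ≤ N) :
    ∑ m ∈ J, (RL b P m - RQ b Q (Pm b P m) m) ^ 2 ≤
      ∫ α in (0 : ℝ)..1, ‖Sf b P α‖ ^ 2 * ‖DD Q N α‖ ^ 2 := by
  classical
  let pr : Finset (ℕ × ℕ) := (Icc 1 P) ×ˢ (Icc 1 N)
  let M : Finset ℤ := J ∪ pr.image (fun x => gg b x.1 + (x.2 : ℤ))
  let c : ℤ → ℝ := fun m => ∑ x ∈ pr.filter (fun x => gg b x.1 + (x.2 : ℤ) = m), vm x.1 * uu Q x.2
  have h1 : ∀ α : ℝ, Sf b P α * DD Q N α = ∑ m ∈ M, ((c m : ℝ) : ℂ) * e (α * m) := by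
    intro α
    unfold Sf DD
    rw [Finset.sum_mul_sum, ← Finset.sum_product']
    have h2 : ∀ x ∈ pr, gg b x.1 + (x.2 : ℤ) ∈ M := by
      intro x hx
      exact Finset.mem_union_right _ (Finset.mem_image_of_mem _ hx)
    rw [← Finset.sum_fiberwise_of_maps_to h2]
    refine Finset.sum_congr rfl fun m _ => ?_
    simp only [c]
    push_cast
    rw [Finset.sum_mul]
    refine Finset.sum_congr rfl fun x hx => ?_
    have hx2 := (Finset.mem_filter.1 hx).2
    have h3 : e (α * m) = e (α * (gg b x.1 : ℝ)) * e (α * (x.2 : ℝ)) := by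
      rw [← e_add, ← hx2]; congr 1; push_cast; ring
    rw [h3]; ring
  have h4 : ∀ α : ℝ, ‖Sf b P α‖ ^ 2 * ‖DD Q N α‖ ^ 2 = ‖∑ m ∈ M, ((c m : ℝ) : ℂ) * e (α * m)‖ ^ 2 := by
    intro α
    rw [← h1, norm_mul, mul_pow]
  simp_rw [h4]
  rw [parseval M (fun m => ((c m : ℝ) : ℂ))]
  have h5 : ∀ m ∈ J, RL b P m - RQ b Q (Pm b P m) m = c m := by
    intro m hm
    have hRQ : RQ b Q (Pm b P m) m
        = ∑ n ∈ Icc 1 P, if gg b n < m then vm n * vmQ Q (m - gg b n) else 0 := by
      unfold RQ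
      rw [← Pm_filter b P m (hJ m hm), Finset.sum_filter]
    rw [hRQ]
    unfold RL
    rw [← Finset.sum_sub_distrib]
    simp only [c]
    rw [Finset.sum_filter, Finset.sum_product]
    refine Finset.sum_congr rfl fun n hn => ?_
    have hb := h m hm n hn
    by_cases hg : gg b n < m
    · rw [if_pos hg, Finset.sum_eq_single (m - gg b n).toNat]
      · have h6 : (((m - gg b n).toNat : ℕ) : ℤ) = m - gg b n := Int.toNat_of_nonneg (by omega)
        rw [if_pos (by simp only [h6]; ring)]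
        unfold uu
        rw [h6]; ring
      · intro k _ hk
        rw [if_neg]
        intro h7
        apply hk
        simp only at h7
        omega
      · intro h7
        exfalso
        apply h7
        rw [Finset.mem_Icc]
        omega
    · rw [if_neg hg, Finset.sum_eq_zero]
      · have h8 : (m - gg b n).toNat = 0 := by omega
        rw [h8]
        have h9 : vm 0 = 0 := by
          unfold vm
          simp
        rw [h9]; ring
      · intro k hk
        rw [if_neg]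
        intro h7
        rw [Finset.mem_Icc] at hk
        simp only at h7
        omega
  rw [Finset.sum_congr rfl fun m hm => by rw [h5 m hm]]
  have h6 : ∀ m, ‖((c m : ℝ) : ℂ)‖ ^ 2 = c m ^ 2 := by
    intro m
    rw [Complex.norm_real, Real.norm_eq_abs, sq_abs]
  simp_rw [h6]
  exact Finset.sum_le_sum_of_subset_of_nonneg Finset.subset_union_left fun _ _ _ => sq_nonneg _

end Pool.Agent.Lib.MP_d9bc60_nt.VA
end
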