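import Pool.Agent.Lib.MP_d9bc60_nt.UV.PFinal

section
/-! Row va-Pow (about 130 lines, adapt `UV.z2_*`): the proper prime powers are negligible for almost all `m`. -/

set_option autoImplicit false

namespace Pool.Agent.Lib.MP_d9bc60_nt.VA

open Finset UV

/-- `∑ log p log (m - g(p))` over the primes `p ≤ P` with `m - g(p)` prime -/
noncomputable def RP (b : ℤ) (P : ℕ) (m : ℤ) : ℝ :=
  ∑ p ∈ (Icc 1 P).filter (fun p : ℕ => p.Prime ∧ (m - gg b p).toNat.Prime),
    Real.log p * Real.log ((m - gg b p).toNat : ℝ)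

/-- the difference as a sum over the pairs which are not both prime -/
theorem vpow_diff (b : ℤ) (P m X : ℕ) (hX : 2 ≤ X) (hP : P ≤ X)
    (hk : ∀ n ∈ Icc 1 P, ((m : ℤ) - gg b n).toNat ≤ 2 * X) :
    |RL b P (m : ℤ) - RP b P (m : ℤ)| ≤ 2 * Real.log X ^ 2 *
      ((((Icc 1 P).filter (fun n => IsPrimePow n ∧ ¬ n.Prime)).card : ℝ) +
        ((z2_S3 b P m).card : ℝ)) := by
  classical
  have hX' : (2 : ℝ) ≤ X := by exact_mod_cast hX
  have h0 : 0 ≤ Real.log X := Real.log_nonneg (by linarith)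
  have hc2 : (((Icc 1 P).filter (fun n => IsPrimePow n ∧ ¬ n.Prime)).card : ℝ) =
      ∑ n ∈ Icc 1 P, (if (IsPrimePow n ∧ ¬ n.Prime) then (1 : ℝ) else 0) := by
    rw [Finset.sum_boole]
  have hc3 : ((z2_S3 b P m).card : ℝ) = ∑ n ∈ Icc 1 P,
      (if (IsPrimePow ((m : ℤ) - gg b n).toNat ∧ ¬ ((m : ℤ) - gg b n).toNat.Prime)
        then (1 : ℝ) else 0) := by
    unfold z2_S3
    rw [Finset.sum_boole]
  have hd : RL b P (m : ℤ) - RP b P (m : ℤ) = ∑ n ∈ Icc 1 P,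
      (if (n.Prime ∧ ((m : ℤ) - gg b n).toNat.Prime) then (0 : ℝ)
        else vm n * vm ((m : ℤ) - gg b n).toNat) := by
    unfold RL RP
    rw [Finset.sum_filter, ← Finset.sum_sub_distrib]
    refine Finset.sum_congr rfl fun n _ => ?_
    by_cases c : n.Prime ∧ ((m : ℤ) - gg b n).toNat.Prime
    · rw [if_pos c, if_pos c]
      unfold vm
      rw [ArithmeticFunction.vonMangoldt_apply_prime c.1,
        ArithmeticFunction.vonMangoldt_apply_prime c.2]
      ring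
    · rw [if_neg c, if_neg c, sub_zero]
  have hnn : 0 ≤ RL b P (m : ℤ) - RP b P (m : ℤ) := by
    rw [hd]
    refine Finset.sum_nonneg fun n _ => ?_
    split_ifs
    · exact le_rfl
    · exact mul_nonneg (z2_vm_nonneg _) (z2_vm_nonneg _)
  rw [abs_of_nonneg hnn, hd, hc2, hc3, ← Finset.sum_add_distrib, Finset.mul_sum]
  refine Finset.sum_le_sum fun n hn => ?_
  have hn' := mem_Icc.1 hn
  have hv1 : vm n ≤ Real.log X := z2_vm_le' n X hX (hn'.2.trans hP)
  have hv2 : vm ((m : ℤ) - gg b n).toNat ≤ 2 * Real.log X := z2_vm_le _ X hX (hk n hn)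
  have hv3 := z2_vm_nonneg n
  have hv4 := z2_vm_nonneg ((m : ℤ) - gg b n).toNat
  have hT : vm n * vm ((m : ℤ) - gg b n).toNat ≤ 2 * Real.log X ^ 2 := by
    calc vm n * vm ((m : ℤ) - gg b n).toNat ≤ Real.log X * (2 * Real.log X) := by gcongr
      _ = 2 * Real.log X ^ 2 := by ring
  have hpos : 0 ≤ 2 * Real.log X ^ 2 := by positivity
  have i2 : (0 : ℝ) ≤ if (IsPrimePow n ∧ ¬ n.Prime) then (1 : ℝ) else 0 := by
    split_ifs <;> norm_num
  have i3 : (0 : ℝ) ≤ if (IsPrimePow ((m : ℤ) - gg b n).toNat ∧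
      ¬ ((m : ℤ) - gg b n).toNat.Prime) then (1 : ℝ) else 0 := by
    split_ifs <;> norm_num
  by_cases c : n.Prime ∧ ((m : ℤ) - gg b n).toNat.Prime
  · rw [if_pos c]
    positivity
  rw [if_neg c]
  by_cases c1 : IsPrimePow n
  · by_cases c2 : IsPrimePow ((m : ℤ) - gg b n).toNat
    · by_cases c3 : n.Prime
      · have c4 : ¬ ((m : ℤ) - gg b n).toNat.Prime := fun h => c ⟨c3, h⟩
        rw [if_pos (⟨c2, c4⟩ : IsPrimePow ((m : ℤ) - gg b n).toNat ∧
            ¬ ((m : ℤ) - gg b n).toNat.Prime)] at i3 ⊢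
        nlinarith
      · rw [if_pos (⟨c1, c3⟩ : IsPrimePow n ∧ ¬ n.Prime)] at i2 ⊢
        nlinarith
    · rw [z2_vm_zero _ c2, mul_zero]
      positivity
  · rw [z2_vm_zero _ c1, zero_mul]
    positivity

/-- the average of `z2_S3` over `[1, X]` -/
theorem vpow_sum_S3 (b : ℤ) (P X : ℕ)
    (hk : ∀ m ∈ Icc 1 X, ∀ n ∈ Icc 1 P, ((m : ℤ) - gg b n).toNat ≤ 2 * X) :
    ∑ m ∈ Icc 1 X, (z2_S3 b P m).card ≤
      P * ((Icc 1 (2 * X)).filter (fun n => IsPrimePow n ∧ ¬ n.Prime)).card := by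
  classical
  have h1 : ∀ m, (z2_S3 b P m).card = ∑ n ∈ Icc 1 P,
      (if (IsPrimePow ((m : ℤ) - gg b n).toNat ∧ ¬ ((m : ℤ) - gg b n).toNat.Prime)
        then 1 else 0) := by
    intro m
    unfold z2_S3
    rw [Finset.card_filter]
  simp only [h1]
  rw [Finset.sum_comm]
  have h2 : ∀ n ∈ Icc 1 P, ∑ m ∈ Icc 1 X,
      (if (IsPrimePow ((m : ℤ) - gg b n).toNat ∧ ¬ ((m : ℤ) - gg b n).toNat.Prime)
        then 1 else 0) ≤ ((Icc 1 (2 * X)).filter (fun n => IsPrimePow n ∧ ¬ n.Prime)).card := by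
    intro n hn
    rw [← Finset.card_filter]
    refine Finset.card_le_card_of_injOn (fun m : ℕ => ((m : ℤ) - gg b n).toNat) ?_ ?_
    · intro m hm
      rw [mem_coe, mem_filter] at hm
      rw [mem_coe, mem_filter, mem_Icc]
      exact ⟨⟨hm.2.1.one_lt.le, hk m hm.1 n hn⟩, hm.2⟩
    · intro m hm m' hm' heq
      rw [mem_coe, mem_filter] at hm hm'
      have e1 := hm.2.1.one_lt
      have e2 := hm'.2.1.one_lt
      simp only at heq
      omega
  calc ∑ n ∈ Icc 1 P, ∑ m ∈ Icc 1 X,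
      (if (IsPrimePow ((m : ℤ) - gg b n).toNat ∧ ¬ ((m : ℤ) - gg b n).toNat.Prime)
        then 1 else 0) ≤ ∑ n ∈ Icc 1 P,
          ((Icc 1 (2 * X)).filter (fun n => IsPrimePow n ∧ ¬ n.Prime)).card :=
        Finset.sum_le_sum h2
    _ = P * ((Icc 1 (2 * X)).filter (fun n => IsPrimePow n ∧ ¬ n.Prime)).card := by
        rw [Finset.sum_const, Nat.card_Icc, smul_eq_mul, Nat.add_sub_cancel]

/-- Proof. `RL - RP` is the sum of the terms with `n` a proper prime power (at most `√P · 2 log P` of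
them, each `≤ log X · 2 log X`) or with `n` prime and `m - g(n)` a proper prime power `≤ 2X`; the
number of the latter, summed over all `m ≤ X`, is `≤ P · #{proper prime powers ≤ 2X} ≤
P · √(2X) · 4 log X` (`z2_card_ppw_real`; `z2_sum_S3` is the same count for `m ∈ (X/2, X]`), so for all but
`≤ √(2X) 4 log X · 4 (log X)^(A'+2) ≤ X/(log X)^A` of the `m` there are at most `P/(4 (log X)^(A'+2))` of them.
`P ≥ X^(1/10)` gives `√P · 2 log P · 2 (log X)² ≤ P/(2 (log X)^A')`. -/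
theorem pow2 (A A' : ℕ) : ∃ X₀ : ℕ, ∀ X : ℕ, X₀ ≤ X → ∀ (b : ℤ) (P : ℕ),
    (X : ℝ) ^ (1 / 10 : ℝ) ≤ P → (P : ℝ) ≤ Real.sqrt X → (P : ℝ) * |(b : ℝ)| ≤ X →
    (((Icc 1 X).filter (fun m : ℕ => (P : ℝ) / Real.log X ^ A' <
      |RL b P (m : ℤ) - RP b P (m : ℤ)|)).card : ℝ) ≤ (X : ℝ) / Real.log X ^ A := by
  classical
  obtain ⟨X₁, hX₁⟩ := Filter.eventually_atTop.mp
    ((s5_log (1 / 20) (by norm_num) 16 (A' + 3)).and
      (s5_log (1 / 2) (by norm_num) 32 (A + A' + 3)))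
  refine ⟨max X₁ 3, fun X hX b P hP1 hP2 hPb => ?_⟩
  have hX1 : X₁ ≤ X := le_trans (le_max_left _ _) hX
  have hX3 : 3 ≤ X := le_trans (le_max_right _ _) hX
  obtain ⟨c1, c2⟩ := hX₁ X hX1
  have hX3' : (3 : ℝ) ≤ X := by exact_mod_cast hX3
  have hXpos : (0 : ℝ) < X := by linarith
  set Lg := Real.log (X : ℝ) with hLg
  have hLg1 : 1 ≤ Lg := by
    rw [hLg, Real.le_log_iff_exp_le hXpos]
    have := Real.exp_one_lt_d9
    linarith
  have hLg0 : 0 < Lg := by linarith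
  have hPX : P ≤ X := by
    have h1 : (P : ℝ) ≤ X := by
      have h2 : Real.sqrt X ≤ X := by
        rw [Real.sqrt_le_left (by linarith)]
        nlinarith
      linarith
    exact_mod_cast h1
  have hP1' : (1 : ℝ) ≤ P := by
    refine le_trans ?_ hP1
    exact Real.one_le_rpow (by linarith) (by norm_num)
  have hP0 : (0 : ℝ) < P := by linarith
  have hPs : 16 * Lg ^ (A' + 3) ≤ Real.sqrt P := by
    refine c1.trans ?_
    refine Real.le_sqrt_of_sq_le ?_
    refine le_trans (le_of_eq ?_) hP1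
    rw [← Real.rpow_natCast, ← Real.rpow_mul hXpos.le]
    norm_num
  have hk : ∀ m ∈ Icc 1 X, ∀ n ∈ Icc 1 P, ((m : ℤ) - gg b n).toNat ≤ 2 * X := by
    intro m hm n hn
    rw [mem_Icc] at hm
    rw [mem_Icc] at hn
    have h1 : ((m : ℤ) - gg b n : ℤ) ≤ 2 * X := by
      have h2 : ((((m : ℤ) - gg b n : ℤ)) : ℝ) ≤ ((2 * X : ℤ) : ℝ) := by
        unfold gg
        push_cast
        have h3 : (m : ℝ) ≤ X := by exact_mod_cast hm.2
        have h4 : (n : ℝ) ≤ P := by exact_mod_cast hn.2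
        have h5 : -((b : ℝ) * n) ≤ |(b : ℝ)| * P := by
          calc -((b : ℝ) * n) ≤ |(b : ℝ) * n| := neg_le_abs _
            _ = |(b : ℝ)| * n := by rw [abs_mul, Nat.abs_cast]
            _ ≤ |(b : ℝ)| * P := by gcongr
        nlinarith [sq_nonneg (n : ℝ)]
      exact_mod_cast h2
    omega
  set W : ℕ := ((Icc 1 (2 * X)).filter (fun n => IsPrimePow n ∧ ¬ n.Prime)).card with hW
  have hWle : (W : ℝ) ≤ 8 * Real.sqrt X * Lg := by
    have h1 := z2_card_ppw_real (2 * X) X (by omega) le_rfl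
    refine h1.trans ?_
    have h2 : Real.sqrt ((2 * X : ℕ) : ℝ) ≤ 2 * Real.sqrt X := by
      rw [Real.sqrt_le_left (by positivity), mul_pow, Real.sq_sqrt hXpos.le]
      push_cast
      linarith
    calc Real.sqrt ((2 * X : ℕ) : ℝ) * (4 * Real.log X) ≤ 2 * Real.sqrt X * (4 * Real.log X) := by
          gcongr
      _ = 8 * Real.sqrt X * Lg := by rw [← hLg]; ring
  set E2 : Finset ℕ := (Icc 1 X).filter
    (fun m : ℕ => (P : ℝ) / (4 * Lg ^ (A' + 2)) < ((z2_S3 b P m).card : ℝ)) with hE2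
  have hE2c : (E2.card : ℝ) ≤ 4 * Lg ^ (A' + 2) * W := by
    have h1 : (E2.card : ℝ) * (P / (4 * Lg ^ (A' + 2))) ≤ P * W := by
      calc (E2.card : ℝ) * (P / (4 * Lg ^ (A' + 2))) =
          ∑ _m ∈ E2, (P : ℝ) / (4 * Lg ^ (A' + 2)) := by
            rw [Finset.sum_const, nsmul_eq_mul]
        _ ≤ ∑ m ∈ E2, ((z2_S3 b P m).card : ℝ) := by
            refine Finset.sum_le_sum fun m hm => ?_
            rw [hE2, mem_filter] at hm
            exact hm.2.le
        _ ≤ ∑ m ∈ Icc 1 X, ((z2_S3 b P m).card : ℝ) :=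
            Finset.sum_le_sum_of_subset_of_nonneg (Finset.filter_subset _ _)
              fun _ _ _ => by positivity
        _ ≤ P * W := by exact_mod_cast vpow_sum_S3 b P X hk
    have h2 : (E2.card : ℝ) * (P / (4 * Lg ^ (A' + 2))) =
        P * ((E2.card : ℝ) / (4 * Lg ^ (A' + 2))) := by ring
    rw [h2] at h1
    have h3 := le_of_mul_le_mul_left h1 hP0
    rw [div_le_iff₀ (by positivity)] at h3
    linarith
  have hsub : (Icc 1 X).filter (fun m : ℕ => (P : ℝ) / Lg ^ A' <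
      |RL b P (m : ℤ) - RP b P (m : ℤ)|) ⊆ E2 := by
    intro m hm
    rw [mem_filter] at hm
    obtain ⟨hm1, hm2⟩ := hm
    rw [hE2, mem_filter]
    refine ⟨hm1, ?_⟩
    by_contra hcon
    push Not at hcon
    have k5 := vpow_diff b P m X (by omega) hPX (hk m hm1)
    have k6 := z2_card_ppw_real P X (by omega) (by omega)
    rw [← hLg] at k5 k6
    have hsq : Real.sqrt P * Real.sqrt P = P := Real.mul_self_sqrt hP0.le
    have hs0 : 0 < Real.sqrt P := Real.sqrt_pos.2 hP0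
    have k7 : Real.sqrt P * (4 * Lg) ≤ P / (4 * Lg ^ (A' + 2)) := by
      rw [le_div_iff₀ (by positivity)]
      calc Real.sqrt P * (4 * Lg) * (4 * Lg ^ (A' + 2))
          = Real.sqrt P * (16 * Lg ^ (A' + 3)) := by ring
        _ ≤ Real.sqrt P * Real.sqrt P := by gcongr
        _ = P := hsq
    have k8 : |RL b P (m : ℤ) - RP b P (m : ℤ)| ≤
        2 * Lg ^ 2 * (P / (4 * Lg ^ (A' + 2)) + P / (4 * Lg ^ (A' + 2))) := by
      refine k5.trans ?_
      gcongr
      exact k6.trans k7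
    have k9 : 2 * Lg ^ 2 * ((P : ℝ) / (4 * Lg ^ (A' + 2)) + P / (4 * Lg ^ (A' + 2))) =
        P / Lg ^ A' := by
      have : Lg ^ (A' + 2) = Lg ^ A' * Lg ^ 2 := by ring
      rw [this]
      field_simp
      ring
    linarith
  have hfin : ((((Icc 1 X).filter (fun m : ℕ => (P : ℝ) / Lg ^ A' <
      |RL b P (m : ℤ) - RP b P (m : ℤ)|)).card : ℕ) : ℝ) ≤ (E2.card : ℝ) := by
    exact_mod_cast card_le_card hsub
  refine hfin.trans (hE2c.trans ?_)
  rw [le_div_iff₀ (by positivity)]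
  rw [← Real.sqrt_eq_rpow] at c2
  have h1 : Real.sqrt X * Real.sqrt X = X := Real.mul_self_sqrt hXpos.le
  calc 4 * Lg ^ (A' + 2) * (W : ℝ) * Lg ^ A
      ≤ 4 * Lg ^ (A' + 2) * (8 * Real.sqrt X * Lg) * Lg ^ A := by gcongr
    _ = Real.sqrt X * (32 * Lg ^ (A + A' + 3)) := by ring
    _ ≤ Real.sqrt X * Real.sqrt X := by gcongr
    _ = X := h1

end Pool.Agent.Lib.MP_d9bc60_nt.VA
end
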