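import Pool.Agent.Lib.MP_d9bc60_nt.UV.PSing

section
/-! Row va-Sing (about 200 lines, adapt `UV.rankin`, `UV.sing_large`): the singular series is a product up to a
small error for almost all `m`. -/

set_option autoImplicit false

namespace Pool.Agent.Lib.MP_d9bc60_nt.VA

open Finset UV

/-- the product over the odd primes `p ≤ z` -/
noncomputable def PI (b : ℤ) (z : ℕ) (m : ℤ) : ℝ := ∏ p ∈ (Icc 3 z).filter Nat.Prime, (1 + YY b p m)

/-- Proof. As `UV.rankin` with `1/(log X)^A` on the right (`g5_large` with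
`A log log X` in place of `log log X`). -/
theorem rankin2 (A B : ℕ) : ∃ X₀ : ℕ, ∀ X : ℕ, X₀ ≤ X →
    ∑ q ∈ (WW (LC B X)).divisors.filter (fun q : ℕ => (X : ℝ) ^ (1 / 8 : ℝ) < q),
      (q.divisors.card : ℝ) ^ 2 / q ≤ 1 / Real.log X ^ A := by
  set σ : ℝ := 1 / (2 * B + 2) with hσdef
  have hB : (0 : ℝ) ≤ B := Nat.cast_nonneg B
  have hσ : 0 < σ := by (clear * -; positivity)
  have hσ1 : σ ≤ 1 / 2 := by
    rw [hσdef, div_le_div_iff₀ (by (clear * -; positivity)) (by norm_num)]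
    linarith only []
  have hσB : B * σ ≤ 1 / 2 := by
    rw [hσdef, mul_one_div, div_le_div_iff₀ (by (clear * -; positivity)) (by norm_num)]
    linarith only [hσ, hσ1]
  have hs : σ - 1 ≠ 0 := by linarith only [hσ, hσ1]
  obtain ⟨X₀, h1⟩ := g5_large (B + A) σ hσ
  refine ⟨X₀, fun X hX => ?_⟩
  obtain ⟨hX1, hL1, hmain⟩ := h1 X hX
  have hXp : (0 : ℝ) < X := by exact_mod_cast hX1
  set L := Real.log X with hL
  have hL0 : 0 < L := by linarith only [hσ, hσ1, hL1]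
  set z := LC B X with hz
  have hzL : (z : ℝ) ≤ L ^ B := Nat.floor_le (by positivity)
  have hz1 : 1 ≤ z := Nat.le_floor (by
    rw [Nat.cast_one]
    exact one_le_pow₀ hL1)
  have hzr : (1 : ℝ) ≤ z := by exact_mod_cast hz1
  have hlogz : Real.log z ≤ B * Real.log L := by
    calc Real.log z ≤ Real.log (L ^ B) := Real.log_le_log (by linarith only [hσ, hσ1, hzr]) hzL
      _ = B * Real.log L := Real.log_pow _ _
  have hlogz0 : 0 ≤ Real.log z := Real.log_nonneg hzr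
  have hzσ : (z : ℝ) ^ σ ≤ L ^ (1 / 2 : ℝ) := by
    calc (z : ℝ) ^ σ ≤ (L ^ B) ^ σ := Real.rpow_le_rpow (by linarith only [hσ, hσ1, hzr]) hzL hσ.le
      _ = L ^ (B * σ) := by rw [← Real.rpow_natCast, ← Real.rpow_mul hL0.le]
      _ ≤ L ^ (1 / 2 : ℝ) := Real.rpow_le_rpow_of_exponent_le hL1 hσB
  have h2 : ∑ q ∈ (WW z).divisors.filter (fun q : ℕ => (X : ℝ) ^ (1 / 8 : ℝ) < q),
      (q.divisors.card : ℝ) ^ 2 / q ≤
      (X : ℝ) ^ (-(σ / 8)) * ∑ q ∈ (WW z).divisors, (q.divisors.card : ℝ) ^ 2 *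
        (q : ℝ) ^ (σ - 1) := by
    rw [Finset.mul_sum]
    refine le_trans (Finset.sum_le_sum fun q hq => ?_)
      (Finset.sum_le_sum_of_subset_of_nonneg (Finset.filter_subset _ _)
        (fun _ _ _ => by (clear * - hX1; positivity)))
    rw [Finset.mem_filter] at hq
    have hq0 : (0 : ℝ) < q := lt_trans (by positivity) hq.2
    have h3 : (1 : ℝ) ≤ (X : ℝ) ^ (-(σ / 8)) * (q : ℝ) ^ σ := by
      have h4 : ((X : ℝ) ^ (1 / 8 : ℝ)) ^ σ ≤ (q : ℝ) ^ σ :=
        Real.rpow_le_rpow (by positivity) hq.2.le hσ.le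
      rw [← Real.rpow_mul hXp.le] at h4
      calc (1 : ℝ) = (X : ℝ) ^ (-(σ / 8)) * (X : ℝ) ^ (1 / 8 * σ) := by
            rw [← Real.rpow_add hXp]
            have h8 : -(σ / 8) + 1 / 8 * σ = 0 := by ring
            rw [h8, Real.rpow_zero]
        _ ≤ (X : ℝ) ^ (-(σ / 8)) * (q : ℝ) ^ σ :=
            mul_le_mul_of_nonneg_left h4 (by positivity)
    rw [Real.rpow_sub_one hq0.ne']
    calc (q.divisors.card : ℝ) ^ 2 / q = 1 * ((q.divisors.card : ℝ) ^ 2 / q) := (one_mul _).symm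
      _ ≤ ((X : ℝ) ^ (-(σ / 8)) * (q : ℝ) ^ σ) * ((q.divisors.card : ℝ) ^ 2 / q) :=
          mul_le_mul_of_nonneg_right h3 (by (clear * - hq0; positivity))
      _ = (X : ℝ) ^ (-(σ / 8)) * ((q.divisors.card : ℝ) ^ 2 * ((q : ℝ) ^ σ / q)) := by ring
  refine h2.trans ?_
  have h5 := g5_sum (σ - 1) hs σ hσ.le rfl z
  have h6 : (X : ℝ) ^ (-(σ / 8)) = Real.exp (-(σ / 8) * L) := by
    rw [Real.rpow_def_of_pos hXp, mul_comm]
  calc (X : ℝ) ^ (-(σ / 8)) * ∑ q ∈ (WW z).divisors, (q.divisors.card : ℝ) ^ 2 *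
        (q : ℝ) ^ (σ - 1)
      ≤ (X : ℝ) ^ (-(σ / 8)) * Real.exp (4 * (z : ℝ) ^ σ * (1 + Real.log z)) :=
        mul_le_mul_of_nonneg_left h5 (by positivity)
    _ = Real.exp (-(σ / 8) * L + 4 * (z : ℝ) ^ σ * (1 + Real.log z)) := by
        rw [h6, ← Real.exp_add]
    _ ≤ Real.exp (-(A * Real.log L)) := by
        refine Real.exp_le_exp.2 ?_
        have h7 : 4 * (z : ℝ) ^ σ * (1 + Real.log z) ≤
            4 * L ^ (1 / 2 : ℝ) * (1 + B * Real.log L) := by gcongr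
        have h8 : 4 * L ^ (1 / 2 : ℝ) * (1 + B * Real.log L) + A * Real.log L ≤
            4 * L ^ (1 / 2 : ℝ) * (1 + ((B + A : ℕ) : ℝ) * Real.log L) := by
          have k1 : (1 : ℝ) ≤ L ^ (1 / 2 : ℝ) := Real.one_le_rpow hL1 (by norm_num)
          have k2 : 0 ≤ (A : ℝ) * Real.log L := mul_nonneg (Nat.cast_nonneg A) (Real.log_nonneg hL1)
          push_cast
          nlinarith only [k1, k2]
        have h9 : 0 ≤ Real.log L := Real.log_nonneg hL1
        linarith only [hmain, h7, h8, h9]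
    _ = 1 / L ^ A := by rw [Real.exp_neg, ← Real.log_pow, Real.exp_log (by positivity), one_div]

/-- a divisor of `WW z` is odd -/
private lemma vsing_odd {z q : ℕ} (h : q ∣ WW z) : Odd q := by
  refine Odd.of_dvd_nat ?_ h
  unfold WW
  refine Finset.prod_induction _ Odd (fun a b ha hb => ha.mul hb) odd_one fun p hp => ?_
  rw [mem_filter, mem_Icc] at hp
  exact hp.2.odd_of_ne_two (by omega)

private lemma vsing_dvd {z q : ℕ} (h1 : Odd q) (h2 : Squarefree q) (h3 : q ≤ z) : q ∣ WW z := by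
  rw [← Nat.prod_primeFactors_of_squarefree h2]
  unfold WW
  refine Finset.prod_dvd_prod_of_subset _ _ _ fun p hp => ?_
  have hp1 := Nat.prime_of_mem_primeFactors hp
  have hp2 := Nat.dvd_of_mem_primeFactors hp
  have hq : 0 < q := Nat.pos_of_ne_zero h2.ne_zero
  have hp3 : p ≤ q := Nat.le_of_dvd hq hp2
  have hp4 : p ≠ 2 := by
    rintro rfl
    exact (Nat.not_even_iff_odd.mpr h1) (even_iff_two_dvd.mpr hp2)
  have hp5 := hp1.two_le
  rw [mem_filter, mem_Icc]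
  exact ⟨⟨by omega, by omega⟩, hp1⟩

private lemma vsing_WW_ne (z : ℕ) : WW z ≠ 0 := by
  unfold WW
  rw [Finset.prod_ne_zero_iff]
  intro p hp
  rw [mem_filter] at hp
  exact hp.2.ne_zero

/-- the decomposition of the sum over odd `q ≤ Q / 2` -/
private lemma vsing_decomp (b : ℤ) (m : ℤ) (z N : ℕ) (y : ℝ) (hN : (N : ℝ) ≤ y) :
    ∑ q ∈ (Icc 1 N).filter (fun q => Odd q), YY b q m =
      ∑ q ∈ (WW z).divisors, YY b q m
      - ∑ q ∈ (WW z).divisors.filter (fun q : ℕ => N < q ∧ (q : ℝ) ≤ y), YY b q m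
      - ∑ q ∈ (WW z).divisors.filter (fun q : ℕ => y < q), YY b q m
      + ∑ q ∈ (Icc 1 N).filter (fun q => Odd q ∧ ¬ q ∣ WW z ∧ z < q), YY b q m := by
  classical
  have h1 : ∑ q ∈ (Icc 1 N).filter (fun q => Odd q), YY b q m =
      ∑ q ∈ ((Icc 1 N).filter (fun q => Odd q)).filter (fun q => q ∣ WW z), YY b q m +
      ∑ q ∈ ((Icc 1 N).filter (fun q => Odd q)).filter (fun q => ¬ q ∣ WW z), YY b q m :=
    (sum_filter_add_sum_filter_not _ _ _).symm
  have h2 : ∑ q ∈ (WW z).divisors, YY b q m =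
      ∑ q ∈ (WW z).divisors.filter (fun q => q ≤ N), YY b q m +
      ∑ q ∈ (WW z).divisors.filter (fun q => ¬ q ≤ N), YY b q m :=
    (sum_filter_add_sum_filter_not _ _ _).symm
  have h3 : ∑ q ∈ (WW z).divisors.filter (fun q => ¬ q ≤ N), YY b q m =
      ∑ q ∈ ((WW z).divisors.filter (fun q => ¬ q ≤ N)).filter (fun q : ℕ => (q : ℝ) ≤ y),
        YY b q m +
      ∑ q ∈ ((WW z).divisors.filter (fun q => ¬ q ≤ N)).filter (fun q : ℕ => ¬ (q : ℝ) ≤ y),
        YY b q m :=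
    (sum_filter_add_sum_filter_not _ _ _).symm
  have h4 : ((WW z).divisors.filter (fun q => ¬ q ≤ N)).filter (fun q : ℕ => (q : ℝ) ≤ y) =
      (WW z).divisors.filter (fun q : ℕ => N < q ∧ (q : ℝ) ≤ y) := by
    ext q
    simp only [mem_filter, not_le]
    tauto
  have h5 : ((WW z).divisors.filter (fun q => ¬ q ≤ N)).filter (fun q : ℕ => ¬ (q : ℝ) ≤ y) =
      (WW z).divisors.filter (fun q : ℕ => y < q) := by
    ext q
    simp only [mem_filter, not_le]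
    constructor
    · rintro ⟨⟨h6, _⟩, h7⟩
      exact ⟨h6, h7⟩
    · rintro ⟨h6, h7⟩
      refine ⟨⟨h6, ?_⟩, h7⟩
      have : (N : ℝ) < q := lt_of_le_of_lt hN h7
      exact_mod_cast this
  have h6 : ((Icc 1 N).filter (fun q => Odd q)).filter (fun q => q ∣ WW z) =
      (WW z).divisors.filter (fun q => q ≤ N) := by
    ext q
    simp only [mem_filter, mem_Icc, Nat.mem_divisors]
    constructor
    · rintro ⟨⟨⟨_, h7⟩, _⟩, h8⟩
      exact ⟨⟨h8, vsing_WW_ne z⟩, h7⟩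
    · rintro ⟨⟨h7, _⟩, h8⟩
      exact ⟨⟨⟨Nat.pos_of_dvd_of_pos h7 (Nat.pos_of_ne_zero (vsing_WW_ne z)), h8⟩, vsing_odd h7⟩, h7⟩
  have h7 : ∑ q ∈ ((Icc 1 N).filter (fun q => Odd q)).filter (fun q => ¬ q ∣ WW z), YY b q m =
      ∑ q ∈ (Icc 1 N).filter (fun q => Odd q ∧ ¬ q ∣ WW z ∧ z < q), YY b q m := by
    symm
    refine sum_subset ?_ ?_
    · intro q hq
      simp only [mem_filter] at hq ⊢
      tauto
    · intro q hq hq'
      simp only [mem_filter] at hq hq'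
      have hz : q ≤ z := by
        by_contra hlt
        push Not at hlt
        exact hq' ⟨hq.1.1, hq.1.2, hq.2, hlt⟩
      refine YY_not_squarefree b q (fun hsq => ?_) m
      exact hq.2 (vsing_dvd hq.1.2 hsq hz)
  rw [h1, h2, h3, h4, h5, h6, h7]
  ring

/-- the approximation for `SQ` for one `m` -/
private lemma vsing_one (b : ℤ) (m : ℤ) (z Q : ℕ) (y T : ℝ)
    (hQ : ((Q / 2 : ℕ) : ℝ) ≤ y)
    (h1 : |∑ q ∈ (WW z).divisors.filter (fun q : ℕ => Q / 2 < q ∧ (q : ℝ) ≤ y), YY b q m| < T)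
    (h2 : |∑ q ∈ (WW z).divisors.filter (fun q : ℕ => y < q), YY b q m| ≤ T)
    (h3 : |∑ q ∈ (Icc 1 (Q / 2)).filter (fun q => Odd q ∧ ¬ q ∣ WW z ∧ z < q), YY b q m| < T)
    (h4 : |∑ q ∈ (Ioc (Q / 2) Q).filter (fun q => Odd q), YY b q m| < T)
    (hsplit : SQ b Q m = 2 * ∑ q ∈ (Icc 1 (Q / 2)).filter (fun q => Odd q), YY b q m +
      ∑ q ∈ (Ioc (Q / 2) Q).filter (fun q => Odd q), YY b q m) :
    |SQ b Q m - 2 * PI b z m| ≤ 7 * T := by
  have hd := vsing_decomp b m z (Q / 2) y hQ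
  have hP : ∑ q ∈ (WW z).divisors, YY b q m = PI b z m := sum_div_eq_prod b z m
  rw [hP] at hd
  rw [abs_lt] at h1 h3 h4
  rw [abs_le] at h2
  rw [abs_le]
  constructor
  · linarith only [h1.1, h1.2, h2.1, h2.2, h3.1, h3.2, h4.1, h4.2, h1, h2, h3, h4, hsplit, hd]
  · linarith only [h1.1, h1.2, h2.1, h2.2, h3.1, h3.2, h4.1, h4.2, h1, h2, h3, h4, hsplit, hd]

/-- the analytic conditions for large `X` -/
private lemma vsing_event (A A' C : ℕ) (C0 : ℝ) :
    ∀ᶠ X : ℕ in Filter.atTop, 8 ≤ Real.log X ∧ 1 ≤ (X : ℝ) ∧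
      Real.log X ^ C ≤ (X : ℝ) ^ (1 / 8 : ℝ) ∧
      768 * C0 ≤ Real.log X ^ 3 ∧
      384 * Real.log X ^ (A + 2 * A') ≤ Real.sqrt X := by
  have hcast := tendsto_natCast_atTop_atTop (R := ℝ)
  have hlog : Filter.Tendsto (fun X : ℕ => Real.log X) Filter.atTop Filter.atTop :=
    Real.tendsto_log_atTop.comp hcast
  have e1 := hlog.eventually_ge_atTop 8
  have e2 := hcast.eventually_ge_atTop 1
  have e3 : ∀ᶠ X : ℕ in Filter.atTop, Real.log X ^ C ≤ (X : ℝ) ^ (1 / 8 : ℝ) := by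
    have h := (isLittleO_log_rpow_rpow_atTop (C : ℝ) (show (0 : ℝ) < 1 / 8 by norm_num)).bound
      (show (0 : ℝ) < 1 by norm_num)
    have h2 := hcast.eventually h
    filter_upwards [h2, e1, e2] with X h3 h4 h5
    rw [Real.rpow_natCast, Real.norm_of_nonneg (by positivity),
      Real.norm_of_nonneg (by (clear * - h5; positivity)), one_mul] at h3
    exact h3
  have e5 : ∀ᶠ X : ℕ in Filter.atTop, 768 * C0 ≤ Real.log X ^ 3 :=
    ((Filter.tendsto_pow_atTop (by norm_num)).comp hlog).eventually_ge_atTop _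
  have e6 : ∀ᶠ X : ℕ in Filter.atTop, 384 * Real.log X ^ (A + 2 * A') ≤ Real.sqrt X := by
    have h := (isLittleO_log_rpow_rpow_atTop ((A + 2 * A' : ℕ) : ℝ)
      (show (0 : ℝ) < 1 / 2 by norm_num)).bound (show (0 : ℝ) < 1 / 384 by norm_num)
    have h2 := hcast.eventually h
    filter_upwards [h2, e1, e2] with X h3 h4 h5
    rw [Real.rpow_natCast, Real.norm_of_nonneg (by positivity),
      Real.norm_of_nonneg (by (clear * - h5; positivity)), ← Real.sqrt_eq_rpow] at h3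
    linarith only [h3]
  filter_upwards [e1, e2, e3, e5, e6] with X h1 h2 h3 h5 h6
  exact ⟨h1, h2, h3, h5, h6⟩

/-- Proof. As `UV.sing_large`, with the decomposition `g7_decomp` (private there: copy it) and `SQ_split`:
`SQ = 2 Π - 2 Σ₁ - 2 Σ₂ + 2 Σ₃ + Σ₄`; `few_large` with `T = 1/(8 (log X)^A')` for `Σ₁, Σ₃, Σ₄`
(`z = LC B X ≥ (log X)^B/2`, `B ≥ 2A + 4A' + 10`) and `rankin2` for `Σ₂`. -/
theorem sing2 (A A' B : ℕ) (hB : 2 * A + 4 * A' + 10 ≤ B) (C : ℕ) (hC : B + 1 ≤ C) :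
    ∃ X₀ : ℕ, ∀ X : ℕ, X₀ ≤ X → ∀ b : ℤ,
    (((Icc 1 X).filter (fun m : ℕ => (2 : ℤ) ∣ (m : ℤ) - b ∧
      1 / Real.log X ^ A' < |SQ b (LC C X) (m : ℤ) - 2 * PI b (LC B X) (m : ℤ)|)).card : ℝ) ≤
      (X : ℝ) / Real.log X ^ A := by
  classical
  obtain ⟨C0, X1, hC0, hfew⟩ := few_large
  obtain ⟨X3, hran⟩ := rankin2 (A' + 1) B
  obtain ⟨X4, hX4⟩ := Filter.eventually_atTop.mp (vsing_event A A' C C0)
  refine ⟨max X1 (max X3 X4), fun X hX b => ?_⟩
  have hX1 : X1 ≤ X := (le_max_left _ _).trans hX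
  have hX3 : X3 ≤ X := (le_max_left _ _).trans ((le_max_right _ _).trans hX)
  obtain ⟨hL8, hXone, hLC, hCL, hAL⟩ := hX4 X ((le_max_right _ _).trans
    ((le_max_right _ _).trans hX))
  have hf := hfew X hX1 b (LC B X)
  have hr := hran X hX3
  set L := Real.log X with hLdef
  have hL0 : 0 < L := by linarith only [hL8]
  have hL2 : 2 ≤ L := by linarith only [hL8]
  set z := LC B X with hz
  set Q := LC C X with hQ
  have hzle : (z : ℝ) ≤ L ^ B := Nat.floor_le (by (clear * - hL0; positivity))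
  have hQle : (Q : ℝ) ≤ L ^ C := Nat.floor_le (by (clear * - hL0; positivity))
  have hLB : 1 ≤ L ^ B := one_le_pow₀ (by linarith only [hL2])
  have hLB2 : (2 : ℝ) ≤ L ^ B := by
    calc (2 : ℝ) ≤ L ^ 1 := by rwa [pow_one]
      _ ≤ L ^ B := pow_le_pow_right₀ (by linarith only [hL2]) (by (clear * - hB; omega))
  have hz1 : 1 ≤ z := Nat.le_floor (by exact_mod_cast hLB)
  have hzge : L ^ B / 2 ≤ z := by
    have h2 : L ^ B < (z : ℝ) + 1 := Nat.lt_floor_add_one (L ^ B)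
    linarith only [hLB2, h2]
  have hzQ : z ≤ Q / 2 := by
    have h1 : ((2 * z : ℕ) : ℝ) ≤ L ^ C := by
      push_cast
      calc 2 * (z : ℝ) ≤ L * L ^ B := by
            refine mul_le_mul hL2 hzle (by (clear * - hz1; positivity)) hL0.le
        _ = L ^ (B + 1) := by ring
        _ ≤ L ^ C := pow_le_pow_right₀ (by linarith only [hL2]) hC
    have h2 : 2 * z ≤ Q := Nat.le_floor h1
    (clear * - h2; omega)
  have hQ8 : (Q : ℝ) ≤ (X : ℝ) ^ (1 / 8 : ℝ) := hQle.trans hLC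
  have hQ28 : ((Q / 2 : ℕ) : ℝ) ≤ (X : ℝ) ^ (1 / 8 : ℝ) := by
    refine le_trans ?_ hQ8
    exact_mod_cast Nat.div_le_self Q 2
  set y := (X : ℝ) ^ (1 / 8 : ℝ) with hy
  have hLA' : 0 < L ^ A' := by (clear * - hL0; positivity)
  obtain ⟨T, hTdef⟩ : ∃ T : ℝ, T = 1 / (8 * L ^ A') := ⟨_, rfl⟩
  have hT : 0 < T := by rw [hTdef]; (clear * - hL0; positivity)
  set S1 := (WW z).divisors.filter (fun q : ℕ => Q / 2 < q ∧ (q : ℝ) ≤ y) with hS1
  set S2 := (Icc 1 (Q / 2)).filter (fun q => Odd q ∧ ¬ q ∣ WW z ∧ z < q) with hS2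
  set S3 := (Ioc (Q / 2) Q).filter (fun q => Odd q) with hS3
  have c1 := hf S1 T hz1 hT (by
    intro q hq
    rw [hS1, mem_filter, Nat.mem_divisors] at hq
    exact ⟨vsing_odd hq.1.1, by omega, hq.2.2⟩)
  have c2 := hf S2 T hz1 hT (by
    intro q hq
    rw [hS2, mem_filter, mem_Icc] at hq
    refine ⟨hq.2.1, hq.2.2.2, ?_⟩
    refine le_trans ?_ hQ28
    exact_mod_cast hq.1.2)
  have c3 := hf S3 T hz1 hT (by
    intro q hq
    rw [hS3, mem_filter, mem_Ioc] at hq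
    refine ⟨hq.2, by omega, ?_⟩
    refine le_trans ?_ hQ8
    exact_mod_cast hq.1.2)
  have hsub : (Icc 1 X).filter (fun m : ℕ => (2 : ℤ) ∣ (m : ℤ) - b ∧
      1 / L ^ A' < |SQ b Q (m : ℤ) - 2 * PI b z (m : ℤ)|) ⊆
      ((Icc 1 X).filter (fun m : ℕ => T ≤ |∑ q ∈ S1, YY b q (m : ℤ)|) ∪
      (Icc 1 X).filter (fun m : ℕ => T ≤ |∑ q ∈ S2, YY b q (m : ℤ)|)) ∪
      (Icc 1 X).filter (fun m : ℕ => T ≤ |∑ q ∈ S3, YY b q (m : ℤ)|) := by
    intro m hm
    rw [mem_filter] at hm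
    obtain ⟨hm1, hm2, hm3⟩ := hm
    rw [mem_union, mem_union, mem_filter, mem_filter, mem_filter]
    by_contra hno
    simp only [hm1, true_and, not_or, not_le] at hno
    obtain ⟨⟨n1, n2⟩, n3⟩ := hno
    have hran2 : |∑ q ∈ (WW z).divisors.filter (fun q : ℕ => y < q), YY b q (m : ℤ)| ≤ T := by
      refine (abs_sum_le_sum_abs _ _).trans (le_trans (sum_le_sum fun q hq => ?_) (hr.trans ?_))
      · rw [mem_filter, Nat.mem_divisors] at hq
        exact abs_YY_le b q (vsing_odd hq.1.1) m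
      · rw [hTdef, pow_succ, div_le_div_iff₀ (by (clear * - hL0; positivity))
          (by (clear * - hL0; positivity))]
        nlinarith only [hLA', hL8]
    have hlow := vsing_one b (m : ℤ) z Q y T hQ28 n1 hran2 n2 n3 (SQ_split b Q (m : ℤ) hm2)
    have k1 : 7 * T < 1 / L ^ A' := by
      rw [hTdef, mul_one_div, div_lt_div_iff₀ (by (clear * - hL0; positivity)) hLA']
      linarith only [hLA']
    linarith only [hm3, hlow, k1]
  have hcard : (((Icc 1 X).filter (fun m : ℕ => (2 : ℤ) ∣ (m : ℤ) - b ∧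
      1 / L ^ A' < |SQ b Q (m : ℤ) - 2 * PI b z (m : ℤ)|)).card : ℝ) ≤
      3 * ((C0 * X / Real.sqrt z + Real.sqrt X) / T ^ 2) := by
    have h1 := (card_le_card hsub).trans ((card_union_le _ _).trans
      (Nat.add_le_add_right (card_union_le _ _) _))
    have h2 : (((Icc 1 X).filter (fun m : ℕ => (2 : ℤ) ∣ (m : ℤ) - b ∧
      1 / L ^ A' < |SQ b Q (m : ℤ) - 2 * PI b z (m : ℤ)|)).card : ℝ) ≤
      (((Icc 1 X).filter (fun m : ℕ => T ≤ |∑ q ∈ S1, YY b q (m : ℤ)|)).card : ℝ) +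
      (((Icc 1 X).filter (fun m : ℕ => T ≤ |∑ q ∈ S2, YY b q (m : ℤ)|)).card : ℝ) +
      (((Icc 1 X).filter (fun m : ℕ => T ≤ |∑ q ∈ S3, YY b q (m : ℤ)|)).card : ℝ) := by
      exact_mod_cast h1
    linarith only [c1, c2, c3, h2]
  refine hcard.trans ?_
  -- the final estimate
  have hsz : L ^ (A + 2 * A' + 5) / 2 ≤ Real.sqrt z := by
    apply Real.le_sqrt_of_sq_le
    have h1 : (L ^ (A + 2 * A' + 5) / 2) ^ 2 = L ^ (2 * A + 4 * A' + 10) / 4 := by
      rw [div_pow, ← pow_mul]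
      norm_num
      ring_nf
    rw [h1]
    have h2 : L ^ (2 * A + 4 * A' + 10) ≤ L ^ B := pow_le_pow_right₀ (by linarith only [hL2]) hB
    have h3 : 0 < L ^ B := by (clear * - hL0; positivity)
    linarith only [hLB2, hzge, h2, h3]
  have hX0 : (0 : ℝ) ≤ X := Nat.cast_nonneg X
  have hC00 : 0 ≤ C0 := by linarith only [hC0]
  have hLA : 0 < L ^ A := by (clear * - hL0; positivity)
  have m1 : C0 * X / Real.sqrt z ≤ 2 * C0 * X / L ^ (A + 2 * A' + 5) := by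
    have h5 : 0 < L ^ (A + 2 * A' + 5) / 2 := by (clear * - hL0; positivity)
    calc C0 * X / Real.sqrt z ≤ C0 * X / (L ^ (A + 2 * A' + 5) / 2) :=
          div_le_div_of_nonneg_left (by (clear * - hC00 hX0; positivity)) h5 hsz
      _ = 2 * C0 * X / L ^ (A + 2 * A' + 5) := by field_simp
  have hT2 : T ^ 2 = 1 / (64 * (L ^ A') ^ 2) := by
    rw [hTdef, div_pow, mul_pow]
    norm_num
  have hLne : L ≠ 0 := hL0.ne'
  have m2 : 3 * (2 * C0 * X / L ^ (A + 2 * A' + 5) / T ^ 2) ≤ (X : ℝ) / L ^ A / 2 := by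
    have h6 : 3 * (2 * C0 * X / L ^ (A + 2 * A' + 5) / T ^ 2) =
        (X : ℝ) / L ^ A * (384 * C0 / L ^ 5) := by
      rw [hT2]
      have e : L ^ (A + 2 * A' + 5) = L ^ A * (L ^ A') ^ 2 * L ^ 5 := by ring
      rw [e]
      field_simp
      ring
    rw [h6]
    have h7 : 384 * C0 / L ^ 5 ≤ 1 / 2 := by
      have h8 : L ^ 3 ≤ L ^ 5 := pow_le_pow_right₀ (by linarith only [hL2]) (by norm_num)
      rw [div_le_div_iff₀ (by (clear * - hL0; positivity)) (by norm_num)]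
      linarith only [hCL, h8]
    calc (X : ℝ) / L ^ A * (384 * C0 / L ^ 5) ≤ (X : ℝ) / L ^ A * (1 / 2) :=
          mul_le_mul_of_nonneg_left h7 (by (clear * - hX0 hL0; positivity))
      _ = _ := by ring
  have m3 : 3 * (Real.sqrt X / T ^ 2) ≤ (X : ℝ) / L ^ A / 2 := by
    have h8 : (X : ℝ) = Real.sqrt X * Real.sqrt X := (Real.mul_self_sqrt hX0).symm
    have h9 : 3 * (Real.sqrt X / T ^ 2) =
        Real.sqrt X * (384 * L ^ (A + 2 * A')) / L ^ A / 2 := by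
      rw [hT2]
      have e : L ^ (A + 2 * A') = L ^ A * (L ^ A') ^ 2 := by ring
      rw [e]
      field_simp
      ring
    rw [h9]
    conv_rhs => rw [h8]
    have h10 : Real.sqrt X * (384 * L ^ (A + 2 * A')) ≤ Real.sqrt X * Real.sqrt X :=
      mul_le_mul_of_nonneg_left hAL (Real.sqrt_nonneg _)
    exact div_le_div_of_nonneg_right (div_le_div_of_nonneg_right h10 hLA.le) (by norm_num)
  have m4 : 0 < T ^ 2 := by (clear * - hT; positivity)
  have m5 : 3 * ((C0 * X / Real.sqrt z + Real.sqrt X) / T ^ 2) ≤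
      3 * (2 * C0 * X / L ^ (A + 2 * A' + 5) / T ^ 2) + 3 * (Real.sqrt X / T ^ 2) := by
    rw [← mul_add, ← add_div]
    refine mul_le_mul_of_nonneg_left ?_ (by norm_num)
    exact div_le_div_of_nonneg_right (by linarith only [m1]) m4.le
  linarith only [m2, m3, m5]

/-- Proof. `UV.prod_ge`. -/
theorem PI_ge (B : ℕ) : ∃ X₀ : ℕ, ∀ X : ℕ, X₀ ≤ X → ∀ b : ℤ, ¬ (3 : ℤ) ∣ b → ∀ m : ℤ,
    1 / Real.log X ≤ PI b (LC B X) m := by
  obtain ⟨c, X₁, hc, h⟩ := prod_ge B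
  have hcast := tendsto_natCast_atTop_atTop (R := ℝ)
  have hlog : Filter.Tendsto (fun X : ℕ => Real.log X) Filter.atTop Filter.atTop :=
    Real.tendsto_log_atTop.comp hcast
  have e1 := hlog.eventually_ge_atTop 1
  have e2 : ∀ᶠ X : ℕ in Filter.atTop, c⁻¹ ≤ Real.log X ^ (24 / 25 : ℝ) :=
    ((tendsto_rpow_atTop (show (0 : ℝ) < 24 / 25 by norm_num)).comp hlog).eventually_ge_atTop _
  obtain ⟨X₂, h2⟩ := Filter.eventually_atTop.1 (e1.and e2)
  refine ⟨max X₁ X₂, fun X hX b hb m => ?_⟩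
  have h3 := h X ((le_max_left _ _).trans hX) b hb m
  obtain ⟨hL1, hL2⟩ := h2 X ((le_max_right _ _).trans hX)
  refine le_trans ?_ h3
  set L := Real.log X with hL
  have hL0 : 0 < L := by linarith only [hL1]
  have k1 : L ^ (-(1 / 25) : ℝ) = L ^ (24 / 25 : ℝ) / L := by
    rw [← Real.rpow_sub_one hL0.ne']
    norm_num
  rw [k1, ← mul_div_assoc]
  refine div_le_div_of_nonneg_right ?_ hL0.le
  calc (1 : ℝ) = c * c⁻¹ := (mul_inv_cancel₀ hc.ne').symm
    _ ≤ c * L ^ (24 / 25 : ℝ) := mul_le_mul_of_nonneg_left hL2 hc.le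

end Pool.Agent.Lib.MP_d9bc60_nt.VA
end
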