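import Pool.Agent.Lib.MP_d9bc60_nt.VA.VInt
import Pool.Agent.Lib.MP_d9bc60_nt.VA.VPars
import Pool.Agent.Lib.MP_d9bc60_nt.VA.VSing
import Pool.Agent.Lib.MP_d9bc60_nt.VA.VPow

section
/-! Row va-Fin1 (about 150 lines): the asymptotic formula in the form needed. -/

set_option autoImplicit false

namespace Pool.Agent.Lib.MP_d9bc60_nt.VA

open Finset UV

/-- the number of small `m` -/
private theorem vfin_small (X : ℕ) (t : ℝ) (ht : 0 ≤ t) :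
    (((Icc 1 X).filter (fun m : ℕ => (m : ℝ) ≤ t)).card : ℝ) ≤ t := by
  have h1 : (Icc 1 X).filter (fun m : ℕ => (m : ℝ) ≤ t) ⊆ Icc 1 ⌊t⌋₊ := by
    intro m hm
    rw [Finset.mem_filter, Finset.mem_Icc] at hm
    rw [Finset.mem_Icc]
    exact ⟨hm.1.1, Nat.le_floor hm.2⟩
  have h2 := Finset.card_le_card h1
  rw [Nat.card_Icc, Nat.add_sub_cancel] at h2
  calc (((Icc 1 X).filter (fun m : ℕ => (m : ℝ) ≤ t)).card : ℝ) ≤ (⌊t⌋₊ : ℝ) := by exact_mod_cast h2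
    _ ≤ t := Nat.floor_le ht

/-- Markov's inequality -/
private theorem vfin_markov (s : Finset ℕ) (F : ℕ → ℝ) (t V : ℝ) (ht : 0 < t)
    (h : ∑ m ∈ s, F m ^ 2 ≤ V) :
    ((s.filter (fun m : ℕ => t < |F m|)).card : ℝ) ≤ V / t ^ 2 := by
  rw [le_div_iff₀ (by positivity)]
  have h1 : ((s.filter (fun m : ℕ => t < |F m|)).card : ℝ) * t ^ 2 ≤
      ∑ m ∈ s.filter (fun m : ℕ => t < |F m|), F m ^ 2 := by
    rw [← nsmul_eq_mul]
    apply Finset.card_nsmul_le_sum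
    intro m hm
    rw [Finset.mem_filter] at hm
    rw [← sq_abs (F m)]
    exact pow_le_pow_left₀ ht.le hm.2.le 2
  have h2 : ∑ m ∈ s.filter (fun m : ℕ => t < |F m|), F m ^ 2 ≤ ∑ m ∈ s, F m ^ 2 :=
    Finset.sum_le_sum_of_subset_of_nonneg (Finset.filter_subset _ _) (fun _ _ _ => sq_nonneg _)
  linarith

/-- Parseval and Markov -/
private theorem vfin_one (X P Q : ℕ) (b : ℤ) (hP2 : (P : ℝ) * |(b : ℝ)| ≤ X) (hP0 : 0 < P)
    (L : ℝ) (hL : 0 < L) (A A₁ : ℕ)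
    (hI : ∫ α in (0 : ℝ)..1, ‖Sf b P α‖ ^ 2 * ‖DD Q (2 * X) α‖ ^ 2 ≤
      (P : ℝ) ^ 2 * X / L ^ (2 * A₁ + A + 1)) :
    (((Icc 1 X).filter (fun m : ℕ => (P : ℝ) / L ^ A₁ <
      |RL b P (m : ℤ) - RQ b Q (Pm b P (m : ℤ)) (m : ℤ)|)).card : ℝ) ≤ (X : ℝ) / L ^ (A + 1) := by
  have hPr : (0 : ℝ) < P := by exact_mod_cast hP0
  have h1 := parseval_use2 b P Q (2 * X) ((Icc 1 X).map Nat.castEmbedding)
    (by
      intro m hm
      rw [Finset.mem_map] at hm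
      obtain ⟨k, hk, rfl⟩ := hm
      rw [Finset.mem_Icc] at hk
      rw [Nat.castEmbedding_apply]
      exact_mod_cast hk.1)
    (by
      intro m hm n hn
      rw [Finset.mem_map] at hm
      obtain ⟨k, hk, rfl⟩ := hm
      rw [Finset.mem_Icc] at hk hn
      rw [Nat.castEmbedding_apply]
      have e1 : -(n * |(b : ℝ)|) ≤ (b : ℝ) * n := by
        have := neg_abs_le (b : ℝ)
        nlinarith [(Nat.cast_nonneg n : (0 : ℝ) ≤ n)]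
      have e2 : (n : ℝ) * |(b : ℝ)| ≤ P * |(b : ℝ)| :=
        mul_le_mul_of_nonneg_right (by exact_mod_cast hn.2) (abs_nonneg _)
      have e3 : ((k : ℤ) : ℝ) - ((gg b n : ℤ) : ℝ) ≤ ((2 * X : ℕ) : ℝ) := by
        have e4 : ((gg b n : ℤ) : ℝ) = (n : ℝ) ^ 2 + b * n := by
          unfold gg
          push_cast
          ring
        have e5 : (k : ℝ) ≤ X := by exact_mod_cast hk.2
        rw [e4]
        push_cast
        nlinarith [sq_nonneg (n : ℝ)]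
      exact_mod_cast e3)
  rw [Finset.sum_map] at h1
  simp only [Nat.castEmbedding_apply] at h1
  have h2 := vfin_markov (Icc 1 X)
    (fun m : ℕ => RL b P (m : ℤ) - RQ b Q (Pm b P (m : ℤ)) (m : ℤ)) ((P : ℝ) / L ^ A₁) _
    (by positivity) (h1.trans hI)
  refine h2.trans (le_of_eq ?_)
  have e : L ^ (2 * A₁ + A + 1) = L ^ A₁ * L ^ A₁ * L ^ (A + 1) := by
    rw [← pow_add, ← pow_add]
    congr 1
    ring
  rw [e]
  field_simp

/-- Proof. Let `L = log X`. Exceptional sets, each of size `≤ X/(4 L^A)` for large `X`: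
(0) `m ≤ X/L^(A+1)`; (1) `|RL - RQ b Q (Pm) m| > P/L^A₁`, by `parseval_use2` (`N = 2X`, `J = Icc 1 X`:
`m - g(n) ≤ X + |b| P ≤ 2X`), `main_int2 ε (2A₁ + A + 1) A₀` and Markov; (2) `sing2 (A+1) A₁`; (3) `pow2 (A+1) A₁`.
Here `A₁ = 2A + 4`. Outside, `Pm ≥ P/(4 L^(A+1)) ≥ X^(1/10)` (`Pm_ge`, `PP2_bounds` with room) so
`RQ_eq A₁ C` (`P := Pm`) gives `|RQ - Pm SQ| ≤ P/L^A₁`; so
`|RP - 2 PI Pm| ≤ 4P/L^A₁ ≤ 16 Pm L^(A+1)/L^(2A+4) ≤ 2 PI Pm/L^A` as `PI ≥ 1/L` (`PI_ge`). -/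
theorem fin1 (ε : ℝ) (hε : 0 < ε) (A : ℕ) : ∃ B₀ : ℕ, ∀ B : ℕ, B₀ ≤ B → ∃ X₀ : ℕ, ∀ X : ℕ, X₀ ≤ X →
    ∀ b : ℤ, ¬ (3 : ℤ) ∣ b → |(b : ℝ)| ≤ (X : ℝ) ^ (8 / 9 - ε) → ∀ P : ℕ,
    (P : ℝ) ≤ Real.sqrt X → (P : ℝ) * |(b : ℝ)| ≤ X →
    min (Real.sqrt X) (X / |(b : ℝ)|) ≤ P * Real.log X ^ A →
    (((Icc 1 X).filter (fun m : ℕ => (2 : ℤ) ∣ (m : ℤ) - b ∧
      2 * PI b (LC B X) (m : ℤ) * Pm b P (m : ℤ) / Real.log X ^ A <
        |RP b P (m : ℤ) - 2 * PI b (LC B X) (m : ℤ) * Pm b P (m : ℤ)|)).card : ℝ) ≤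
      (X : ℝ) / Real.log X ^ A := by
  classical
  obtain ⟨A₁, hA₁⟩ : ∃ A₁ : ℕ, A₁ = 2 * A + 4 := ⟨_, rfl⟩
  refine ⟨2 * (A + 1) + 4 * A₁ + 10, fun B hB => ?_⟩
  obtain ⟨C₁, hC₁⟩ := main_int2 ε hε (2 * A₁ + A + 1) A
  obtain ⟨C, hCdef⟩ : ∃ C : ℕ, C = max C₁ (B + 1) := ⟨_, rfl⟩
  obtain ⟨X₁, hX₁⟩ := hC₁ C (hCdef ▸ le_max_left _ _)
  obtain ⟨X₂, hX₂⟩ := sing2 (A + 1) A₁ B hB C (hCdef ▸ le_max_right _ _)
  obtain ⟨X₃, hX₃⟩ := pow2 (A + 1) A₁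
  obtain ⟨X₄, hX₄⟩ := PI_ge B
  obtain ⟨X₅, hX₅⟩ := RQ_eq A₁ C
  obtain ⟨X₆, hX₆⟩ := PP2_bounds ε hε A (A + 2)
  obtain ⟨X₇, hX₇⟩ : ∃ X₇ : ℕ, Real.exp 4 ≤ X₇ := exists_nat_ge _
  refine ⟨X₁ + X₂ + X₃ + X₄ + X₅ + X₆ + X₇, fun X hX b hb3 hbX P hP1 hP2 hP3 => ?_⟩
  have hb0 : b ≠ 0 := by
    rintro rfl
    exact hb3 (dvd_zero _)
  have hX7 : Real.exp 4 ≤ X := hX₇.trans (by exact_mod_cast (by omega : X₇ ≤ X))
  have hXpos : (0 : ℝ) < X := (Real.exp_pos _).trans_le hX7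
  have hL : 4 ≤ Real.log X := (Real.le_log_iff_exp_le hXpos).2 hX7
  have hX1r : (1 : ℝ) ≤ X := by
    have : (1 : ℝ) ≤ Real.exp 4 := Real.one_le_exp (by norm_num)
    linarith
  have hI := hX₁ X (by omega) b hb0 hbX P hP1 hP3
  have hS := hX₂ X (by omega) b
  have hPIge := hX₄ X (by omega) b hb3
  have hR := hX₅ X (by omega)
  have hPP := hX₆ X (by omega) b hb0 hbX P hP3
  have hpw := hX₃ X (by omega) b P
  obtain ⟨L, hLdef⟩ : ∃ L : ℝ, L = Real.log X := ⟨_, rfl⟩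
  rw [← hLdef] at hI hS hPIge hR hPP hL hpw ⊢
  have hL0 : 0 < L := by linarith
  have hL1 : 1 ≤ L := by linarith
  have hLA : (1 : ℝ) ≤ L ^ (A + 1) := one_le_pow₀ hL1
  have hx10 : (1 : ℝ) ≤ (X : ℝ) ^ (1 / 10 : ℝ) := Real.one_le_rpow hX1r (by norm_num)
  have hLA2 : 4 * L ^ (A + 1) ≤ L ^ (A + 2) := by
    rw [pow_succ L (A + 1)]
    nlinarith
  have hP4 : 4 * L ^ (A + 1) ≤ P := by
    have h0 : 0 ≤ L ^ (A + 2) := by positivity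
    nlinarith
  have hP10 : (X : ℝ) ^ (1 / 10 : ℝ) ≤ P := by
    have h0 : (1 : ℝ) ≤ L ^ (A + 2) := one_le_pow₀ hL1
    nlinarith
  have hPr : (0 : ℝ) < P := by linarith
  have hP0 : 0 < P := by exact_mod_cast hPr
  have hpw' := hpw hP10 hP1 hP2
  have h1 := vfin_one X P (LC C X) b hP2 hP0 L hL0 A A₁ hI
  have h0 := vfin_small X ((X : ℝ) / L ^ (A + 1)) (by positivity)
  have hPX : P ≤ X := by
    have e1 : Real.sqrt X ≤ X := by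
      rw [Real.sqrt_le_left hXpos.le]
      nlinarith
    exact_mod_cast hP1.trans e1
  have hsub : (Icc 1 X).filter (fun m : ℕ => (2 : ℤ) ∣ (m : ℤ) - b ∧
      2 * PI b (LC B X) (m : ℤ) * Pm b P (m : ℤ) / L ^ A <
        |RP b P (m : ℤ) - 2 * PI b (LC B X) (m : ℤ) * Pm b P (m : ℤ)|) ⊆
      ((Icc 1 X).filter (fun m : ℕ => (m : ℝ) ≤ (X : ℝ) / L ^ (A + 1)) ∪
        (Icc 1 X).filter (fun m : ℕ => (P : ℝ) / L ^ A₁ <
          |RL b P (m : ℤ) - RQ b (LC C X) (Pm b P (m : ℤ)) (m : ℤ)|)) ∪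
      ((Icc 1 X).filter (fun m : ℕ => (2 : ℤ) ∣ (m : ℤ) - b ∧
          1 / L ^ A₁ < |SQ b (LC C X) (m : ℤ) - 2 * PI b (LC B X) (m : ℤ)|) ∪
        (Icc 1 X).filter (fun m : ℕ => (P : ℝ) / L ^ A₁ <
          |RL b P (m : ℤ) - RP b P (m : ℤ)|)) := by
    intro m hm
    rw [Finset.mem_filter] at hm
    obtain ⟨hm1, hm2, hm3⟩ := hm
    by_contra hcon
    simp only [Finset.mem_union, Finset.mem_filter, not_or, not_and, not_lt, not_le] at hcon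
    obtain ⟨⟨c0, c1⟩, c2, c3⟩ := hcon
    have c0 := c0 hm1
    have c1 := c1 hm1
    have c2 := c2 hm1 hm2
    have c3 := c3 hm1
    have hPm1 := Pm_ge b P X (m : ℤ) (L ^ (A + 1)) hLA hP4 hP1 hP2 (by
      push_cast
      exact c0.le)
    have hPm2 := Pm_le b P (m : ℤ)
    obtain ⟨p, hp⟩ : ∃ p : ℕ, p = Pm b P (m : ℤ) := ⟨_, rfl⟩
    rw [← hp] at hPm1 hPm2 c1 hm3
    obtain ⟨D, hD⟩ : ∃ D : ℝ, D = L ^ (A + 1) := ⟨_, rfl⟩
    have hD0 : 0 < D := by rw [hD]; positivity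
    have hPm3 : (P : ℝ) ≤ 4 * D * p := by
      rw [← hD, div_le_iff₀ (by positivity)] at hPm1
      linarith
    have hp10 : (X : ℝ) ^ (1 / 10 : ℝ) ≤ p := by
      have e1 : (X : ℝ) ^ (1 / 10 : ℝ) * L ^ (A + 2) ≤ 4 * D * p := hPP.trans hPm3
      have e2 : (X : ℝ) ^ (1 / 10 : ℝ) * (4 * D) ≤ (X : ℝ) ^ (1 / 10 : ℝ) * L ^ (A + 2) :=
        mul_le_mul_of_nonneg_left (by rw [hD]; exact hLA2) (by linarith)
      have e3 : 4 * D * (X : ℝ) ^ (1 / 10 : ℝ) ≤ 4 * D * p := by linarith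
      exact le_of_mul_le_mul_left e3 (by positivity)
    have hp0 : (0 : ℝ) < p := by linarith
    have hpP : (p : ℝ) ≤ P := by exact_mod_cast hPm2
    have c4 := hR p hp10 (hPm2.trans hPX) b (m : ℤ)
    have hPI := hPIge (m : ℤ)
    obtain ⟨T, hT⟩ : ∃ T : ℝ, T = PI b (LC B X) (m : ℤ) := ⟨_, rfl⟩
    rw [← hT] at c2 hm3 hPI
    obtain ⟨K, hK⟩ : ∃ K : ℝ, K = L ^ A₁ := ⟨_, rfl⟩
    rw [← hK] at c1 c2 c3 c4
    have hK0 : 0 < K := by rw [hK]; positivity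
    have hKD : K = D * D * L ^ 2 := by
      rw [hK, hD, hA₁, ← pow_add, ← pow_add]
      congr 1
      ring
    have c5 : |(p : ℝ) * SQ b (LC C X) (m : ℤ) - 2 * T * p| ≤ P / K := by
      have e1 : (p : ℝ) * SQ b (LC C X) (m : ℤ) - 2 * T * p =
          p * (SQ b (LC C X) (m : ℤ) - 2 * T) := by ring
      rw [e1, abs_mul, abs_of_pos hp0]
      calc (p : ℝ) * |SQ b (LC C X) (m : ℤ) - 2 * T| ≤ p * (1 / K) :=
            mul_le_mul_of_nonneg_left c2 hp0.le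
        _ = p / K := by ring
        _ ≤ P / K := div_le_div_of_nonneg_right hpP hK0.le
    have c6 : (p : ℝ) / K ≤ P / K := div_le_div_of_nonneg_right hpP hK0.le
    have c7 : |RP b P (m : ℤ) - 2 * T * p| ≤ 4 * (P / K) := by
      rw [abs_le] at c1 c3 c4 c5 ⊢
      constructor <;> linarith [c1.1, c1.2, c3.1, c3.2, c4.1, c4.2, c5.1, c5.2]
    have c8 : 4 * ((P : ℝ) / K) ≤ 16 * p / (D * L ^ 2) := by
      rw [hKD, mul_div_assoc', div_le_div_iff₀ (by positivity) (by positivity)]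
      have : 0 ≤ D * L ^ 2 := by positivity
      nlinarith [mul_le_mul_of_nonneg_right hPm3 this]
    have c9 : 16 * p / (D * L ^ 2) ≤ 2 * T * p / L ^ A := by
      have e1 : (1 : ℝ) ≤ T * L := by
        rw [div_le_iff₀ hL0] at hPI
        exact hPI
      rw [hD, pow_succ, div_le_div_iff₀ (by positivity) (by positivity)]
      have hLA0 : 0 < L ^ A := by positivity
      have e2 : 16 * (p : ℝ) * L ^ A ≤ 2 * (T * L) * p * (L ^ A * L ^ 2) := by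
        have e3 : (8 : ℝ) ≤ L ^ 2 := by nlinarith
        have e4 : (p : ℝ) * L ^ A * 8 ≤ p * L ^ A * L ^ 2 :=
          mul_le_mul_of_nonneg_left e3 (by positivity)
        have e5 : (p : ℝ) * L ^ A * L ^ 2 * 1 ≤ p * L ^ A * L ^ 2 * (T * L) :=
          mul_le_mul_of_nonneg_left e1 (by positivity)
        nlinarith
      calc 16 * (p : ℝ) * L ^ A ≤ 2 * (T * L) * p * (L ^ A * L ^ 2) := e2
        _ = 2 * T * p * (L ^ A * L * L ^ 2) := by ring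
    linarith
  have hc := Finset.card_le_card hsub
  have hc' : (((Icc 1 X).filter (fun m : ℕ => (2 : ℤ) ∣ (m : ℤ) - b ∧
      2 * PI b (LC B X) (m : ℤ) * Pm b P (m : ℤ) / L ^ A <
        |RP b P (m : ℤ) - 2 * PI b (LC B X) (m : ℤ) * Pm b P (m : ℤ)|)).card : ℝ) ≤
      (((Icc 1 X).filter (fun m : ℕ => (m : ℝ) ≤ (X : ℝ) / L ^ (A + 1))).card +
        ((Icc 1 X).filter (fun m : ℕ => (P : ℝ) / L ^ A₁ <
          |RL b P (m : ℤ) - RQ b (LC C X) (Pm b P (m : ℤ)) (m : ℤ)|)).card) +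
      (((Icc 1 X).filter (fun m : ℕ => (2 : ℤ) ∣ (m : ℤ) - b ∧
          1 / L ^ A₁ < |SQ b (LC C X) (m : ℤ) - 2 * PI b (LC B X) (m : ℤ)|)).card +
        ((Icc 1 X).filter (fun m : ℕ => (P : ℝ) / L ^ A₁ <
          |RL b P (m : ℤ) - RP b P (m : ℤ)|)).card) := by
    exact_mod_cast hc.trans ((Finset.card_union_le _ _).trans
      (Nat.add_le_add (Finset.card_union_le _ _) (Finset.card_union_le _ _)))
  have hfin : (X : ℝ) / L ^ (A + 1) * 4 ≤ X / L ^ A := by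
    rw [pow_succ, div_mul_eq_mul_div, div_le_div_iff₀ (by positivity) (by positivity)]
    have : 0 ≤ (X : ℝ) * L ^ A := by positivity
    nlinarith
  linarith

end Pool.Agent.Lib.MP_d9bc60_nt.VA
end
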