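import Pool.Agent.Lib.MP_d9bc60_nt.VA.HB3
import Pool.Agent.Lib.MP_d9bc60_nt.VA.T1D
import Pool.Agent.Lib.MP_d9bc60_nt.VA.T2A
import Pool.Agent.Lib.MP_d9bc60_nt.VA.T2B

section
/-! Row va-VL1 (about 150 lines): `Λ` over the secondary frequencies, with parameters. -/

set_option autoImplicit false

namespace Pool.Agent.Lib.MP_d9bc60_nt.VA

open Finset UV

/-- scalar part, type I -/
theorem vl1_sc1 (Λ X B R K t q a1 a2 a3 a4 a5 : ℝ) (hΛ : 8 ≤ Λ) (hB : 1 ≤ B)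
    (hR : 0 ≤ R) (hRB : R ≤ B) (ht : 0 ≤ t) (htX : t ≤ 2 * X) (hq : 0 ≤ q) (hqΛ : q ≤ Λ)
    (hK : 0 ≤ K) (h1 : 0 ≤ a1) (h1' : a1 ≤ Λ / 4) (h2 : 0 ≤ a2) (h2' : a2 ≤ Λ / 4)
    (h3 : 0 ≤ a3) (h3' : a3 ≤ Λ / 4) (h4 : 0 ≤ a4) (h4' : a4 ≤ Λ / 4)
    (h5 : 0 ≤ a5) (h5' : a5 ≤ Λ / 4) :
    4 * Λ ^ 2 * (2 * (4 * a1) ^ 2 * (2 * a2 ^ 2 * (Λ * (t * q * B * a3 * a4 +
      2 * t ^ 2 * (R / B) ^ 2)) + 2 * R * (7 * K * a5) ^ 2)) ≤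
      Λ ^ 10 * (X * B) + 8 * Λ ^ 10 * (X ^ 2 * (R / B)) + 49 * Λ ^ 10 * (R * K ^ 2) := by
  have hΛ0 : 0 ≤ Λ := by linarith
  have hX : 0 ≤ X := by linarith
  have hB0 : 0 < B := by linarith
  have hΛ1 : 1 ≤ Λ := by linarith
  have hd : 0 ≤ R / B := div_nonneg hR hB0.le
  have hd1 : R / B ≤ 1 := (div_le_one hB0).2 hRB
  have hdd : (R / B) ^ 2 ≤ R / B := by nlinarith
  have e1 : 4 * Λ ^ 2 * (2 * (4 * a1) ^ 2 * (2 * a2 ^ 2 * (Λ * (t * q * B * a3 * a4 +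
      2 * t ^ 2 * (R / B) ^ 2)) + 2 * R * (7 * K * a5) ^ 2)) ≤
      4 * Λ ^ 2 * (2 * (4 * (Λ / 4)) ^ 2 * (2 * (Λ / 4) ^ 2 * (Λ * ((2 * X) * Λ * B * (Λ / 4) *
      (Λ / 4) + 2 * (2 * X) ^ 2 * (R / B)))  + 2 * R * (7 * K * (Λ / 4)) ^ 2)) := by
    gcongr
  have p7 : Λ ^ 7 ≤ Λ ^ 10 := pow_le_pow_right₀ hΛ1 (by norm_num)
  have p6 : Λ ^ 6 ≤ Λ ^ 10 := pow_le_pow_right₀ hΛ1 (by norm_num)
  have hXB : 0 ≤ X * B := by positivity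
  have hXR : 0 ≤ X ^ 2 * (R / B) := by positivity
  have hRK : 0 ≤ R * K ^ 2 := by positivity
  have e2 : 4 * Λ ^ 2 * (2 * (4 * (Λ / 4)) ^ 2 * (2 * (Λ / 4) ^ 2 * (Λ * ((2 * X) * Λ * B * (Λ / 4) *
      (Λ / 4) + 2 * (2 * X) ^ 2 * (R / B)))  + 2 * R * (7 * K * (Λ / 4)) ^ 2)) =
      Λ ^ 10 / 8 * (X * B) + 8 * Λ ^ 7 * (X ^ 2 * (R / B)) + 49 * Λ ^ 6 * (R * K ^ 2) := by ring
  rw [e2] at e1
  refine e1.trans ?_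
  have f1 : Λ ^ 10 / 8 * (X * B) ≤ Λ ^ 10 * (X * B) := by
    have : 0 ≤ Λ ^ 10 := by positivity
    apply mul_le_mul_of_nonneg_right _ hXB
    linarith
  have f2 : 8 * Λ ^ 7 * (X ^ 2 * (R / B)) ≤ 8 * Λ ^ 10 * (X ^ 2 * (R / B)) := by gcongr
  have f3 : 49 * Λ ^ 6 * (R * K ^ 2) ≤ 49 * Λ ^ 10 * (R * K ^ 2) := by gcongr
  linarith

/-- scalar part, short sums -/
theorem vl1_sc2 (Λ X B R N N0 q a6 : ℝ) (hΛ : 8 ≤ Λ) (hB : 1 ≤ B)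
    (hR : 0 ≤ R) (hRB : R ≤ B) (hN : 0 ≤ N) (hNX : N ≤ 2 * X) (hN0 : N ≤ N0) (hq : 1 ≤ q)
    (hqΛ : q ≤ Λ) (h6' : a6 ≤ Λ / 4) :
    4 * (Λ ^ 2 * N * ((N / (q * B) + 1) * (R + q * B * a6))) ≤
      2 * Λ ^ 10 * N0 ^ 2 + 4 * Λ ^ 10 * (X * B) := by
  have hΛ0 : 0 ≤ Λ := by linarith
  have hX : 0 ≤ X := by linarith
  have hB0 : 0 < B := by linarith
  have hq0 : 0 < q := by linarith
  have hΛ1 : 1 ≤ Λ := by linarith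
  have hqB : 0 < q * B := by positivity
  have hRq : R ≤ q * B := by nlinarith
  have e0 : R + q * B * a6 ≤ q * B * (Λ / 2) := by
    have : q * B * a6 ≤ q * B * (Λ / 4) := mul_le_mul_of_nonneg_left h6' hqB.le
    nlinarith
  have e1 : (N / (q * B) + 1) * (R + q * B * a6) ≤ (N + q * B) * (Λ / 2) := by
    calc (N / (q * B) + 1) * (R + q * B * a6) ≤ (N / (q * B) + 1) * (q * B * (Λ / 2)) := by
          apply mul_le_mul_of_nonneg_left e0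
          positivity
      _ = (N + q * B) * (Λ / 2) := by field_simp
  have e2 : 4 * (Λ ^ 2 * N * ((N / (q * B) + 1) * (R + q * B * a6))) ≤
      4 * (Λ ^ 2 * N * ((N + q * B) * (Λ / 2))) := by
    gcongr
  have e3 : 4 * (Λ ^ 2 * N * ((N + q * B) * (Λ / 2))) = 2 * Λ ^ 3 * N ^ 2 +
      2 * Λ ^ 3 * (N * q * B) := by ring
  have e4 : 2 * Λ ^ 3 * N ^ 2 ≤ 2 * Λ ^ 10 * N0 ^ 2 := by
    have : Λ ^ 3 ≤ Λ ^ 10 := pow_le_pow_right₀ hΛ1 (by norm_num)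
    gcongr
  have e5 : 2 * Λ ^ 3 * (N * q * B) ≤ 4 * Λ ^ 10 * (X * B) := by
    have h4 : Λ ^ 4 ≤ Λ ^ 10 := pow_le_pow_right₀ hΛ1 (by norm_num)
    calc 2 * Λ ^ 3 * (N * q * B) ≤ 2 * Λ ^ 3 * ((2 * X) * Λ * B) := by gcongr
      _ = 4 * Λ ^ 4 * (X * B) := by ring
      _ ≤ 4 * Λ ^ 10 * (X * B) := by gcongr
  linarith

/-- scalar part, type II -/
theorem vl1_sc3 (Λ X B R t q y z J a3 : ℝ) (hΛ : 8 ≤ Λ) (hB : 1 ≤ B)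
    (hR : 0 ≤ R) (ht : 0 ≤ t) (htX : t ≤ 2 * X) (hq : 0 ≤ q) (hqΛ : q ≤ Λ)
    (hy : 1 ≤ y) (hz : 0 ≤ z) (hJ : 0 ≤ J) (hJ' : J ≤ Λ / 2)
    (h3 : 0 ≤ a3) (h3' : a3 ≤ Λ / 4) :
    4 * (J ^ 4 * (Λ ^ 2 * Λ * (2 * t ^ 2 * R / B + 2 * t * z * R * (q * a3) + t ^ 2 / y +
      t * (q * B * a3)))) ≤
      2 * Λ ^ 10 * (X ^ 2 * (R / B)) + Λ ^ 10 * (X * z * R) + Λ ^ 10 * (X ^ 2 / y) +
        Λ ^ 10 * (X * B) := by
  have hΛ0 : 0 ≤ Λ := by linarith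
  have hX : 0 ≤ X := by linarith
  have hB0 : 0 < B := by linarith
  have hy0 : 0 < y := by linarith
  have hΛ1 : 1 ≤ Λ := by linarith
  have e1 : 4 * (J ^ 4 * (Λ ^ 2 * Λ * (2 * t ^ 2 * R / B + 2 * t * z * R * (q * a3) + t ^ 2 / y +
      t * (q * B * a3)))) ≤ 4 * ((Λ / 2) ^ 4 * (Λ ^ 2 * Λ * (2 * (2 * X) ^ 2 * R / B +
      2 * (2 * X) * z * R * (Λ * (Λ / 4)) + (2 * X) ^ 2 / y +
      (2 * X) * (Λ * B * (Λ / 4))))) := by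
    gcongr
  have e2 : 4 * ((Λ / 2) ^ 4 * (Λ ^ 2 * Λ * (2 * (2 * X) ^ 2 * R / B +
      2 * (2 * X) * z * R * (Λ * (Λ / 4)) + (2 * X) ^ 2 / y +
      (2 * X) * (Λ * B * (Λ / 4))))) = 2 * Λ ^ 7 * (X ^ 2 * (R / B)) +
      Λ ^ 9 / 4 * (X * z * R) + Λ ^ 7 * (X ^ 2 / y) + Λ ^ 9 / 8 * (X * B) := by ring
  rw [e2] at e1
  refine e1.trans ?_
  have p7 : Λ ^ 7 ≤ Λ ^ 10 := pow_le_pow_right₀ hΛ1 (by norm_num)
  have p9 : Λ ^ 9 ≤ Λ ^ 10 := pow_le_pow_right₀ hΛ1 (by norm_num)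
  have q9 : 0 ≤ Λ ^ 9 := by positivity
  have f1 : 2 * Λ ^ 7 * (X ^ 2 * (R / B)) ≤ 2 * Λ ^ 10 * (X ^ 2 * (R / B)) := by gcongr
  have f2 : Λ ^ 9 / 4 * (X * z * R) ≤ Λ ^ 10 * (X * z * R) := by
    apply mul_le_mul_of_nonneg_right _ (by positivity)
    linarith
  have f3 : Λ ^ 7 * (X ^ 2 / y) ≤ Λ ^ 10 * (X ^ 2 / y) := by gcongr
  have f4 : Λ ^ 9 / 8 * (X * B) ≤ Λ ^ 10 * (X * B) := by
    apply mul_le_mul_of_nonneg_right _ (by positivity)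
    linarith
  linarith

/-- the square of a sum of four terms -/
theorem vl1_sq (V L a b c d : ℝ) (hV : 0 ≤ V) (h : V ≤ L * a + L * b + c + d) :
    V ^ 2 ≤ 4 * L ^ 2 * (a ^ 2 + b ^ 2) + 4 * c ^ 2 + 4 * d ^ 2 := by
  have h1 : V ^ 2 ≤ (L * a + L * b + c + d) ^ 2 := pow_le_pow_left₀ hV h 2
  nlinarith [sq_nonneg (L * a - L * b), sq_nonneg (L * a - c), sq_nonneg (L * a - d),
    sq_nonneg (L * b - c), sq_nonneg (L * b - d), sq_nonneg (c - d)]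

/-- `‖Nu‖ ≤ 1` -/
theorem vl1_nu (y z u : ℕ) : ‖((Nu y z u : ℝ) : ℂ)‖ ≤ 1 := by
  rw [Complex.norm_real, Real.norm_eq_abs]
  have : Nu y z u = if y < u ∧ u ≤ z then mu u else 0 := rfl
  rw [this]
  split_ifs
  · unfold mu
    have h := ArithmeticFunction.abs_moebius_le_one (n := u)
    have h2 : |((ArithmeticFunction.moebius u : ℤ) : ℝ)| =
        ((|ArithmeticFunction.moebius u| : ℤ) : ℝ) := by push_cast; rfl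
    rw [h2]
    exact_mod_cast h
  · simp

/-- `Nu` vanishes beyond `z` -/
theorem vl1_nuz (y z u : ℕ) (hu : z < u) : ((Nu y z u : ℝ) : ℂ) = 0 := by
  have : Nu y z u = if y < u ∧ u ≤ z then mu u else 0 := rfl
  rw [this, if_neg (by omega)]
  simp

/-- `Nat.log 2 t + 1 ≤ 1 + 2 log t` -/
theorem vl1_natlog (t : ℕ) (ht : 1 ≤ t) : ((Nat.log 2 t + 1 : ℕ) : ℝ) ≤ 1 + 2 * Real.log t := by
  have h1 : 2 ^ Nat.log 2 t ≤ t := Nat.pow_log_le_self 2 (by omega)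
  have h2 : ((2 : ℝ)) ^ Nat.log 2 t ≤ t := by exact_mod_cast h1
  have h3 : Real.log ((2 : ℝ) ^ Nat.log 2 t) ≤ Real.log t := Real.log_le_log (by positivity) h2
  rw [Real.log_pow] at h3
  have h4 : (1 / 2 : ℝ) ≤ Real.log 2 := by
    have := Real.log_two_gt_d9
    linarith
  have h5 : (Nat.log 2 t : ℝ) * (1 / 2) ≤ Nat.log 2 t * Real.log 2 :=
    mul_le_mul_of_nonneg_left h4 (Nat.cast_nonneg _)
  push_cast
  linarith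

/-- Proof. For each `r`: `hb3_norm` (`N = t`, `α = c_r`, `T = Λ`), the sums over `k ≤ t/w` extended to `k ≤ K`,
`K = 2X/w`; `(Λ a + Λ b + c + d)² ≤ 4(Λ²a² + Λ²b² + c² + d²)`. Sum over `r`: `t1d_ms` (`T = Λ`), `t2a_short` (`S = Λ`,
`N = min t (y³w³)`), `t2b_sum` (`S = T = Λ`, `ν = Nu y z`, `g = GG y z`). All logarithms and `Nat.log 2 t + 1` are
`≤ Λ` by `hL`, `q ≤ Λ`, `t ≤ 2X`, `R ≤ B`:
type I `≤ 128 Λ⁴ (4 Λ⁶ X B + 16 Λ³ X² (R/B)² + 98 Λ² R K²)`, short part `≤ 16 Λ⁴ (N₀² + X B)`, type II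
`≤ 32 Λ⁹ (X² R/B + X z R + X²/y + X B)`. -/
theorem vl1 (a : ℤ) (q B R X y z w t : ℕ) (Λ : ℝ) (hq : 1 ≤ q) (hB : 1 ≤ B) (hR : 1 ≤ R)
    (hRB : R ≤ B) (hBX : B ≤ X) (hqX : q ≤ X) (hqΛ : (q : ℝ) ≤ Λ) (hy : 1 ≤ y) (hyz : y ≤ z)
    (hzX : z ≤ X) (hw : 1 ≤ w) (ht : 1 ≤ t) (htX : t ≤ 2 * X) (hz : 2 * X ≤ z ^ 3)
    (hK : 1 ≤ 2 * X / w) (hqK : q ≤ 4 * (2 * X / w))
    (hL : 4 * (2 + Real.log (8 * (X : ℝ) ^ 2)) ≤ Λ)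
    (hτ : ∀ v ∈ Icc 1 (8 * X ^ 2), (v.divisors.card : ℝ) ≤ Λ)
    (hTB : ∀ n ∈ Icc 1 (4 * X), TB n ≤ Λ) :
    ∑ r ∈ Icc 1 R, ‖∑ n ∈ Icc 1 t, (vm n : ℂ) * e (((a : ℝ) / q + (r : ℝ) / (q * B)) * n)‖ ^ 2 ≤
      20000 * Λ ^ 10 * ((X : ℝ) * B + (X : ℝ) ^ 2 * ((R : ℝ) / B) +
        (R : ℝ) * ((2 * X / w : ℕ) : ℝ) ^ 2 + ((y ^ 3 * w ^ 3 : ℕ) : ℝ) ^ 2 + (X : ℝ) * z * R +
        (X : ℝ) ^ 2 / y) := by
  have hX : 1 ≤ X := hB.trans hBX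
  set K : ℕ := 2 * X / w with hKdef
  have hKX : K ≤ 2 * X := Nat.div_le_self _ _
  have hXr : (1 : ℝ) ≤ X := by exact_mod_cast hX
  have hXX : (X : ℝ) ≤ (X : ℝ) ^ 2 := by nlinarith
  -- logarithms
  have hlog : ∀ s : ℝ, 1 ≤ s → s ≤ 8 * (X : ℝ) ^ 2 → 0 ≤ Real.log s ∧
      Real.log s ≤ Real.log (8 * (X : ℝ) ^ 2) := fun s h1 h2 =>
    ⟨Real.log_nonneg h1, Real.log_le_log (by linarith) h2⟩
  have hl8 : 0 ≤ Real.log (8 * (X : ℝ) ^ 2) := Real.log_nonneg (by nlinarith)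
  have hΛ8 : 8 ≤ Λ := by linarith
  have hΛ0 : 0 ≤ Λ := by linarith
  have hBr : (1 : ℝ) ≤ B := by exact_mod_cast hB
  have hBXr : (B : ℝ) ≤ X := by exact_mod_cast hBX
  have hRr : (1 : ℝ) ≤ R := by exact_mod_cast hR
  have hRBr : (R : ℝ) ≤ B := by exact_mod_cast hRB
  have hqr : (1 : ℝ) ≤ q := by exact_mod_cast hq
  have hqXr : (q : ℝ) ≤ X := by exact_mod_cast hqX
  have htr : (1 : ℝ) ≤ t := by exact_mod_cast ht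
  have htXr : (t : ℝ) ≤ 2 * X := by exact_mod_cast htX
  have hKr : (1 : ℝ) ≤ K := by exact_mod_cast hK
  have hKXr : (K : ℝ) ≤ 2 * X := by exact_mod_cast hKX
  obtain ⟨lt0, lt1⟩ := hlog t htr (by linarith)
  obtain ⟨lK0, lK1⟩ := hlog K hKr (by linarith)
  obtain ⟨lB0, lB1⟩ := hlog B hBr (by linarith)
  obtain ⟨l40, l41⟩ := hlog (4 * K) (by linarith) (by linarith)
  have hKRn : 4 * K * R ≤ 8 * X ^ 2 := by
    have h1 : R ≤ X := hRB.trans hBX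
    calc 4 * K * R ≤ 4 * (2 * X) * X := Nat.mul_le_mul (Nat.mul_le_mul_left _ hKX) h1
      _ = 8 * X ^ 2 := by ring
  have hKR1 : 1 ≤ 4 * K * R := by
    have : 1 * 1 ≤ (4 * K) * R := Nat.mul_le_mul (by omega) hR
    simpa using this
  obtain ⟨l60, l61⟩ := hlog ((4 * K * R : ℕ) : ℝ) (by exact_mod_cast hKR1) (by exact_mod_cast hKRn)
  obtain ⟨l70, l71⟩ := hlog ((q : ℝ) * B) (by nlinarith) (by nlinarith)
  -- abbreviations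
  set P : ℕ → ℝ := fun r => ∑ k ∈ Icc 1 K, ‖∑ n ∈ Ioc w (t / k),
          e (((a : ℝ) / q + (r : ℝ) / (q * B)) * k * n)‖ with hP
  set L : ℕ → ℝ := fun r => ∑ k ∈ Icc 1 K, ‖∑ n ∈ Ioc w (t / k), ((Real.log n : ℝ) : ℂ) *
          e (((a : ℝ) / q + (r : ℝ) / (q * B)) * k * n)‖ with hLd
  set N : ℕ := min t (y ^ 3 * w ^ 3) with hN
  set Sh : ℕ → ℝ := fun r => ‖∑ n ∈ Icc 1 N, (SS y w n : ℂ) *
          e (((a : ℝ) / q + (r : ℝ) / (q * B)) * n)‖ with hSh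
  set U : ℕ → ℝ := fun r => ‖∑ u ∈ Ioc y t, ∑ v ∈ Ioc 1 (t / u), (Nu y z u : ℂ) *
          (GG y z v : ℂ) * e (((a : ℝ) / q + (r : ℝ) / (q * B)) * ((u * v : ℕ) : ℝ))‖ with hU
  -- pointwise
  have hpt : ∀ r ∈ Icc 1 R,
      ‖∑ n ∈ Icc 1 t, (vm n : ℂ) * e (((a : ℝ) / q + (r : ℝ) / (q * B)) * n)‖ ^ 2 ≤
        4 * Λ ^ 2 * (P r ^ 2 + L r ^ 2) + 4 * Sh r ^ 2 + 4 * U r ^ 2 := by
    intro r _
    have h := hb3_norm y z w t hyz (htX.trans hz) hy hw ((a : ℝ) / q + (r : ℝ) / (q * B)) Λ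
      (fun n hn => hTB n (by
        rw [mem_Icc] at hn ⊢
        omega))
    have hsub : Icc 1 (t / w) ⊆ Icc 1 K :=
      Icc_subset_Icc_right (Nat.div_le_div_right htX)
    have h1 : ∑ k ∈ Icc 1 (t / w), ‖∑ n ∈ Ioc w (t / k),
        e (((a : ℝ) / q + (r : ℝ) / (q * B)) * k * n)‖ ≤ P r :=
      sum_le_sum_of_subset_of_nonneg hsub (fun _ _ _ => norm_nonneg _)
    have h2 : ∑ k ∈ Icc 1 (t / w), ‖∑ n ∈ Ioc w (t / k), ((Real.log n : ℝ) : ℂ) *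
        e (((a : ℝ) / q + (r : ℝ) / (q * B)) * k * n)‖ ≤ L r :=
      sum_le_sum_of_subset_of_nonneg hsub (fun _ _ _ => norm_nonneg _)
    refine vl1_sq _ Λ (P r) (L r) (Sh r) (U r) (norm_nonneg _) ?_
    refine h.trans ?_
    have h3 := mul_le_mul_of_nonneg_left h1 hΛ0
    have h4 := mul_le_mul_of_nonneg_left h2 hΛ0
    have h5 : ‖∑ n ∈ Icc 1 (min t (y ^ 3 * w ^ 3)), (SS y w n : ℂ) *
          e (((a : ℝ) / q + (r : ℝ) / (q * B)) * n)‖ = Sh r := rfl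
    have h6 : ‖∑ u ∈ Ioc y t, ∑ v ∈ Ioc 1 (t / u), (Nu y z u : ℂ) *
          (GG y z v : ℂ) * e (((a : ℝ) / q + (r : ℝ) / (q * B)) * ((u * v : ℕ) : ℝ))‖ = U r := rfl
    rw [h5, h6]
    linarith
  -- type I
  have hI := t1d_ms a q B R K t w Λ hq hB ht hRB hK hqK hR (fun v hv => hτ v (by
    rw [mem_Icc] at hv ⊢
    exact ⟨hv.1, hv.2.trans hKRn⟩))
  -- short
  have hS := t2a_short a q B R N (fun n => (SS y w n : ℂ)) Λ hq hB (fun n hn => by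
    rw [mem_Icc] at hn
    have h1 : n ≤ t := hn.2.trans (min_le_left _ _)
    rw [Complex.norm_real, Real.norm_eq_abs]
    exact (hb2_SS y w n hn.1).trans (hTB n (by rw [mem_Icc]; omega)))
  -- type II
  have hII := t2b_sum a q B R y z t (fun u => (Nu y z u : ℂ)) (fun v => (GG y z v : ℂ)) Λ Λ hq hB
    hy ht hΛ0 hΛ0 (fun u => vl1_nu y z u) (fun u hu => vl1_nuz y z u hu) (fun v hv => by
      rw [mem_Icc] at hv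
      rw [Complex.norm_real, Real.norm_eq_abs]
      exact (hb2_GG y z v hv.1).trans (hTB v (by rw [mem_Icc]; omega)))
    (fun v hv => hτ v (by
      rw [mem_Icc] at hv ⊢
      refine ⟨hv.1, hv.2.trans ?_⟩
      calc 2 * z * R ≤ 2 * X * X := Nat.mul_le_mul (Nat.mul_le_mul_left _ hzX) (hRB.trans hBX)
        _ ≤ 8 * X ^ 2 := by nlinarith))
  -- sum up
  have hsum : ∑ r ∈ Icc 1 R,
      ‖∑ n ∈ Icc 1 t, (vm n : ℂ) * e (((a : ℝ) / q + (r : ℝ) / (q * B)) * n)‖ ^ 2 ≤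
      4 * Λ ^ 2 * ∑ r ∈ Icc 1 R, (P r ^ 2 + L r ^ 2) + 4 * ∑ r ∈ Icc 1 R, Sh r ^ 2 +
        4 * ∑ r ∈ Icc 1 R, U r ^ 2 := by
    refine (sum_le_sum hpt).trans ?_
    rw [mul_sum, mul_sum, mul_sum, ← sum_add_distrib, ← sum_add_distrib]
  have hIb : 4 * Λ ^ 2 * ∑ r ∈ Icc 1 R, (P r ^ 2 + L r ^ 2) ≤
      Λ ^ 10 * ((X : ℝ) * B) + 8 * Λ ^ 10 * ((X : ℝ) ^ 2 * ((R : ℝ) / B)) +
        49 * Λ ^ 10 * ((R : ℝ) * (K : ℝ) ^ 2) := by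
    refine (mul_le_mul_of_nonneg_left hI (by positivity)).trans ?_
    exact vl1_sc1 Λ X B R K t q (1 + Real.log t) (1 + Real.log K) (1 + Real.log B)
      (2 + Real.log (4 * K * R : ℕ)) (1 + Real.log (4 * K)) hΛ8 hBr (by linarith) hRBr
      (by linarith) htXr (by linarith) hqΛ (by linarith) (by linarith) (by linarith)
      (by linarith) (by linarith) (by linarith) (by linarith) (by linarith) (by linarith)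
      (by linarith) (by linarith)
  have hSb : 4 * ∑ r ∈ Icc 1 R, Sh r ^ 2 ≤
      2 * Λ ^ 10 * ((y ^ 3 * w ^ 3 : ℕ) : ℝ) ^ 2 + 4 * Λ ^ 10 * ((X : ℝ) * B) := by
    refine (mul_le_mul_of_nonneg_left hS (by norm_num)).trans ?_
    refine vl1_sc2 Λ X B R N ((y ^ 3 * w ^ 3 : ℕ) : ℝ) q (1 + Real.log (q * B)) hΛ8 hBr
      (by linarith) hRBr (Nat.cast_nonneg _) ?_ ?_ hqr hqΛ (by linarith)
    · have : (N : ℝ) ≤ t := by exact_mod_cast (min_le_left t (y ^ 3 * w ^ 3))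
      linarith
    · exact_mod_cast (min_le_right t (y ^ 3 * w ^ 3))
  have hUb : 4 * ∑ r ∈ Icc 1 R, U r ^ 2 ≤
      2 * Λ ^ 10 * ((X : ℝ) ^ 2 * ((R : ℝ) / B)) + Λ ^ 10 * ((X : ℝ) * z * R) +
        Λ ^ 10 * ((X : ℝ) ^ 2 / y) + Λ ^ 10 * ((X : ℝ) * B) := by
    refine (mul_le_mul_of_nonneg_left hII (by norm_num)).trans ?_
    have hnl := vl1_natlog t ht
    exact vl1_sc3 Λ X B R t q y z ((Nat.log 2 t + 1 : ℕ) : ℝ) (1 + Real.log B) hΛ8 hBr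
      (by linarith) (by linarith) htXr (by linarith) hqΛ (by exact_mod_cast hy)
      (Nat.cast_nonneg _) (Nat.cast_nonneg _) (by linarith) (by linarith) (by linarith)
  have hL10 : 0 ≤ Λ ^ 10 := by positivity
  have m1 : 0 ≤ Λ ^ 10 * ((X : ℝ) * B) := by positivity
  have m2 : 0 ≤ Λ ^ 10 * ((X : ℝ) ^ 2 * ((R : ℝ) / B)) := by positivity
  have m3 : 0 ≤ Λ ^ 10 * ((R : ℝ) * (K : ℝ) ^ 2) := by positivity
  have m4 : 0 ≤ Λ ^ 10 * ((y ^ 3 * w ^ 3 : ℕ) : ℝ) ^ 2 := by positivity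
  have m5 : 0 ≤ Λ ^ 10 * ((X : ℝ) * z * R) := by positivity
  have m6 : 0 ≤ Λ ^ 10 * ((X : ℝ) ^ 2 / y) := by positivity
  have hfin := hsum.trans (add_le_add (add_le_add hIb hSb) hUb)
  refine hfin.trans ?_
  have e1 : 20000 * Λ ^ 10 * ((X : ℝ) * B + (X : ℝ) ^ 2 * ((R : ℝ) / B) +
        (R : ℝ) * (K : ℝ) ^ 2 + ((y ^ 3 * w ^ 3 : ℕ) : ℝ) ^ 2 + (X : ℝ) * z * R +
        (X : ℝ) ^ 2 / y) = 20000 * (Λ ^ 10 * ((X : ℝ) * B)) +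
        20000 * (Λ ^ 10 * ((X : ℝ) ^ 2 * ((R : ℝ) / B))) +
        20000 * (Λ ^ 10 * ((R : ℝ) * (K : ℝ) ^ 2)) +
        20000 * (Λ ^ 10 * ((y ^ 3 * w ^ 3 : ℕ) : ℝ) ^ 2) +
        20000 * (Λ ^ 10 * ((X : ℝ) * z * R)) + 20000 * (Λ ^ 10 * ((X : ℝ) ^ 2 / y)) := by ring
  rw [e1]
  linarith

end Pool.Agent.Lib.MP_d9bc60_nt.VA
end
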