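import Pool.Agent.Lib.MP_d9bc60_nt.VA.VL1

section
/-! Row va-VL2 (about 150 lines): choice of the parameters. -/

set_option autoImplicit false

namespace Pool.Agent.Lib.MP_d9bc60_nt.VA

open Finset UV

theorem vl2_ceil (u : ℝ) (hu : 1 ≤ u) : u ≤ (⌈u⌉₊ : ℝ) ∧ (⌈u⌉₊ : ℝ) ≤ 2 * u ∧ 1 ≤ ⌈u⌉₊ := by
  have h1 : u ≤ (⌈u⌉₊ : ℝ) := Nat.le_ceil u
  have h2 : (⌈u⌉₊ : ℝ) < u + 1 := Nat.ceil_lt_add_one (by linarith)
  refine ⟨h1, by linarith, ?_⟩
  have : (1 : ℝ) ≤ (⌈u⌉₊ : ℝ) := hu.trans h1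
  exact_mod_cast this

/-- the final inequality -/
theorem vl2_fin (x η B R k y w z c Λ : ℝ) (hx : 1 ≤ x) (hη : 0 < η) (hη1 : η ≤ 1 / 4)
    (hB : 1 ≤ B) (hR : 0 ≤ R) (hBx : B ≤ x ^ (1 - η)) (hRx : R ≤ x ^ (2 / 3 - η))
    (hRB : R ≤ B * x ^ (-η)) (hk0 : 0 ≤ k) (hk : k ≤ 2 * x / x ^ (1 / 3 - 2 * (η / 10)))
    (hy : x ^ (η / 10) ≤ y) (hy2 : y ≤ 2 * x ^ (η / 10)) (hw0 : 0 ≤ w)
    (hw2 : w ≤ 2 * x ^ (1 / 3 - 2 * (η / 10))) (hz0 : 0 ≤ z) (hz : z ≤ 4 * x ^ (1 / 3 : ℝ))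
    (hΛ : Λ = x ^ (η / 400)) (hc : c = 10 ^ 8) (hcx : c ≤ x ^ (η / 40)) :
    20000 * Λ ^ 10 * (x * B + x ^ 2 * (R / B) + R * k ^ 2 + (y ^ 3 * w ^ 3) ^ 2 + x * z * R +
      x ^ 2 / y) ≤ x ^ (2 - η / 20) := by
  have hx0 : 0 < x := by linarith
  have mono : ∀ {a b : ℝ}, a ≤ b → x ^ a ≤ x ^ b := fun h => Real.rpow_le_rpow_of_exponent_le hx h
  have pos : ∀ a : ℝ, 0 < x ^ a := fun a => Real.rpow_pos_of_pos hx0 a
  have hy0 : 0 < y := (pos _).trans_le hy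
  have radd : ∀ a b : ℝ, x ^ a * x ^ b = x ^ (a + b) := fun a b => (Real.rpow_add hx0 a b).symm
  have rpw : ∀ (a : ℝ) (n : ℕ), (x ^ a) ^ n = x ^ (a * n) := fun a n => by
    rw [Real.rpow_mul hx0.le, Real.rpow_natCast]
  have e2 : x ^ 2 = x ^ (2 : ℝ) := by norm_cast
  have e1 : x = x ^ (1 : ℝ) := (Real.rpow_one x).symm
  set W : ℝ := x ^ (2 - η / 10) with hW
  have hW0 : 0 < W := pos _
  have t1 : x * B ≤ W := by
    calc x * B ≤ x * x ^ (1 - η) := mul_le_mul_of_nonneg_left hBx hx0.le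
      _ = x ^ (1 + (1 - η)) := by rw [Real.rpow_add hx0, Real.rpow_one]
      _ ≤ W := mono (by linarith)
  have t2 : x ^ 2 * (R / B) ≤ W := by
    have h1 : R / B ≤ x ^ (-η) := by
      rw [div_le_iff₀ (by linarith)]; linarith
    calc x ^ 2 * (R / B) ≤ x ^ 2 * x ^ (-η) := mul_le_mul_of_nonneg_left h1 (by positivity)
      _ = x ^ (2 + -η) := by rw [e2, radd]
      _ ≤ W := mono (by linarith)
  have t3 : R * k ^ 2 ≤ 4 * W := by
    have h1 : 2 * x / x ^ (1 / 3 - 2 * (η / 10)) = 2 * x ^ (2 / 3 + 2 * (η / 10)) := by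
      rw [div_eq_iff (pos _).ne', mul_assoc, radd]
      congr 1
      conv_lhs => rw [e1]
      congr 1
      ring
    rw [h1] at hk
    have h2 : k ^ 2 ≤ 4 * x ^ (4 / 3 + 4 * (η / 10)) := by
      calc k ^ 2 ≤ (2 * x ^ (2 / 3 + 2 * (η / 10))) ^ 2 := pow_le_pow_left₀ hk0 hk 2
        _ = 4 * x ^ (4 / 3 + 4 * (η / 10)) := by
          rw [mul_pow, rpw]
          norm_num
          congr 1
          ring
    calc R * k ^ 2 ≤ x ^ (2 / 3 - η) * (4 * x ^ (4 / 3 + 4 * (η / 10))) :=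
          mul_le_mul hRx h2 (by positivity) (pos _).le
      _ = 4 * x ^ ((2 / 3 - η) + (4 / 3 + 4 * (η / 10))) := by
          rw [← radd (2 / 3 - η)]; exact mul_left_comm _ _ _
      _ ≤ 4 * W := mul_le_mul_of_nonneg_left (mono (by linarith)) (by norm_num)
  have t4 : (y ^ 3 * w ^ 3) ^ 2 ≤ 4096 * W := by
    have h1 : y * w ≤ 4 * x ^ (1 / 3 - η / 10) := by
      calc y * w ≤ (2 * x ^ (η / 10)) * (2 * x ^ (1 / 3 - 2 * (η / 10))) :=
            mul_le_mul hy2 hw2 hw0 (by positivity)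
        _ = 4 * x ^ (η / 10 + (1 / 3 - 2 * (η / 10))) := by rw [← radd]; ring
        _ = 4 * x ^ (1 / 3 - η / 10) := by congr 2; ring
    calc (y ^ 3 * w ^ 3) ^ 2 = (y * w) ^ 6 := by ring
      _ ≤ (4 * x ^ (1 / 3 - η / 10)) ^ 6 := pow_le_pow_left₀ (by positivity) h1 6
      _ = 4096 * x ^ ((1 / 3 - η / 10) * (6 : ℕ)) := by rw [mul_pow, rpw]; norm_num
      _ ≤ 4096 * W := mul_le_mul_of_nonneg_left (mono (by push_cast; linarith)) (by norm_num)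
  have t5 : x * z * R ≤ 4 * W := by
    calc x * z * R ≤ x * (4 * x ^ (1 / 3 : ℝ)) * x ^ (2 / 3 - η) :=
          mul_le_mul (mul_le_mul_of_nonneg_left hz hx0.le) hRx hR (by positivity)
      _ = 4 * (x ^ (1 : ℝ) * x ^ (1 / 3 : ℝ) * x ^ (2 / 3 - η)) := by rw [Real.rpow_one]; ring
      _ = 4 * x ^ (1 + 1 / 3 + (2 / 3 - η)) := by rw [radd, radd]
      _ ≤ 4 * W := mul_le_mul_of_nonneg_left (mono (by linarith)) (by norm_num)
  have t6 : x ^ 2 / y ≤ W := by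
    rw [div_le_iff₀ hy0]
    calc x ^ 2 = x ^ (2 - η / 10) * x ^ (η / 10) := by rw [radd, e2]; congr 1; ring
      _ ≤ W * y := mul_le_mul_of_nonneg_left hy hW0.le
  have hsum : x * B + x ^ 2 * (R / B) + R * k ^ 2 + (y ^ 3 * w ^ 3) ^ 2 + x * z * R + x ^ 2 / y
      ≤ 4107 * W := by linarith
  have hΛ10 : Λ ^ 10 = x ^ (η / 40) := by
    rw [hΛ, rpw]
    congr 1
    push_cast
    ring
  calc 20000 * Λ ^ 10 * (x * B + x ^ 2 * (R / B) + R * k ^ 2 + (y ^ 3 * w ^ 3) ^ 2 + x * z * R +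
        x ^ 2 / y) ≤ 20000 * Λ ^ 10 * (4107 * W) :=
        mul_le_mul_of_nonneg_left hsum (by rw [hΛ10]; positivity)
    _ = 82140000 * (x ^ (η / 40) * x ^ (2 - η / 10)) := by rw [hΛ10]; ring
    _ = 82140000 * x ^ (2 - 3 * η / 40) := by rw [radd]; congr 2; ring
    _ ≤ x ^ (η / 40) * x ^ (2 - 3 * η / 40) :=
        mul_le_mul_of_nonneg_right (by rw [hc] at hcx; linarith) (pos _).le
    _ = x ^ (2 - η / 20) := by rw [radd]; congr 1; ring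

/-- Proof. If `R = 0` or `t = 0` the sum is `0`. `x = X`, `δ = η/10`, `y = ⌈x^δ⌉₊`, `z = ⌈(2x)^(1/3)⌉₊`,
`w = ⌈x^(1/3-2δ)⌉₊`, `Λ = x^(η/400)` and `vl1` (`tau_le` for the divisor function, `s5_log` for logarithms).
`XB ≤ x^(2-η)`, `X² R/B ≤ x^(2-η)`, `K ≤ 2x/x^(1/3-2δ)` so `R K² ≤ 4 x^(2-η+4δ)`,
`y³w³ ≤ 64 x^(1-3δ)`, `X z R ≤ 3 x^(2-η)`, `X²/y ≤ x^(2-δ)`; all are `≤ 4096 x^(2-η/10)`, and
`20000 · 6 · 4096 · Λ^10 ≤ x^(η/20)` for large `X`. -/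
theorem vs_Lam2 (η : ℝ) (hη : 0 < η) (hη1 : η ≤ 1 / 4) (B₀ : ℕ) : ∃ X₀ : ℕ, ∀ X : ℕ, X₀ ≤ X →
    ∀ (a : ℤ) (q B R t : ℕ), 1 ≤ q → (q : ℝ) ≤ Real.log X ^ B₀ → 1 ≤ B →
    (B : ℝ) ≤ (X : ℝ) ^ (1 - η) → (R : ℝ) ≤ (X : ℝ) ^ (2 / 3 - η) → (R : ℝ) ≤ B * (X : ℝ) ^ (-η) →
    t ≤ 2 * X →
    ∑ r ∈ Icc 1 R, ‖∑ n ∈ Icc 1 t, (vm n : ℂ) * e (((a : ℝ) / q + (r : ℝ) / (q * B)) * n)‖ ^ 2 ≤
      (X : ℝ) ^ (2 - η / 20) := by
  obtain ⟨C, hC1, hC⟩ := tau_le (η / 4000) (by positivity)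
  have ev1 := s5_log (η / 400) (by positivity) 1 B₀
  have ev2 := s5_log (η / 400) (by positivity) 40 1
  have ev3 := s5_log (η / 800) (by positivity) (12 * C ^ 5 * 4 * 4) 1
  have ev4 := s5_log (η / 500) (by positivity) (C * 8) 0
  have ev5 := s5_log (η / 40) (by positivity) (10 ^ 8) 0
  have ev6 := Filter.eventually_ge_atTop (α := ℕ) 8
  obtain ⟨X₀, hX₀⟩ := Filter.eventually_atTop.1
    (((ev1.and ev2).and (ev3.and ev4)).and (ev5.and ev6))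
  refine ⟨X₀, ?_⟩
  intro X hX a q B R t hq hqL hB hBX hRX hRB htX
  obtain ⟨⟨⟨h1, h2⟩, ⟨h3, h4⟩⟩, ⟨h5, h6⟩⟩ := hX₀ X hX
  set x : ℝ := (X : ℝ) with hxdef
  have hx8 : (8 : ℝ) ≤ x := by rw [hxdef]; exact_mod_cast h6
  have hx1 : (1 : ℝ) ≤ x := by linarith
  have hx0 : (0 : ℝ) < x := by linarith
  have mono : ∀ {a b : ℝ}, a ≤ b → x ^ a ≤ x ^ b := fun h => Real.rpow_le_rpow_of_exponent_le hx1 h
  have pos : ∀ a : ℝ, 0 < x ^ a := fun a => Real.rpow_pos_of_pos hx0 a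
  have ge1 : ∀ {a : ℝ}, 0 ≤ a → 1 ≤ x ^ a := fun h => Real.one_le_rpow hx1 h
  have le1 : ∀ {a : ℝ}, a ≤ 1 → x ^ a ≤ x := fun h => by
    calc x ^ _ ≤ x ^ (1 : ℝ) := mono h
      _ = x := Real.rpow_one x
  have hlog1 : 1 ≤ Real.log x := by
    rw [Real.le_log_iff_exp_le hx0]
    have := Real.exp_one_lt_d9
    linarith
  have htpos : 0 ≤ x ^ (2 - η / 20) := (pos _).le
  rcases Nat.eq_zero_or_pos R with hR0 | hR
  · rw [hR0]
    simpa using htpos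
  rcases Nat.eq_zero_or_pos t with ht0 | ht
  · rw [ht0]
    simpa using htpos
  obtain ⟨hy1, hy2, hy3⟩ := vl2_ceil (x ^ (η / 10)) (ge1 (by positivity))
  obtain ⟨hw1, hw2, hw3⟩ := vl2_ceil (x ^ (1 / 3 - 2 * (η / 10))) (ge1 (by linarith))
  have h2x : (1 : ℝ) ≤ (2 * x) ^ (1 / 3 : ℝ) := Real.one_le_rpow (by linarith) (by norm_num)
  obtain ⟨hz1, hz2, hz3⟩ := vl2_ceil ((2 * x) ^ (1 / 3 : ℝ)) h2x
  set y := ⌈x ^ (η / 10)⌉₊ with hyd
  set w := ⌈x ^ (1 / 3 - 2 * (η / 10))⌉₊ with hwd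
  set z := ⌈(2 * x) ^ (1 / 3 : ℝ)⌉₊ with hzd
  have h2x3 : (2 * x) ^ (1 / 3 : ℝ) ≤ 2 * x ^ (1 / 3 : ℝ) := by
    rw [Real.mul_rpow (by norm_num) hx0.le]
    refine mul_le_mul_of_nonneg_right ?_ (pos _).le
    calc (2 : ℝ) ^ (1 / 3 : ℝ) ≤ 2 ^ (1 : ℝ) :=
          Real.rpow_le_rpow_of_exponent_le (by norm_num) (by norm_num)
      _ = 2 := Real.rpow_one 2
  have hx3le : x ^ (1 / 3 : ℝ) ≤ x / 4 := by
    have e : x = x ^ (1 / 3 : ℝ) * x ^ (2 / 3 : ℝ) := by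
      rw [← Real.rpow_add hx0]; norm_num
    have h8 : (4 : ℝ) ≤ x ^ (2 / 3 : ℝ) := by
      calc (4 : ℝ) = (8 : ℝ) ^ (2 / 3 : ℝ) := by
            rw [show (8 : ℝ) = 2 ^ (3 : ℝ) by norm_num, ← Real.rpow_mul (by norm_num)]
            norm_num
        _ ≤ x ^ (2 / 3 : ℝ) := Real.rpow_le_rpow (by norm_num) hx8 (by norm_num)
    have h9 : x ^ (1 / 3 : ℝ) * 4 ≤ x := by
      calc x ^ (1 / 3 : ℝ) * 4 ≤ x ^ (1 / 3 : ℝ) * x ^ (2 / 3 : ℝ) :=
            mul_le_mul_of_nonneg_left h8 (pos _).le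
        _ = x := e.symm
    linarith
  -- the hypotheses of `vl1`
  have hLam1 : 1 ≤ x ^ (η / 400) := ge1 (by positivity)
  have hqΛ : (q : ℝ) ≤ x ^ (η / 400) := by
    rw [one_mul] at h1
    exact hqL.trans h1
  have hRBn : R ≤ B := by
    have h : x ^ (-η) ≤ 1 := Real.rpow_le_one_of_one_le_of_nonpos hx1 (by linarith)
    have h' : (R : ℝ) ≤ B := by
      calc (R : ℝ) ≤ B * x ^ (-η) := hRB
        _ ≤ B * 1 := mul_le_mul_of_nonneg_left h (Nat.cast_nonneg _)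
        _ = B := mul_one _
    exact_mod_cast h'
  have hBXn : B ≤ X := by
    have h : (B : ℝ) ≤ X := hBX.trans (le1 (by linarith))
    exact_mod_cast h
  have hqXn : q ≤ X := by
    have h : (q : ℝ) ≤ X := hqΛ.trans (le1 (by linarith))
    exact_mod_cast h
  have hyz : y ≤ z := by
    refine Nat.ceil_mono ?_
    calc x ^ (η / 10) ≤ x ^ (1 / 3 : ℝ) := mono (by linarith)
      _ ≤ (2 * x) ^ (1 / 3 : ℝ) := Real.rpow_le_rpow hx0.le (by linarith) (by norm_num)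
  have hzX : z ≤ X := by
    refine Nat.ceil_le.2 ?_
    calc (2 * x) ^ (1 / 3 : ℝ) ≤ 2 * x ^ (1 / 3 : ℝ) := h2x3
      _ ≤ 2 * (x / 4) := mul_le_mul_of_nonneg_left hx3le (by norm_num)
      _ ≤ X := by rw [← hxdef]; linarith
  have hz3 : 2 * X ≤ z ^ 3 := by
    have h : (2 * x) ≤ (z : ℝ) ^ 3 := by
      calc 2 * x = ((2 * x) ^ (1 / 3 : ℝ)) ^ 3 := by
            rw [← Real.rpow_natCast, ← Real.rpow_mul (by linarith)]
            norm_num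
        _ ≤ (z : ℝ) ^ 3 := pow_le_pow_left₀ (by linarith) hz1 3
    have h' : ((2 * X : ℕ) : ℝ) ≤ ((z ^ 3 : ℕ) : ℝ) := by
      push_cast
      exact h
    exact_mod_cast h'
  have hwx : x ^ (1 / 3 - 2 * (η / 10)) ≤ x ^ (1 / 3 : ℝ) := mono (by linarith)
  have hqw : q * w ≤ 2 * X := by
    have h : (q : ℝ) * w ≤ 2 * x := by
      calc (q : ℝ) * w ≤ x ^ (η / 400) * (2 * x ^ (1 / 3 - 2 * (η / 10))) :=
            mul_le_mul hqΛ hw2 (Nat.cast_nonneg _) (pos _).le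
        _ = 2 * x ^ (η / 400 + (1 / 3 - 2 * (η / 10))) := by rw [Real.rpow_add hx0]; ring
        _ ≤ 2 * x := mul_le_mul_of_nonneg_left (le1 (by linarith)) (by norm_num)
    have h' : ((q * w : ℕ) : ℝ) ≤ ((2 * X : ℕ) : ℝ) := by
      push_cast
      exact h
    exact_mod_cast h'
  have hqK0 : q ≤ 2 * X / w := (Nat.le_div_iff_mul_le (by omega)).2 hqw
  have hK : 1 ≤ 2 * X / w := hq.trans hqK0
  have hL : 4 * (2 + Real.log (8 * x ^ 2)) ≤ x ^ (η / 400) := by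
    have h : Real.log (8 * x ^ 2) = Real.log 8 + 2 * Real.log x := by
      rw [Real.log_mul (by norm_num) (by positivity), Real.log_pow]
      norm_num
    have h8 : Real.log 8 ≤ 3 := by
      rw [show (8 : ℝ) = 2 ^ 3 by norm_num, Real.log_pow]
      have := Real.log_two_lt_d9
      push_cast
      linarith
    rw [pow_one] at h2
    rw [h]
    linarith
  have hx2 : (8 * x ^ 2) ^ (η / 4000) ≤ 8 * x ^ (η / 2000) := by
    rw [Real.mul_rpow (by norm_num) (by positivity)]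
    have e8 : (8 : ℝ) ^ (η / 4000) ≤ 8 := by
      calc (8 : ℝ) ^ (η / 4000) ≤ 8 ^ (1 : ℝ) :=
            Real.rpow_le_rpow_of_exponent_le (by norm_num) (by linarith)
        _ = 8 := Real.rpow_one 8
    have ex : (x ^ 2) ^ (η / 4000) = x ^ (η / 2000) := by
      rw [← Real.rpow_natCast, ← Real.rpow_mul hx0.le]
      congr 1
      push_cast
      ring
    rw [ex]
    exact mul_le_mul_of_nonneg_right e8 (pos _).le
  have hτ : ∀ v ∈ Icc 1 (8 * X ^ 2), (v.divisors.card : ℝ) ≤ x ^ (η / 400) := by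
    intro v hv
    rw [mem_Icc] at hv
    have hv2 : (v : ℝ) ≤ 8 * x ^ 2 := by
      have : ((v : ℕ) : ℝ) ≤ ((8 * X ^ 2 : ℕ) : ℝ) := by exact_mod_cast hv.2
      push_cast at this
      exact this
    have h4' : C * 8 ≤ x ^ (η / 500) := by rw [pow_zero, mul_one] at h4; exact h4
    calc (v.divisors.card : ℝ) ≤ C * (v : ℝ) ^ (η / 4000) := hC v hv.1
      _ ≤ C * (8 * x ^ 2) ^ (η / 4000) := mul_le_mul_of_nonneg_left
          (Real.rpow_le_rpow (Nat.cast_nonneg _) hv2 (by positivity)) (by linarith)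
      _ ≤ C * (8 * x ^ (η / 2000)) := mul_le_mul_of_nonneg_left hx2 (by linarith)
      _ = (C * 8) * x ^ (η / 2000) := by ring
      _ ≤ x ^ (η / 500) * x ^ (η / 2000) := mul_le_mul_of_nonneg_right h4' (pos _).le
      _ = x ^ (η / 500 + η / 2000) := by rw [← Real.rpow_add hx0]
      _ ≤ x ^ (η / 400) := mono (by linarith)
  have hTB : ∀ n ∈ Icc 1 (4 * X), TB n ≤ x ^ (η / 400) := by
    intro n hn
    rw [mem_Icc] at hn
    have hn1 : (1 : ℝ) ≤ n := by exact_mod_cast hn.1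
    have hn2 : (n : ℝ) ≤ 4 * x := by
      have : ((n : ℕ) : ℝ) ≤ ((4 * X : ℕ) : ℝ) := by exact_mod_cast hn.2
      push_cast at this
      exact this
    have hd : (n.divisors.card : ℝ) ≤ C * (4 * x) ^ (η / 4000) := (hC n hn.1).trans
      (mul_le_mul_of_nonneg_left (Real.rpow_le_rpow (Nat.cast_nonneg _) hn2 (by positivity))
        (by linarith))
    have hd5 : (n.divisors.card : ℝ) ^ 5 ≤ C ^ 5 * (4 * x ^ (η / 800)) := by
      calc (n.divisors.card : ℝ) ^ 5 ≤ (C * (4 * x) ^ (η / 4000)) ^ 5 :=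
            pow_le_pow_left₀ (Nat.cast_nonneg _) hd 5
        _ = C ^ 5 * ((4 * x) ^ (η / 4000)) ^ 5 := by rw [mul_pow]
        _ = C ^ 5 * ((4 : ℝ) ^ (η / 800) * x ^ (η / 800)) := by
            rw [← Real.rpow_natCast ((4 * x) ^ (η / 4000)), ← Real.rpow_mul (by linarith),
              show η / 4000 * ((5 : ℕ) : ℝ) = η / 800 by push_cast; ring,
              Real.mul_rpow (by norm_num) hx0.le]
        _ ≤ C ^ 5 * (4 * x ^ (η / 800)) := by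
            refine mul_le_mul_of_nonneg_left (mul_le_mul_of_nonneg_right ?_ (pos _).le)
              (by positivity)
            calc (4 : ℝ) ^ (η / 800) ≤ 4 ^ (1 : ℝ) :=
                  Real.rpow_le_rpow_of_exponent_le (by norm_num) (by linarith)
              _ = 4 := Real.rpow_one 4
    have hl : 1 + Real.log n ≤ 4 * Real.log x := by
      have h : Real.log n ≤ Real.log (4 * x) := Real.log_le_log (by linarith) hn2
      rw [Real.log_mul (by norm_num) hx0.ne'] at h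
      have h4l : Real.log 4 ≤ 2 := by
        rw [show (4 : ℝ) = 2 ^ 2 by norm_num, Real.log_pow]
        have := Real.log_two_lt_d9
        push_cast
        linarith
      linarith
    have hl0 : 0 ≤ 1 + Real.log n := by
      have := Real.log_nonneg hn1
      linarith
    rw [pow_one] at h3
    unfold TB
    calc 12 * (n.divisors.card : ℝ) ^ 5 * (1 + Real.log n)
        ≤ 12 * (C ^ 5 * (4 * x ^ (η / 800))) * (4 * Real.log x) := by
          refine mul_le_mul (mul_le_mul_of_nonneg_left hd5 (by norm_num)) hl hl0 (by positivity)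
      _ = (12 * C ^ 5 * 4 * 4 * Real.log x) * x ^ (η / 800) := by ring
      _ ≤ x ^ (η / 800) * x ^ (η / 800) := mul_le_mul_of_nonneg_right h3 (pos _).le
      _ = x ^ (η / 800 + η / 800) := by rw [← Real.rpow_add hx0]
      _ ≤ x ^ (η / 400) := mono (by linarith)
  have main := vl1 a q B R X y z w t (x ^ (η / 400)) hq hB hR hRBn hBXn hqXn hqΛ hy3 hyz hzX hw3
    ht htX hz3 hK (hqK0.trans (Nat.le_mul_of_pos_left _ (by norm_num))) hL hτ hTB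
  refine main.trans ?_
  have hk : ((2 * X / w : ℕ) : ℝ) ≤ 2 * x / x ^ (1 / 3 - 2 * (η / 10)) := by
    calc ((2 * X / w : ℕ) : ℝ) ≤ ((2 * X : ℕ) : ℝ) / (w : ℝ) := Nat.cast_div_le
      _ = 2 * x / w := by push_cast; rfl
      _ ≤ 2 * x / x ^ (1 / 3 - 2 * (η / 10)) :=
          div_le_div_of_nonneg_left (by linarith) (pos _) hw1
  have hzf : (z : ℝ) ≤ 4 * x ^ (1 / 3 : ℝ) := by linarith
  have h5' : (10 : ℝ) ^ 8 ≤ x ^ (η / 40) := by rw [pow_zero, mul_one] at h5; exact h5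
  have fin := vl2_fin x η B R ((2 * X / w : ℕ) : ℝ) y w z (10 ^ 8) (x ^ (η / 400)) hx1 hη hη1
    (by exact_mod_cast hB) (Nat.cast_nonneg _) hBX hRX hRB (Nat.cast_nonneg _) hk hy1 hy2
    (Nat.cast_nonneg _) hw2 (Nat.cast_nonneg _) hzf rfl rfl h5'
  have ec : ((y ^ 3 * w ^ 3 : ℕ) : ℝ) = (y : ℝ) ^ 3 * (w : ℝ) ^ 3 := by push_cast; rfl
  rw [ec]
  exact fin

end Pool.Agent.Lib.MP_d9bc60_nt.VA
end
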